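import Mathlib

/-!
# Elias-Williamson theory for an arbitrary Coxeter group (MP_d13a5e_al): the data

`Dat` collects the facts on the Coxeter group `W` and on its realization that are used in the
proof. It is instantiated in `Inst.lean` for every Coxeter system of finite rank and every
reflection faithful realization as in Soergel and Elias-Williamson.
-/

open MvPolynomial

namespace EW

/-- A Coxeter group `W` with simple reflections `sr s`, `s : S`, length `len`, set of reflections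
`Rf`, acting on the polynomial ring `ℝ[x_0,…,x_{n-1}]` by substitutions of linear forms. `alpha s`
is the simple root, `cor s` the simple coroot, `rt t` a root of the reflection `t`, `rhoc` the
coefficients of a dominant regular linear form. -/
class Dat where
  n : ℕ
  W : Type
  S : Type
  [grp : Group W]
  [decW : DecidableEq W]
  [finS : Fintype S]
  [decS : DecidableEq S]
  sr : S → W
  act : W → (MvPolynomial (Fin n) ℝ →ₐ[ℝ] MvPolynomial (Fin n) ℝ)
  alpha : S → MvPolynomial (Fin n) ℝ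
  cor : S → Fin n → ℝ
  len : W → ℕ
  Rf : W → Prop
  rt : W → MvPolynomial (Fin n) ℝ
  inv : W → Finset W
  rhoc : Fin n → ℝ
  sr_mul : ∀ s, sr s * sr s = 1
  act_one : act 1 = AlgHom.id ℝ _
  act_mul : ∀ w v, act (w * v) = (act w).comp (act v)
  act_lin : ∀ w i, (act w (X i)).IsHomogeneous 1
  alpha_lin : ∀ s, (alpha s).IsHomogeneous 1
  alpha_ne : ∀ s, alpha s ≠ 0
  act_sr_X : ∀ s i, act (sr s) (X i) = X i - C (cor s i) * alpha s
  act_sr_alpha : ∀ s, act (sr s) (alpha s) = - alpha s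
  len_one : len 1 = 0
  len_mul_sr : ∀ w s, len (w * sr s) = len w + 1 ∨ len w = len (w * sr s) + 1
  desc : ∀ w, w ≠ 1 → ∃ s, len (w * sr s) < len w
  ball : ∀ N : ℕ, {w : W | len w ≤ N}.Finite
  rf_sr : ∀ s, Rf (sr s)
  rf_conj : ∀ w t, Rf t → Rf (w * t * w⁻¹)
  rf_sq : ∀ t, Rf t → t * t = 1
  rf_len : ∀ t y, Rf t → len (t * y) ≠ len y
  rt_lin : ∀ t, Rf t → (rt t).IsHomogeneous 1
  rt_ne : ∀ t, Rf t → rt t ≠ 0
  rt_act : ∀ t, Rf t → ∀ i, ∃ c : ℝ, act t (X i) = X i - C c * rt t
  rt_inj : ∀ t t', Rf t → Rf t' → rt t ∣ rt t' → t = t'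
  rt_conj : ∀ w s, ∃ c : ℝ, c ≠ 0 ∧ act w (alpha s) = C c * rt (w * sr s * w⁻¹)
  crossing : ∀ t y s, Rf t → len y < len (t * y) → t * y ≠ y * sr s →
    len (y * sr s) < len (t * y * sr s)
  mem_inv : ∀ y t, t ∈ inv y ↔ Rf t ∧ len (t * y) < len y
  card_inv : ∀ y, (inv y).card = len y
  faithful : ∀ y z, (∀ j, act y (X j) = act z (X j)) → y = z
  refl_faithful : ∀ y z, y ≠ z → (∀ t, Rf t → z ≠ t * y) →
    ∃ j k, act y (X j) - act z (X j) ≠ 0 ∧
      ¬ (act y (X j) - act z (X j)) ∣ (act y (X k) - act z (X k))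
  rho_pos : ∀ y s, len y < len (y * sr s) → ∃ c : ℝ, 0 < c ∧
    (act y⁻¹ (∑ i, C (rhoc i) * X i)) - act (sr s) (act y⁻¹ (∑ i, C (rhoc i) * X i)) =
      C c * alpha s

attribute [reducible, instance] Dat.grp Dat.decW Dat.finS Dat.decS

end EW
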