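import Mathlib
import Pool.Agent.EW.CDefs

/-!
# Part C, definitions 2: morphisms, forms, nice objects, KL objects (MP_d13a5e_al)
-/

open MvPolynomial

namespace EW

variable [Dat]

/-! ### the Demazure operator -/

open Classical in
/-- `∂_s f = (f - s f) / α_s` -/
noncomputable def dem (s : Sg) (f : Rg) : Rg :=
  if h : al 1 s ∣ f - act (sw s) f then h.choose else 0

/-- `ρ = Σ c_i x_i`, dominant and regular -/
noncomputable def rho : Rg := ∑ i : Vx, C (Dat.rhoc i) * X i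

/-! ### morphisms -/

/-- `φ` commutes with the right action -/
def BiMap {O P : Obj} (φ : O.M →ₗ[Rg] P.M) : Prop :=
  ∀ (j : Vx) (m : O.M), φ (O.rmul (X j) m) = P.rmul (X j) (φ m)

/-- `φ` is homogeneous of degree `e` -/
def DegMap {O P : Obj} (φ : O.M →ₗ[Rg] P.M) (e : ℤ) : Prop :=
  ∀ i : ℕ, ∀ a ∈ O.dg i, (∀ j : ℕ, (j : ℤ) = i + e → φ a ∈ P.dg j) ∧ ((i : ℤ) + e < 0 → φ a = 0)

/-- the element `a ⊗ 1 + b ⊗ α_s` of `θ_s O` -/
noncomputable def el (s : Sg) {O : Obj} (a b : O.M) : (theta s O).M :=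
  ⟨elFun O.π s (a.1, b.1), ⟨(a.1, b.1), ⟨a.2, b.2⟩, rfl⟩⟩

/-! ### forms -/

/-- a perfect symmetric form of degree `-d`, right linear, with self-adjoint left action -/
structure Frm (O : Obj) (d : ℕ) where
  F : O.M →ₗ[ℝ] O.M →ₗ[ℝ] Rg
  symm : ∀ a b, F a b = F b a
  left : ∀ (f : Rg) (a b : O.M), F (f • a) b = F a (f • b)
  right : ∀ (f : Rg) (a b : O.M), F (O.rmul f a) b = f * F a b
  deg : ∀ i j k : ℕ, ∀ a ∈ O.dg i, ∀ b ∈ O.dg j, i + j = k + d → (F a b).IsHomogeneous k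
  deg0 : ∀ i j : ℕ, ∀ a ∈ O.dg i, ∀ b ∈ O.dg j, i + j < d → F a b = 0
  perfect : ∀ g : O.M →ₗ[ℝ] Rg, (∀ (f : Rg) (a : O.M), g (O.rmul f a) = f * g a) →
    ∃ b, ∀ a, g a = F a b
  nondeg : ∀ b, (∀ a, F a b = 0) → b = 0

/-- `G` is the form on `θ_s O` induced by `Fm`: `⟨a ⊗ f, b ⊗ g⟩ = f g ∂_s ⟨a,b⟩` -/
def IsThetaFrm (s : Sg) {O : Obj} {d : ℕ} (Fm : Frm O d)
    (G : Frm (theta s O) (d + 1)) : Prop :=
  ∀ a b a' b' : O.M, G.F (el s a b) (el s a' b') =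
    dem s (Fm.F a a') + al 1 s * (dem s (Fm.F a b') + dem s (Fm.F b a'))
      + al 1 s * al 1 s * dem s (Fm.F b b')

/-! ### nice objects -/

/-- all local stalks are graded free, and the condition `(★_t)` -/
structure Nice (O : Obj) : Prop where
  inW : ∀ i, InW (O.π i)
  lo : ∀ y, ∃ p, GF (O.Dsub (Up) y) p
  up : ∀ y, ∃ p, GF (O.Dsub (Dn) y) p
  star : ∀ t : Wg, Dat.Rf t → ∀ x : Wg, len x < len (t * x) →
    ∀ u ∈ O.M, (∀ i, O.π i = x → u i = 0) → ∃ p : Rg, ¬ (Dat.rt t ∣ p) ∧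
      ∃ v ∈ O.M, ∀ i, O.π i = t * x → p * u i = Dat.rt t * v i

/-- `D'_y` has graded rank `q^{ℓ(y)} P_y`, `D_y` has graded rank `q^{d-ℓ(y)} P_y(1/q)` -/
structure CharRel (d : ℕ) (O : Obj) (P : Wg → Polynomial ℕ) : Prop where
  up : ∀ y, GF (O.Dsub (Dn) y) (Polynomial.X ^ (len y) * P y)
  lo : ∀ y, GF (O.Dsub (Up) y) ((P y).reflect (d - len y))
  deg : ∀ y, P y ≠ 0 → len y + (P y).natDegree ≤ d

open Classical in
/-- self-dual characters of degree `d`: the smallest family containing `(0, δ_e)`, closed under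
`h ↦ h (1 + T_s)`, sums, differences and `h ↦ q h` -/
inductive SD : ℕ → (Wg → Polynomial ℤ) → Prop
  | one : SD 0 (fun y => if y = 1 then 1 else 0)
  | zero (d : ℕ) : SD d 0
  | add {d : ℕ} {f g : Wg → Polynomial ℤ} : SD d f → SD d g → SD d (f + g)
  | neg {d : ℕ} {f : Wg → Polynomial ℤ} : SD d f → SD d (-f)
  | shift {d : ℕ} {f : Wg → Polynomial ℤ} : SD d f →
      SD (d + 2) (fun y => Polynomial.X * f y)
  | mul {d : ℕ} {f : Wg → Polynomial ℤ} (s : Sg) (hs : Smp s) : SD d f →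
      SD (d + 1) (fun y => if Up y (y * sw s) then f y + Polynomial.X * f (y * sw s)
        else f (y * sw s) + Polynomial.X * f y)

/-- lifting property of the generator `b0` over `x` -/
def LiftProp (x : Wg) (O : Obj) (b0 : O.M) : Prop :=
  ∀ N : Obj, Nice N → ∀ e : ℕ, ∀ m : N.M, m ∈ N.dg e →
    (∀ i, N.π i ∉ Le (Up) x → m.1 i = 0) →
    ∃ φ : O.M →ₗ[Rg] N.M, BiMap φ ∧ DegMap φ e ∧ ∀ i, N.π i = x → (φ b0).1 i = m.1 i

/-- Hodge-Riemann relations on `O / O R_+` for a degree one operator `L` -/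
def HRop (O : Obj) (d : ℕ) (F : O.M →ₗ[ℝ] O.M →ₗ[ℝ] Rg) (L : O.M →ₗ[ℝ] O.M) : Prop :=
  ∀ i, 2 * i ≤ d → ∀ b ∈ O.dg i, (L ^ (d - 2 * i + 1)) b ∈ O.MRp →
    b ∈ O.MRp ∨ 0 < (-1 : ℝ) ^ i * constantCoeff (F b ((L ^ (d - 2 * i)) b))

/-- hard Lefschetz (injectivity) on `O / O R_+` -/
def HLop (O : Obj) (d : ℕ) (L : O.M →ₗ[ℝ] O.M) : Prop :=
  ∀ i, 2 * i ≤ d → ∀ b ∈ O.dg i, (L ^ (d - 2 * i)) b ∈ O.MRp → b ∈ O.MRp

/-- left multiplication by `ρ` -/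
noncomputable def Lrho (O : Obj) : O.M →ₗ[ℝ] O.M where
  toFun m := rho • m
  map_add' := by intro a b; exact smul_add _ _ _
  map_smul' := by intro c a; exact smul_comm _ _ _

/-- the unit object `R_e` -/
noncomputable def Re : Obj where
  I := Unit
  π _ := 1
  M := ⊤
  right_mem := by intro _ _ _; trivial
  graded := by intro _ _ _; trivial

/-- Bott-Samelson object of a word (read from right to left) -/
noncomputable def BS : List (Sg) → Obj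
  | [] => Re
  | s :: l => theta s (BS l)

/-- the product of the word (read from right to left) -/
def wprod : List (Sg) → Wg
  | [] => 1
  | s :: l => wprod l * sw s

/-- `O` is a direct summand (degree 0) of `P` -/
def IsSummand (O P : Obj) : Prop :=
  ∃ (i : O.M →ₗ[Rg] P.M) (p : P.M →ₗ[Rg] O.M), BiMap i ∧ BiMap p ∧ DegMap i 0 ∧
    DegMap p 0 ∧ ∀ m, p (i m) = m

/-- a Kazhdan-Lusztig object of type `x` -/
structure KLObj (x : Wg) where
  O : Obj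
  Fm : Frm O (len x)
  b0 : O.M
  P : Wg → Polynomial ℕ
  nice : Nice O
  supp : ∀ (m : O.M) (i : O.I), O.π i ∉ Le (Up) x → m.1 i = 0
  b0_mem : b0 ∈ O.dg 0
  b0_ne : ∃ i, O.π i = x ∧ b0.1 i ≠ 0
  gen : ∀ m : O.M, ∃ f : Rg, ∀ i, O.π i = x → m.1 i = f * b0.1 i
  char : CharRel (len x) O P
  Px : P x = 1
  Pdeg : ∀ y, y ≠ x → P y ≠ 0 → len y + 2 * (P y).natDegree + 1 ≤ len x
  Psupp : ∀ y, y ∉ Le (Up) x → P y = 0
  sd : SD (len x) (fun y => (P y).map (Nat.castRingHom ℤ))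
  lift : LiftProp x O b0
  bs : ∃ l : List (Sg), (∀ s ∈ l, Smp s) ∧ wprod l = x ∧ l.length = len x ∧
    IsSummand O (BS l)
  hr : HRop O (len x) Fm.F (Lrho O)

/-- the family `W(x)` of weak Lefschetz maps -/
def WProp {x : Wg} (B : KLObj x) : Prop :=
  ∃ (K : ℕ) (z : Fin K → Wg) (Bz : ∀ k, KLObj (z k)) (e : Fin K → ℕ)
    (d : ∀ k, B.O.M →ₗ[Rg] (Bz k).O.M),
    (∀ k, InW (z k) ∧ len (z k) + 2 * e k + 1 = len x) ∧
    (∀ k, BiMap (d k) ∧ DegMap (d k) (-(e k : ℤ))) ∧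
    (∀ b b', ∑ k, (-1 : Rg) ^ (e k) * (Bz k).Fm.F (d k b) (d k b') =
      B.Fm.F (rho • b) b' - act x⁻¹ rho * B.Fm.F b b') ∧
    (∀ i < len x, ∀ b ∈ B.O.dg i, (∀ k, d k b ∈ (Bz k).O.MRp) → b ∈ B.O.MRp)

/-- structure of a KL object with respect to a right descent `s` -/
def DProp {x : Wg} (B : KLObj x) (s : Sg) : Prop :=
  ∃ D : B.O.M →ₗ[Rg] B.O.M,
    (∀ b, D (B.O.rmul (al 1 s) b) + B.O.rmul (al 1 s) (D b) = b) ∧
    (∀ f, act (sw s) f = f → ∀ b, D (B.O.rmul f b) = B.O.rmul f (D b)) ∧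
    DegMap D (-1) ∧ (∀ b, D (D b) = 0) ∧
    (∀ u u', dem s (B.Fm.F u u') =
      2 * (B.Fm.F (D u) u' + act (sw s) (B.Fm.F u (D u'))))

/-- an operator on `θ_s O` is the middle multiplication by `ρ` -/
def IsMid (s : Sg) (O : Obj) (T : (theta s O).M →ₗ[ℝ] (theta s O).M) : Prop :=
  ∀ a b : O.M, T (el s a b) = el s (O.rmul rho a) (O.rmul rho b)

end EW
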