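import Mathlib
import Pool.Agent.EW.CDefs2

/-!
# Part C, block CB1: the Bruhat relation (MP_d13a5e_al)
-/

open MvPolynomial

namespace EW

variable [Dat]

theorem InW_one : InW 1 := trivial

theorem InW.mul {y z : Wg} (_hy : InW y) (_hz : InW z) : InW (y * z) := trivial

theorem InW.inv {y : Wg} (_hy : InW y) : InW y⁻¹ := trivial

theorem Smp.inW {s : Sg} (_hs : Smp s) : InW (sw s) := trivial

theorem sw_mul_sw (s : Sg) : sw s * sw s = 1 := Dat.sr_mul s

theorem CB1.sw_inv (s : Sg) : (sw s)⁻¹ = sw s := inv_eq_of_mul_eq_one_left (sw_mul_sw s)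

theorem CB1.mul_sw_mul_sw (y : Wg) (s : Sg) : y * sw s * sw s = y := by
  rw [mul_assoc, sw_mul_sw, mul_one]

/-- `y s = (y s y⁻¹) y` -/
theorem CB1.mul_sw (y : Wg) (s : Sg) : y * sw s = (y * sw s * y⁻¹) * y := by
  rw [mul_assoc _ y⁻¹, inv_mul_cancel, mul_one]

theorem rf_sq {t : Wg} (ht : Dat.Rf t) : t * t = 1 := Dat.rf_sq t ht

theorem rf_mul_mul {t : Wg} (ht : Dat.Rf t) (y : Wg) : t * (t * y) = y := by
  rw [← mul_assoc, rf_sq ht, one_mul]

theorem up_or_dn (y : Wg) {t : Wg} (ht : Dat.Rf t) : Up y (t * y) ∨ Up (t * y) y := by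
  rcases lt_or_gt_of_ne (Dat.rf_len t y ht) with h | h
  · right
    refine ⟨t, ht, ?_, (rf_mul_mul ht y).symm⟩
    rw [rf_mul_mul ht]
    exact h
  · left
    exact ⟨t, ht, h, rfl⟩

theorem Up.inW {y z : Wg} (_h : Up y z) (_hy : InW y) : InW z := trivial

theorem Up.inW' {y z : Wg} (_h : Up y z) (_hz : InW z) : InW y := trivial

theorem Up.len_lt {y z : Wg} (h : Up y z) : len y < len z := by
  obtain ⟨t, _, h1, rfl⟩ := h
  exact h1

theorem Up.ne {y z : Wg} (h : Up y z) : y ≠ z := by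
  rintro rfl
  exact lt_irrefl _ h.len_lt

theorem rf_of_conj (y : Wg) (s : Sg) : Dat.Rf (y * sw s * y⁻¹) := Dat.rf_conj y _ (Dat.rf_sr s)

theorem up_sw_iff {y : Wg} (_hy : InW y) {s : Sg} (_hs : Smp s) :
    Up y (y * sw s) ↔ len y < len (y * sw s) := by
  constructor
  · exact fun h => h.len_lt
  · intro h
    refine ⟨y * sw s * y⁻¹, rf_of_conj y s, ?_, CB1.mul_sw y s⟩
    rw [← CB1.mul_sw]
    exact h

theorem dn_sw_iff {y : Wg} (_hy : InW y) {s : Sg} (_hs : Smp s) :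
    Dn y (y * sw s) ↔ len (y * sw s) < len y := by
  constructor
  · exact fun h => Up.len_lt h
  · intro h
    have h1 := (up_sw_iff (y := y * sw s) trivial (s := s) trivial).2 (by rw [CB1.mul_sw_mul_sw]; exact h)
    rw [CB1.mul_sw_mul_sw] at h1
    exact h1

theorem len_sw_ne (y : Wg) (s : Sg) : len (y * sw s) ≠ len y := by
  have h := Dat.len_mul_sr y s
  change Dat.len (y * Dat.sr s) ≠ Dat.len y
  omega

theorem len_mul_sw {y : Wg} (_hy : InW y) {s : Sg} (_hs : Smp s) (h : Up y (y * sw s)) :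
    len (y * sw s) = len y + 1 := by
  have h1 := h.len_lt
  have h2 := Dat.len_mul_sr y s
  change Dat.len y < Dat.len (y * Dat.sr s) at h1
  change Dat.len (y * Dat.sr s) = Dat.len y + 1
  omega

/-- crossing lemma -/
theorem Up.crossing {y z : Wg} (_hy : InW y) {s : Sg} (_hs : Smp s) (h : Up y z)
    (hne : z ≠ y * sw s) :
    Up (y * sw s) (z * sw s) := by
  obtain ⟨t, ht, h1, rfl⟩ := h
  have h2 := Dat.crossing t y s ht h1 hne
  refine ⟨t, ht, ?_, by rw [mul_assoc]⟩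
  rw [← mul_assoc]
  exact h2

theorem len_one : len 1 = 0 := Dat.len_one

theorem exists_descent {x : Wg} (_hx : InW x) (hx1 : x ≠ 1) :
    ∃ s, Smp s ∧ Up (x * sw s) x := by
  obtain ⟨s, hs⟩ := Dat.desc x hx1
  exact ⟨s, trivial, (dn_sw_iff trivial trivial).2 hs⟩

/-- the values of `t` on linear forms -/
theorem rt_act (t : Wg) (ht : Dat.Rf t) (i : Vx) :
    ∃ c : ℝ, act t (X i) = X i - C c * Dat.rt t := Dat.rt_act t ht i

theorem al_eq_rt (y : Wg) (s : Sg) :
    ∃ c : ℝ, c ≠ 0 ∧ al y s = C c * Dat.rt (y * sw s * y⁻¹) := Dat.rt_conj y s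

end EW
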