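
import Pool.Agent.EW.CB1

/-!
# Block CB2: lower sets for the Bruhat relation (MP_d13a5e_al)
-/



namespace EW

variable [Dat] {r : Wg → Wg → Prop}

theorem Low_Le (r : Wg → Wg → Prop) (y : Wg) : Low r (Le r y) := by
  intro a b hab hb
  exact Relation.ReflTransGen.head hab hb

theorem exists_height (hr : r = Up ∨ r = Dn) :
    ∃ h : Wg → ℤ, ∀ y z, r y z → h y < h z := by
  rcases hr with rfl | rfl
  · exact ⟨fun y => (len y : ℤ), fun y z h => by have := h.len_lt; simp only; omega⟩
  · refine ⟨fun y => -(len y : ℤ), fun y z h => ?_⟩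
    have h1 := Up.len_lt h
    simp only
    omega

theorem rel_inW (hr : r = Up ∨ r = Dn) {y z : Wg} (h : r y z) :
    (InW y ↔ InW z) := by
  rcases hr with rfl | rfl
  · exact ⟨fun hy => Up.inW h hy, fun hz => Up.inW' h hz⟩
  · exact ⟨fun hy => Up.inW' h hy, fun hz => Up.inW h hz⟩

theorem Le_inW (hr : r = Up ∨ r = Dn) {y z : Wg} (hy : InW y) (hz : z ∈ Le r y) :
    InW z := by
  change Relation.ReflTransGen r z y at hz
  induction hz using Relation.ReflTransGen.head_induction_on with
  | refl => exact hy
  | head h _ ih => exact (rel_inW hr h).mpr ih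

theorem mul_sw_cancel (z : Wg) (s : Sg) : z * sw s * sw s = z := by
  rw [mul_assoc, sw_mul_sw, mul_one]

theorem rel_crossing (hr : r = Up ∨ r = Dn) {y z : Wg} (hy : InW y)
    {s : Sg} (hs : Smp s) (h : r y z) (hne : z ≠ y * sw s) :
    r (y * sw s) (z * sw s) := by
  have hz : InW z := (rel_inW hr h).mp hy
  rcases hr with rfl | rfl
  · exact Up.crossing hy hs h hne
  · refine Up.crossing hz hs h ?_
    intro h1
    apply hne
    rw [h1, mul_sw_cancel]

theorem rel_dichotomy (hr : r = Up ∨ r = Dn) {y : Wg} (hy : InW y)
    {s : Sg} (hs : Smp s) : r y (y * sw s) ∨ r (y * sw s) y := by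
  rcases lt_or_gt_of_ne (len_sw_ne y s).symm with h | h
  · have h1 := (up_sw_iff hy hs).mpr h
    rcases hr with rfl | rfl
    · exact Or.inl h1
    · exact Or.inr h1
  · have h1 := (dn_sw_iff hy hs).mpr h
    rcases hr with rfl | rfl
    · exact Or.inr h1
    · exact Or.inl h1

/-- if `z s < z` then `{≤ z}` is right `s`-stable -/
theorem Le_mul_sw (hr : r = Up ∨ r = Dn) {z : Wg} (hz : InW z) {s : Sg}
    (hs : Smp s) (h : r (z * sw s) z) {z' : Wg} (hz' : z' ∈ Le r z) :
    z' * sw s ∈ Le r z := by
  change Relation.ReflTransGen r z' z at hz'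
  induction hz' using Relation.ReflTransGen.head_induction_on with
  | refl => exact Relation.ReflTransGen.single h
  | @head a c hac hcz ih =>
    have hc : InW c := Le_inW hr hz hcz
    have ha : InW a := (rel_inW hr hac).mpr hc
    by_cases hca : c = a * sw s
    · rw [← hca]; exact hcz
    · exact Relation.ReflTransGen.head (rel_crossing hr ha hs hac hca) ih

/-- lifting: `z' ≤ y s`, `z' < z' s`, `y < y s` imply `z' ≤ y` -/
theorem Le_lift (hr : r = Up ∨ r = Dn) {y : Wg} (hy : InW y) {s : Sg}
    (hs : Smp s) (h : r y (y * sw s)) {z' : Wg} (hz' : z' ∈ Le r (y * sw s))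
    (h' : r z' (z' * sw s)) : z' ∈ Le r y := by
  obtain ⟨ht, hht⟩ := exists_height hr
  have hys : InW (y * sw s) := (rel_inW hr h).mp hy
  have key : (r z' (z' * sw s) → z' ∈ Le r y) ∧ (r (z' * sw s) z' → z' * sw s ∈ Le r y) := by
    clear h'
    change Relation.ReflTransGen r z' (y * sw s) at hz'
    induction hz' using Relation.ReflTransGen.head_induction_on with
    | refl =>
      rw [mul_sw_cancel]
      refine ⟨fun h1 => ?_, fun _ => Relation.ReflTransGen.refl⟩
      have h2 := hht _ _ h
      have h3 := hht _ _ h1
      omega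
    | @head a c hac hcz ih =>
      have hc : InW c := Le_inW hr hys hcz
      have ha : InW a := (rel_inW hr hac).mpr hc
      constructor
      · intro h1
        by_cases hca : c = a * sw s
        · have h2 : a = c * sw s := by rw [hca, mul_sw_cancel]
          have h3 := ih.2 (by rw [← h2]; exact hac)
          rwa [← h2] at h3
        · have h2 := rel_crossing hr ha hs hac hca
          rcases rel_dichotomy hr hc hs with h3 | h3
          · exact Relation.ReflTransGen.head hac (ih.1 h3)
          · exact Relation.ReflTransGen.head h1 (Relation.ReflTransGen.head h2 (ih.2 h3))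
      · intro h1
        by_cases hca : c = a * sw s
        · exfalso
          have h2 := hht _ _ h1
          have h3 := hht _ _ hac
          rw [hca] at h3
          omega
        · have h2 := rel_crossing hr ha hs hac hca
          rcases rel_dichotomy hr hc hs with h3 | h3
          · exact Relation.ReflTransGen.head h1 (Relation.ReflTransGen.head hac (ih.1 h3))
          · exact Relation.ReflTransGen.head h2 (ih.2 h3)
  exact key.1 h'

theorem Le_len {y z : Wg} (hz : z ∈ Le (Up) y) : len z ≤ len y ∧
    (len z = len y → z = y) := by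
  change Relation.ReflTransGen (Up) z y at hz
  induction hz using Relation.ReflTransGen.head_induction_on with
  | refl => exact ⟨le_rfl, fun _ => rfl⟩
  | head h _ ih =>
    have h1 := Up.len_lt h
    refine ⟨h1.le.trans ih.1, fun h2 => ?_⟩
    have h3 := ih.1
    omega

theorem one_mem_Le {x : Wg} (hx : InW x) : (1 : Wg) ∈ Le (Up) x := by
  induction h : len x using Nat.strong_induction_on generalizing x with
  | _ l ih =>
    by_cases hx1 : x = 1
    · rw [hx1]; exact Relation.ReflTransGen.refl
    · obtain ⟨s, hs, hu⟩ := exists_descent hx hx1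
      have h1 := Up.len_lt hu
      have h2 := ih (len (x * sw s)) (by omega) (Up.inW' hu hx) rfl
      exact Relation.ReflTransGen.tail h2 hu

end EW
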