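import Mathlib
import Pool.Agent.EW.CDefs2

/-!
# Part C, block CD: the Demazure operator (MP_d13a5e_al)
-/

open MvPolynomial

namespace EW

variable [Dat]

section CD

variable {s : Sg}

theorem cd_act_sw_sw (s : Sg) (f : Rg) : act (sw s) (act (sw s) f) = f := act_sw_sw' s f

theorem al_dvd_sub (s : Sg) (f : Rg) : al 1 s ∣ f - act (sw s) f := by
  induction f using MvPolynomial.induction_on with
  | C a => simp
  | add p q hp hq =>
      have : p + q - act (sw s) (p + q) = (p - act (sw s) p) + (q - act (sw s) q) := by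
        rw [map_add]; ring
      rw [this]
      exact dvd_add hp hq
  | mul_X p j hp =>
      have h1 : p * X j - act (sw s) (p * X j) =
          (p - act (sw s) p) * X j + act (sw s) p * (X j - act (sw s) (X j)) := by
        rw [map_mul]; ring
      rw [h1]
      refine dvd_add (Dvd.dvd.mul_right hp _) (Dvd.dvd.mul_left ?_ _)
      rw [act_sw_X]
      exact ⟨C (Dat.cor s j), by ring⟩

theorem act_ne_zero (y : Wg) {f : Rg} (hf : f ≠ 0) : act y f ≠ 0 := by
  intro h
  apply hf
  have h1 : act y⁻¹ (act y f) = 0 := by rw [h, map_zero]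
  rwa [← act_mul, inv_mul_cancel, act_one] at h1

theorem al_ne_zero (_hs : Smp s) (y : Wg) : al y s ≠ 0 := act_ne_zero y (Dat.alpha_ne s)

/-- nonzero linear forms are prime -/
theorem lin_prime {f : Rg} (hf : f.IsHomogeneous 1) (hf0 : f ≠ 0) : Prime f := by
  rw [← UniqueFactorizationMonoid.irreducible_iff_prime]
  have key : ∀ p q : Rg, f = p * q → p.totalDegree = 0 → IsUnit p := by
    intro p q hpq h0
    rw [totalDegree_eq_zero_iff_eq_C] at h0
    have hc : p.coeff 0 ≠ 0 := by
      intro h3
      apply hf0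
      rw [hpq, h0, h3, C_0, zero_mul]
    rw [h0]
    exact (isUnit_iff_ne_zero.mpr hc).map (C : ℝ →+* Rg)
  constructor
  · intro hu
    have h1 := hu.map (constantCoeff : Rg →+* ℝ)
    have h2 : constantCoeff f = 0 := by
      rw [constantCoeff_eq]
      by_contra h
      have h3 := hf h
      simp at h3
    rw [h2] at h1
    exact not_isUnit_zero h1
  · intro p q hpq
    have hp0 : p ≠ 0 := by rintro rfl; exact hf0 (by rw [hpq, zero_mul])
    have hq0 : q ≠ 0 := by rintro rfl; exact hf0 (by rw [hpq, mul_zero])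
    have hdeg : f.totalDegree = p.totalDegree + q.totalDegree := by
      rw [hpq]
      exact totalDegree_mul_of_isDomain hp0 hq0
    have hle : f.totalDegree ≤ 1 := hf.totalDegree_le
    rcases Nat.eq_zero_or_pos p.totalDegree with h | h
    · exact Or.inl (key p q hpq h)
    · exact Or.inr (key q p (by rw [hpq, mul_comm]) (by omega))

theorem al_prime' (y : Wg) (s : Sg) : Prime (al y s : Rg) :=
  lin_prime (al_homog y s) (al_ne_zero trivial y)

theorem al_prime (_hs : Smp s) : Prime (al 1 s : Rg) := al_prime' 1 s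

theorem rt_prime {t : Wg} (ht : Dat.Rf t) : Prime (Dat.rt t : Rg) :=
  lin_prime (Dat.rt_lin t ht) (Dat.rt_ne t ht)

theorem dem_spec (s : Sg) (_hs : Smp s) (f : Rg) :
    al 1 s * dem s f = f - act (sw s) f := by
  unfold dem
  rw [dif_pos (al_dvd_sub s f)]
  exact (al_dvd_sub s f).choose_spec.symm

theorem cd_dem_unique (hs : Smp s) {f g : Rg} (h : al 1 s * g = f - act (sw s) f) :
    dem s f = g :=
  mul_left_cancel₀ (al_ne_zero hs 1) ((dem_spec s hs f).trans h.symm)

theorem dem_add (hs : Smp s) (f g : Rg) : dem s (f + g) = dem s f + dem s g := by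
  apply cd_dem_unique hs
  rw [mul_add, dem_spec s hs, dem_spec s hs, map_add]; ring

theorem dem_smul (hs : Smp s) (c : ℝ) (f : Rg) : dem s (c • f) = c • dem s f := by
  apply cd_dem_unique hs
  rw [mul_smul_comm, dem_spec s hs, map_smul, smul_sub]

theorem dem_mul (hs : Smp s) (f g : Rg) :
    dem s (f * g) = dem s f * g + act (sw s) f * dem s g := by
  apply cd_dem_unique hs
  have h1 := dem_spec s hs f
  have h2 := dem_spec s hs g
  rw [map_mul]
  linear_combination g * h1 + act (sw s) f * h2

theorem dem_inv (hs : Smp s) {f : Rg} (hf : act (sw s) f = f) : dem s f = 0 := by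
  apply cd_dem_unique hs
  rw [hf, sub_self, mul_zero]

theorem inv_of_dem (hs : Smp s) {f : Rg} (hf : dem s f = 0) : act (sw s) f = f := by
  have h := dem_spec s hs f
  rw [hf, mul_zero] at h
  exact (sub_eq_zero.1 h.symm).symm

theorem dem_inv_mul (hs : Smp s) {f : Rg} (hf : act (sw s) f = f) (g : Rg) :
    dem s (f * g) = f * dem s g := by
  rw [dem_mul hs, dem_inv hs hf, hf, zero_mul, zero_add]

theorem act_dem (hs : Smp s) (f : Rg) : act (sw s) (dem s f) = dem s f := by
  symm
  apply cd_dem_unique hs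
  have h := congrArg (act (sw s)) (dem_spec s hs f)
  rw [map_mul, act_sw_al, map_sub, cd_act_sw_sw] at h
  linear_combination -h

theorem dem_al (hs : Smp s) : dem s (al 1 s) = 2 := by
  apply cd_dem_unique hs
  rw [act_sw_al]; ring

theorem dem_homog (hs : Smp s) {f : Rg} {k : ℕ} (hf : f.IsHomogeneous (k + 1)) :
    (dem s f).IsHomogeneous k := by
  have h1 : (al 1 s * dem s f).IsHomogeneous (k + 1) := by
    rw [dem_spec s hs]
    exact hf.sub (act_homog hf)
  have h2 : al 1 s * homogeneousComponent k (dem s f) = al 1 s * dem s f := by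
    rw [← hcomp_mul_succ (al_homog 1 s), homogeneousComponent_of_mem h1, if_pos rfl]
  have h3 := mul_left_cancel₀ (al_ne_zero hs 1) h2
  rw [← h3]
  exact homogeneousComponent_isHomogeneous _ _

theorem dem_homog0 (hs : Smp s) {f : Rg} (hf : f.IsHomogeneous 0) : dem s f = 0 := by
  have h1 : (al 1 s * dem s f).IsHomogeneous 0 := by
    rw [dem_spec s hs]
    exact hf.sub (act_homog hf)
  have h2 : homogeneousComponent 0 (al 1 s * dem s f) = 0 :=
    hcomp_mul_lt (al_homog 1 s) _ 0 (by norm_num)
  rw [homogeneousComponent_of_mem h1, if_pos rfl] at h2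
  exact (mul_eq_zero.1 h2).resolve_left (al_ne_zero hs 1)

/-- `f = u + v α` with invariant `u`, `v = ∂f/2` -/
theorem dem_decomp (hs : Smp s) (f : Rg) :
    ∃ u v : Rg, act (sw s) u = u ∧ act (sw s) v = v ∧ f = u + v * al 1 s ∧
      v = C (1 / 2) * dem s f ∧ (∀ k, f.IsHomogeneous k → u.IsHomogeneous k) := by
  refine ⟨C (1 / 2) * (f + act (sw s) f), C (1 / 2) * dem s f, ?_, ?_, ?_, rfl, ?_⟩
  · rw [map_mul, act_C, map_add, cd_act_sw_sw, add_comm]
  · rw [map_mul, act_C, act_dem hs]
  · have h := dem_spec s hs f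
    linear_combination (-f) * C_half_two - C (1 / 2) * h
  · intro k hk
    have h := (isHomogeneous_C Vx (1 / 2 : ℝ)).mul (hk.add (act_homog (w := sw s) hk))
    simpa using h

theorem constantCoeff_dem_al_mul (hs : Smp s) (f : Rg) :
    constantCoeff (dem s (al 1 s * f)) = 2 * constantCoeff f := by
  rw [dem_mul hs, dem_al hs, act_sw_al]
  have h2 : (constantCoeff (2 : Rg) : ℝ) = 2 := map_ofNat _ 2
  have h3 : constantCoeff (al 1 s) = 0 := by
    rw [constantCoeff_eq]
    by_contra h
    have h4 := al_homog 1 s h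
    simp at h4
  rw [map_add, map_mul, map_mul, h2, map_neg, h3]
  ring

/-- positivity: `∂_s(y⁻¹ρ) > 0` if `y < y s` -/
theorem dem_act_rho (hs : Smp s) (y : Wg) (h : len y < len (y * sw s)) :
    ∃ c : ℝ, 0 < c ∧ dem s (act y⁻¹ rho) = C c := by
  obtain ⟨c, hc, h1⟩ := Dat.rho_pos y s h
  refine ⟨c, hc, cd_dem_unique hs ?_⟩
  rw [al, act_one, mul_comm, ← h1]
  rfl

end CD

end EW
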