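import Mathlib
import Pool.Agent.EW.CDefs2
import Pool.Agent.EW.CE1

/-!
# Part C, block CE2: `(θ_s O) R_+`, functoriality of `θ_s`, the multiplication map (MP_d13a5e_al)
-/

open MvPolynomial

namespace EW

variable [Dat]

/-- `M R^s_+` -/
noncomputable def Obj.MRs (O : Obj) (s : Sg) : Submodule Rg O.M :=
  Submodule.span Rg {m | ∃ f : Rg, ∃ a : O.M, act (sw s) f = f ∧ constantCoeff f = 0 ∧
    m = O.rmul f a}


section CE2

variable {s : Sg} {O P : Obj}

theorem constantCoeff_uPart (s : Sg) (j : Vx) :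
    constantCoeff (uPart s j) = 0 := by
  unfold uPart
  rw [map_mul, map_add, constantCoeff_lin (isHomogeneous_X ℝ j),
    constantCoeff_lin (act_lin (sw s) j), add_zero, mul_zero]

theorem constantCoeff_al (y : Wg) (s : Sg) : constantCoeff (al y s) = 0 :=
  constantCoeff_lin (al_homog y s)

theorem rmul_C (O : Obj) (c : ℝ) (m : O.M) : O.rmul (C c) m = (C c : Rg) • m := by
  ext1; funext i
  simp

theorem rmul_X_el (hs : Smp s) (j : Vx) (a b : O.M) :
    (theta s O).rmul (X j) (el s a b) =
      el s (O.rmul (uPart s j) a + (C (vPart s j) : Rg) • O.rmul (al 1 s * al 1 s) b)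
        (O.rmul (uPart s j) b + (C (vPart s j) : Rg) • a) := by
  rw [X_eq_uv s j, Obj.rmul_add, Obj.rmul_mul, rmul_el_inv hs (act_sw_uPart s j),
    rmul_el_al hs, rmul_C, ← el_smul, ← el_add]

theorem el_zero : el s (0 : O.M) 0 = 0 := by
  have := el_smul (s := s) (0 : Rg) (0 : O.M) 0
  simpa using this

theorem el_mem_MRp (hs : Smp s) (a b : O.M) :
    el s a b ∈ (theta s O).MRp ↔ a ∈ O.MRs s := by
  constructor
  · intro h
    have key : ∀ m ∈ (theta s O).MRp, ∃ a ∈ O.MRs s, ∃ b, m = el s a b := by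
      intro m hm
      refine Submodule.iSup_induction (fun j : Vx => LinearMap.range ((theta s O).rmul (X j)))
        (motive := fun m => ∃ a ∈ O.MRs s, ∃ b, m = el s a b) hm ?_ ?_ ?_
      · rintro j _ ⟨m', rfl⟩
        obtain ⟨a', b', rfl⟩ := el_surj m'
        rw [rmul_X_el hs]
        refine ⟨_, ?_, _, rfl⟩
        refine Submodule.add_mem _ ?_ (Submodule.smul_mem _ _ ?_)
        · exact Submodule.subset_span ⟨_, a', act_sw_uPart s j, constantCoeff_uPart s j, rfl⟩
        · refine Submodule.subset_span ⟨_, b', ?_, ?_, rfl⟩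
          · rw [map_mul, act_sw_al]; ring
          · rw [map_mul, constantCoeff_al, zero_mul]
      · exact ⟨0, Submodule.zero_mem _, 0, el_zero.symm⟩
      · rintro _ _ ⟨a₁, h₁, b₁, rfl⟩ ⟨a₂, h₂, b₂, rfl⟩
        exact ⟨a₁ + a₂, Submodule.add_mem _ h₁ h₂, b₁ + b₂, (el_add _ _ _ _).symm⟩
    obtain ⟨a', ha', b', hb'⟩ := key _ h
    rw [(el_inj hs hb').1]; exact ha'
  · intro h
    have h1 : el s a b = el s a 0 + el s 0 b := by rw [← el_add]; simp
    rw [h1]
    refine Submodule.add_mem _ ?_ ?_
    · refine Submodule.span_induction (p := fun a _ => el s a 0 ∈ (theta s O).MRp)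
        ?_ ?_ ?_ ?_ h
      · rintro _ ⟨f, a', hf, hf0, rfl⟩
        have : el s (O.rmul f a') 0 = (theta s O).rmul f (el s a' 0) := by
          rw [rmul_el_inv hs hf, map_zero]
        rw [this]
        exact mem_MRp_of_rmul hf0 _
      · rw [el_zero]; exact Submodule.zero_mem _
      · intro x y _ _ hx hy
        have : el s (x + y) (0 : O.M) = el s x 0 + el s y 0 := by rw [← el_add, add_zero]
        rw [this]; exact Submodule.add_mem _ hx hy
      · intro f x _ hx
        have : el s (f • x) (0 : O.M) = f • el s x 0 := by rw [← el_smul, smul_zero]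
        rw [this]; exact Submodule.smul_mem _ _ hx
    · have : el s (0 : O.M) b = (theta s O).rmul (al 1 s) (el s b 0) := by
        rw [rmul_el_al hs, map_zero]
      rw [this]
      exact mem_MRp_of_rmul (constantCoeff_al _ _) _

/-- `a ↦ a ⊗ 1` -/
noncomputable def elL (s : Sg) (O : Obj) : O.M →ₗ[Rg] (theta s O).M where
  toFun a := el s a 0
  map_add' a b := by rw [← el_add, add_zero]
  map_smul' f a := by rw [RingHom.id_apply, ← el_smul, smul_zero]

/-- `b ↦ b ⊗ α` -/
noncomputable def elR (s : Sg) (O : Obj) : O.M →ₗ[Rg] (theta s O).M where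
  toFun b := el s 0 b
  map_add' a b := by rw [← el_add, add_zero]
  map_smul' f a := by rw [RingHom.id_apply, ← el_smul, smul_zero]

/-- functoriality of `θ_s` -/
theorem exists_thetaMap (hs : Smp s) (φ : O.M →ₗ[Rg] P.M) (hφ : BiMap φ) :
    ∃ ψ : (theta s O).M →ₗ[Rg] (theta s P).M, (∀ a b, ψ (el s a b) = el s (φ a) (φ b)) ∧
      BiMap ψ ∧ ∀ e, DegMap φ e → DegMap ψ e := by
  obtain ⟨ψ, hψ⟩ := exists_lin_of_el hs (O := O) ((elL s P).comp φ) ((elR s P).comp φ)
  have hψ' : ∀ a b, ψ (el s a b) = el s (φ a) (φ b) := by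
    intro a b
    rw [hψ]
    change el s (φ a) 0 + el s 0 (φ b) = _
    rw [← el_add, add_zero, zero_add]
  refine ⟨ψ, hψ', ?_, ?_⟩
  · intro j m
    obtain ⟨a, b, rfl⟩ := el_surj m
    rw [rmul_X_el hs, hψ', hψ', rmul_X_el hs]
    simp only [map_add, map_smul, hφ.rmul]
  · intro e he i m hm
    obtain ⟨a, b, rfl⟩ := el_surj m
    rw [hψ']
    cases i with
    | zero =>
      rw [el_mem_dg0 hs] at hm
      obtain ⟨ha, rfl⟩ := hm
      rw [map_zero]
      constructor
      · intro j hj
        have h1 := (he 0 a ha).1 j hj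
        cases j with
        | zero => rw [el_mem_dg0 hs]; exact ⟨h1, rfl⟩
        | succ j => rw [el_mem_dg hs]; exact ⟨h1, Submodule.zero_mem _⟩
      · intro hj
        rw [(he 0 a ha).2 hj, el_zero]
    | succ i =>
      rw [el_mem_dg hs] at hm
      obtain ⟨ha, hb⟩ := hm
      constructor
      · intro j hj
        have h1 := (he _ a ha).1 j hj
        cases j with
        | zero =>
          rw [el_mem_dg0 hs]
          refine ⟨h1, (he _ b hb).2 ?_⟩
          push_cast at hj
          omega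
        | succ j =>
          rw [el_mem_dg hs]
          refine ⟨h1, (he _ b hb).1 j ?_⟩
          push_cast at hj
          omega
      · intro hj
        rw [(he _ a ha).2 hj, (he _ b hb).2 (by push_cast at hj; omega), el_zero]

/-- the multiplication `θ_s O → O`, `a ⊗ 1 + b ⊗ α ↦ a + b α` -/
theorem exists_dot (hs : Smp s) :
    ∃ ψ : (theta s O).M →ₗ[Rg] O.M, (∀ a b, ψ (el s a b) = a + O.rmul (al 1 s) b) ∧
      BiMap ψ ∧ DegMap ψ 0 := by
  obtain ⟨ψ, hψ⟩ := exists_lin_of_el hs (O := O) LinearMap.id (O.rmul (al 1 s))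
  refine ⟨ψ, hψ, ?_, ?_⟩
  · intro j m
    obtain ⟨a, b, rfl⟩ := el_surj m
    rw [rmul_X_el hs, hψ, hψ]
    ext1; funext i
    have hX : act (O.π i) (X j) = act (O.π i) (uPart s j) +
        C (vPart s j) * act (O.π i) (al 1 s) := by
      have := congrArg (act (O.π i)) (X_eq_uv s j)
      rw [map_add, map_mul, act_C] at this
      exact this
    simp only [LinearMap.id_coe, id_eq, Submodule.coe_add, SetLike.val_smul, Pi.add_apply,
      Pi.smul_apply, smul_eq_mul, Obj.rmul_val, map_mul, hX]
    ring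
  · intro i m hm
    obtain ⟨a, b, rfl⟩ := el_surj m
    rw [hψ]
    cases i with
    | zero =>
      rw [el_mem_dg0 hs] at hm
      obtain ⟨ha, rfl⟩ := hm
      refine ⟨fun j hj => ?_, fun hj => by omega⟩
      obtain rfl : j = 0 := by omega
      simpa using ha
    | succ i =>
      rw [el_mem_dg hs] at hm
      obtain ⟨ha, hb⟩ := hm
      refine ⟨fun j hj => ?_, fun hj => by omega⟩
      obtain rfl : j = i + 1 := by omega
      refine Submodule.add_mem _ ha ?_
      intro k
      have h1 := (act_homog (w := O.π k) (al_homog 1 s)).mul (hb k)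
      rw [add_comm 1 i] at h1
      exact h1

end CE2

end EW
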