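import Mathlib
import Pool.Agent.EW.CDefs2
import Pool.Agent.EW.CB1

/-!
# Part C, section CS: separators and supports (MP_d13a5e_al)
-/

open MvPolynomial

namespace EW

variable [Dat]

/-- multiplication of the value over `w` by `c w` preserves every object -/
def IsMult (c : Wg → Rg) : Prop :=
  ∀ O : Obj, ∀ m ∈ O.M, (fun i => c (O.π i) * m i) ∈ O.M

theorem IsMult_sub (j : Vx) (c : Rg) : IsMult (fun v : Wg => act v (X j) - c) := by
  intro O m hm
  have h1 := O.M.sub_mem (O.right_mem m hm j) (O.M.smul_mem c hm)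
  have h2 : (fun i => (act (O.π i) (X j) - c : Rg) * m i) =
      (fun i => act (O.π i) (X j) * m i) - (c : Rg) • m := by
    funext i
    simp only [Pi.sub_apply, Pi.smul_apply, smul_eq_mul]
    ring
  rw [h2]
  exact h1

theorem IsMult.mul {c d : Wg → Rg} (hc : IsMult c) (hd : IsMult d) :
    IsMult (fun w => c w * d w) := by
  intro O m hm
  have h1 := hc O _ (hd O m hm)
  simpa only [mul_assoc] using h1

theorem IsMult.add {c d : Wg → Rg} (hc : IsMult c) (hd : IsMult d) :
    IsMult (fun w => c w + d w) := by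
  intro O m hm
  have h1 := O.M.add_mem (hc O m hm) (hd O m hm)
  have h2 : (fun i => (c (O.π i) + d (O.π i)) * m i) =
      (fun i => c (O.π i) * m i) + fun i => d (O.π i) * m i := by
    funext i
    simp only [Pi.add_apply]
    ring
  rw [h2]
  exact h1

theorem IsMult_const (f : Rg) : IsMult (fun _ : Wg => f) := by
  intro O m hm
  exact O.M.smul_mem f hm

/-- the product of the factors `w(x_j) - u(x_j)`, `(j, u)` in the list -/
noncomputable def sepL (L : List (Vx × Wg)) (w : Wg) : Rg :=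
  (L.map fun q => (act w (X q.1) - act q.2 (X q.1) : Rg)).prod

theorem sepL_nil (w : Wg) : sepL [] w = 1 := by simp [sepL]

theorem sepL_cons (q : Vx × Wg) (L : List (Vx × Wg)) (w : Wg) :
    sepL (q :: L) w = (act w (X q.1) - act q.2 (X q.1)) * sepL L w := by simp [sepL]

theorem sepL_isMult (L : List (Vx × Wg)) : IsMult (sepL L) := by
  induction L with
  | nil =>
    have := IsMult_const (1 : Rg)
    convert this using 1
    funext w
    exact sepL_nil w
  | cons q L ih =>
    have h1 : IsMult (fun v : Wg => (act v (X q.1) - act q.2 (X q.1) : Rg)) :=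
      IsMult_sub q.1 _
    have h3 := h1.mul ih
    convert h3 using 1
    funext w
    exact sepL_cons q L w

theorem sepL_homog (L : List (Vx × Wg)) (w : Wg) :
    (sepL L w).IsHomogeneous L.length := by
  induction L with
  | nil => rw [sepL_nil]; exact isHomogeneous_one _ _
  | cons q L ih =>
    rw [sepL_cons, List.length_cons, add_comm]
    exact ((act_lin _ _).sub (act_lin _ _)).mul ih

theorem exists_sepL (S : Finset Wg) (y : Wg) (Q : Rg → Prop) (h1 : Q 1)
    (hmul : ∀ f g, Q f → Q g → Q (f * g))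
    (h : ∀ w ∈ S, ∃ j, Q (act y (X j) - act w (X j))) :
    ∃ L : List (Vx × Wg), Q (sepL L y) ∧ ∀ w ∈ S, sepL L w = 0 := by
  classical
  induction S using Finset.induction_on with
  | empty => exact ⟨[], by rw [sepL_nil]; exact h1, fun w hw => absurd hw (Finset.notMem_empty w)⟩
  | insert a S ha ih =>
    obtain ⟨L, hL1, hL2⟩ := ih (fun w hw => h w (Finset.mem_insert_of_mem hw))
    obtain ⟨j, hj⟩ := h a (Finset.mem_insert_self a S)
    refine ⟨(j, a) :: L, ?_, ?_⟩
    · rw [sepL_cons]; exact hmul _ _ hj hL1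
    · intro w hw
      rw [sepL_cons]
      rcases Finset.mem_insert.mp hw with rfl | hw
      · rw [sub_self, zero_mul]
      · rw [hL2 w hw, mul_zero]

theorem exists_sepL_ne (P : Finset Wg) (y : Wg) :
    ∃ L : List (Vx × Wg), sepL L y ≠ 0 ∧ ∀ w ∈ P, w ≠ y → sepL L w = 0 := by
  classical
  obtain ⟨L, h1, h2⟩ := exists_sepL (P.erase y) y (fun f => f ≠ 0) one_ne_zero
    (fun f g hf hg => mul_ne_zero hf hg) (by
      intro w hw
      have hne : w ≠ y := Finset.ne_of_mem_erase hw
      by_contra hcon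
      push Not at hcon
      apply hne
      apply Dat.faithful
      intro j
      exact (sub_eq_zero.mp (hcon j)).symm)
  exact ⟨L, h1, fun w hP hw => h2 w (Finset.mem_erase.mpr ⟨hw, hP⟩)⟩

/-- separates `y` from the other elements of a finite set -/
theorem exists_sep (P : Finset Wg) (y : Wg) : ∃ (c : Wg → Rg) (N : ℕ), IsMult c ∧ c y ≠ 0 ∧
    (∀ w ∈ P, w ≠ y → c w = 0) ∧ (∀ w, (c w).IsHomogeneous N) := by
  obtain ⟨L, h1, h2⟩ := exists_sepL_ne P y
  exact ⟨sepL L, L.length, sepL_isMult L, h1, h2, sepL_homog L⟩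

/-- a prime divisor of a nonzero linear form is associated to it -/
theorem lin_dvd_of_prime {p f : Rg} (hp : Prime p) (hf : f.IsHomogeneous 1) (hf0 : f ≠ 0)
    (h : p ∣ f) : f ∣ p := by
  obtain ⟨q, hq⟩ := h
  have hq0 : q ≠ 0 := by
    rintro rfl
    exact hf0 (by rw [hq, mul_zero])
  have hdeg : f.totalDegree = p.totalDegree + q.totalDegree := by
    rw [hq]
    exact totalDegree_mul_of_isDomain hp.ne_zero hq0
  have hle : f.totalDegree ≤ 1 := hf.totalDegree_le
  have hpd : p.totalDegree ≠ 0 := by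
    intro h0
    rw [totalDegree_eq_zero_iff_eq_C] at h0
    apply hp.not_isUnit
    rw [h0]
    have hc : p.coeff 0 ≠ 0 := by
      intro h3
      apply hp.ne_zero
      rw [h0, h3, C_0]
    exact (isUnit_iff_ne_zero.mpr hc).map (C : ℝ →+* Rg)
  have hqd : q.totalDegree = 0 := by omega
  rw [totalDegree_eq_zero_iff_eq_C] at hqd
  have hc : q.coeff 0 ≠ 0 := by
    intro h3
    apply hq0
    rw [hqd, h3, C_0]
  have hu : IsUnit q := by
    rw [hqd]
    exact (isUnit_iff_ne_zero.mpr hc).map (C : ℝ →+* Rg)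
  rw [hq]
  exact (hu.mul_right_dvd).mpr dvd_rfl

theorem rt_dvd_sub {t : Wg} (ht : Dat.Rf t) (f : Rg) : Dat.rt t ∣ f - act t f := by
  induction f using MvPolynomial.induction_on with
  | C a => simp
  | add p q hp hq =>
      have : p + q - act t (p + q) = (p - act t p) + (q - act t q) := by
        rw [map_add]; ring
      rw [this]
      exact dvd_add hp hq
  | mul_X p j hp =>
      have h1 : p * X j - act t (p * X j) =
          (p - act t p) * X j + act t p * (X j - act t (X j)) := by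
        rw [map_mul]; ring
      rw [h1]
      refine dvd_add (Dvd.dvd.mul_right hp _) (Dvd.dvd.mul_left ?_ _)
      obtain ⟨c, hc⟩ := rt_act t ht j
      rw [hc]
      exact ⟨C c, by ring⟩

theorem lin_not_unit {f : Rg} (hf : f.IsHomogeneous 1) : ¬ IsUnit f := by
  intro hu
  have h1 := hu.map (constantCoeff : Rg →+* ℝ)
  have h2 : constantCoeff f = 0 := by
    rw [constantCoeff_eq]
    by_contra h
    have h3 := hf h
    simp at h3
  rw [h2] at h1
  exact not_isUnit_zero h1

theorem rt_not_unit {t : Wg} (ht : Dat.Rf t) : ¬ IsUnit (Dat.rt t : Rg) :=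
  lin_not_unit (Dat.rt_lin t ht)

/-- if a prime divides all `y(x_j) - w(x_j)`, then `w = t y` and the prime divides the root -/
theorem prime_dvd_diff {p : Rg} (hp : Prime p) {y w : Wg} (hwy : w ≠ y)
    (h : ∀ j, p ∣ act y (X j) - act w (X j)) :
    ∃ t, Dat.Rf t ∧ w = t * y ∧ p ∣ Dat.rt t := by
  by_cases hex : ∃ t, Dat.Rf t ∧ w = t * y
  · obtain ⟨t, ht, rfl⟩ := hex
    refine ⟨t, ht, rfl, ?_⟩
    obtain ⟨j, hj⟩ : ∃ j, act y (X j) ≠ act (t * y) (X j) := by
      by_contra hcon
      push Not at hcon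
      exact hwy (Dat.faithful _ _ (fun j => (hcon j).symm))
    have hlin : (act y (X j) - act (t * y) (X j)).IsHomogeneous 1 :=
      (act_lin _ _).sub (act_lin _ _)
    have hg : act y (X j) - act (t * y) (X j) ≠ 0 := sub_ne_zero.2 hj
    have h1 : Dat.rt t ∣ act y (X j) - act (t * y) (X j) := by
      rw [act_mul]
      exact rt_dvd_sub ht _
    have h2 := h1.trans (lin_dvd_of_prime hp hlin hg (h j))
    obtain ⟨q, hq⟩ := h2
    rcases hp.irreducible.isUnit_or_isUnit hq with hu | hu
    · exact absurd hu (rt_not_unit ht)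
    · obtain ⟨u, rfl⟩ := hu
      refine ⟨((u⁻¹ : Rgˣ) : Rg), ?_⟩
      rw [hq, mul_assoc, Units.mul_inv, mul_one]
  · push Not at hex
    exfalso
    obtain ⟨j, k, hj, hjk⟩ := Dat.refl_faithful y w hwy.symm (fun t ht => hex t ht)
    apply hjk
    have hlin : (act y (X j) - act w (X j)).IsHomogeneous 1 := (act_lin _ _).sub (act_lin _ _)
    exact (lin_dvd_of_prime hp hlin hj (h j)).trans (h k)

/-- prime separator: avoids the prime `p` at `y`, kills every `w ≠ y` in the finite set `P`
except possibly `t y` with `p ∣ α_t` -/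
theorem exists_sep_prime (P : Finset Wg) (y : Wg) (p : Rg) (hp : Prime p) :
    ∃ (c : Wg → Rg) (N : ℕ), IsMult c ∧ ¬ p ∣ c y ∧ (∀ w, (c w).IsHomogeneous N) ∧
      ∀ w ∈ P, w ≠ y →
        (∀ t, Dat.Rf t → w = t * y → ¬ p ∣ Dat.rt t) →
        c w = 0 := by
  classical
  set S : Finset Wg := P.filter fun w => w ≠ y ∧
    ∀ t, Dat.Rf t → w = t * y → ¬ p ∣ Dat.rt t with hS
  obtain ⟨L, h1, h2⟩ := exists_sepL S y (fun f => ¬ p ∣ f)
    (fun h => hp.not_isUnit (isUnit_of_dvd_one h))
    (fun f g hf hg h => (hp.dvd_or_dvd h).elim hf hg) (by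
      intro w hw
      rw [hS, Finset.mem_filter] at hw
      obtain ⟨-, hwy, hex⟩ := hw
      by_contra hcon
      push Not at hcon
      obtain ⟨t, ht, hwt, hpt⟩ := prime_dvd_diff hp hwy hcon
      exact hex t ht hwt hpt)
  refine ⟨sepL L, L.length, sepL_isMult L, h1, sepL_homog L, ?_⟩
  intro w hw hwy hex
  exact h2 w (by rw [hS, Finset.mem_filter]; exact ⟨hw, hwy, hex⟩)

/-- the operator product `∏ (· x_j - u(x_j) ·)` -/
noncomputable def opsL (O : Obj) : List (Vx × Wg) → O.M → O.M
  | [], m => m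
  | q :: L, m => O.rmul (X q.1) (opsL O L m) - (act q.2 (X q.1) : Rg) • opsL O L m

theorem opsL_val (O : Obj) (L : List (Vx × Wg)) (m : O.M) (i : O.I) :
    (opsL O L m).1 i = sepL L (O.π i) * m.1 i := by
  induction L with
  | nil => rw [sepL_nil, one_mul]; rfl
  | cons q L ih =>
    have h1 : (opsL O (q :: L) m).1 i =
        act (O.π i) (X q.1) * (opsL O L m).1 i - act q.2 (X q.1) * (opsL O L m).1 i := by
      change (O.rmul (X q.1) (opsL O L m) - (act q.2 (X q.1) : Rg) • opsL O L m).1 i = _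
      rw [Submodule.coe_sub, Pi.sub_apply, Obj.rmul_val]
      rfl
    rw [h1, ih, sepL_cons]
    ring

theorem BiMap.opsL {O P : Obj} {φ : O.M →ₗ[Rg] P.M} (hφ : BiMap φ)
    (L : List (Vx × Wg)) (m : O.M) : φ (opsL O L m) = opsL P L (φ m) := by
  induction L with
  | nil => rfl
  | cons q L ih =>
    change φ (O.rmul (X q.1) (EW.opsL O L m) - (act q.2 (X q.1) : Rg) • EW.opsL O L m) =
      P.rmul (X q.1) (EW.opsL P L (φ m)) - (act q.2 (X q.1) : Rg) • EW.opsL P L (φ m)
    rw [map_sub, map_smul, hφ, ih]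

/-- morphisms respect components -/
theorem BiMap.vanish {O P : Obj} {φ : O.M →ₗ[Rg] P.M} (hφ : BiMap φ) {y : Wg} {m : O.M}
    (hm : ∀ i, O.π i = y → m.1 i = 0) : ∀ i, P.π i = y → (φ m).1 i = 0 := by
  classical
  obtain ⟨L, h1, h2⟩ := exists_sepL_ne (Finset.univ.image O.π) y
  have h3 : EW.opsL O L m = 0 := by
    ext1
    funext i
    rw [opsL_val]
    by_cases hi : O.π i = y
    · rw [hm i hi, mul_zero]; rfl
    · rw [h2 _ (Finset.mem_image_of_mem _ (Finset.mem_univ i)) hi, zero_mul]; rfl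
  have h4 := hφ.opsL L m
  rw [h3, map_zero] at h4
  intro i hi
  have h5 := opsL_val P L (φ m) i
  rw [← h4, hi] at h5
  have h6 : sepL L y * (φ m).1 i = 0 := h5.symm
  exact (mul_eq_zero.mp h6).resolve_left h1

end EW
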