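import Pool.Agent.EW.GF1

/-!
# GF.summand: graded direct summands of graded free submodules are graded free (MP_d13a5e_al)
-/

open MvPolynomial

namespace EW

variable [Dat]

namespace GF2

variable {I : Type}

/-- the homogeneous component of a combination of homogeneous vectors -/
theorem hcomp_sum {k : ℕ} (b : Fin k → (I → Rg)) (e : Fin k → ℕ) (hb : ∀ i, Hg (e i) (b i))
    (f : Fin k → Rg) (d : ℕ) :
    (fun i => homogeneousComponent d ((∑ j, f j • b j) i)) =
      ∑ j, (if e j ≤ d then homogeneousComponent (d - e j) (f j) else 0) • b j := by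
  funext i
  simp only [Finset.sum_apply, Pi.smul_apply, smul_eq_mul, map_sum]
  apply Finset.sum_congr rfl
  intro j _
  by_cases h : e j ≤ d
  · rw [if_pos h]
    obtain ⟨d', rfl⟩ := Nat.exists_eq_add_of_le h
    rw [Nat.add_sub_cancel_left, mul_comm (f j), add_comm (e j) d', hcomp_mul_succ (hb j i),
      mul_comm]
  · rw [if_neg h, mul_comm (f j), hcomp_mul_lt (hb j i) _ _ (by omega), zero_mul]

/-- coefficients of a homogeneous vector -/
theorem coef_homog {k : ℕ} {b : Fin k → (I → Rg)} {e : Fin k → ℕ} (hb : ∀ i, Hg (e i) (b i))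
    (hli : LinearIndependent Rg b) {f : Fin k → Rg} {d : ℕ} (hd : Hg d (∑ j, f j • b j))
    (j : Fin k) : (d < e j → f j = 0) ∧ (e j ≤ d → (f j).IsHomogeneous (d - e j)) := by
  have h1 := hcomp_sum b e hb f d
  have h2 : (fun i => homogeneousComponent d ((∑ j, f j • b j) i)) = ∑ j, f j • b j := by
    funext i
    exact homogeneousComponent_of_mem (hd i) |>.trans (if_pos rfl)
  rw [h2] at h1
  have h3 := Fintype.linearIndependent_iff.mp hli (fun j => f j -
    (if e j ≤ d then homogeneousComponent (d - e j) (f j) else 0)) (by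
      simp only [sub_smul, Finset.sum_sub_distrib]
      rw [← h1, sub_self]) j
  rw [sub_eq_zero] at h3
  constructor
  · intro h
    rw [h3, if_neg (by omega)]
  · intro h
    rw [h3, if_pos h]
    exact homogeneousComponent_isHomogeneous _ _

/-- A homogeneous family whose matrix of constant parts is invertible is a basis. -/
theorem basis_change {k : ℕ} {b : Fin k → (I → Rg)} {e : Fin k → ℕ}
    (hb : ∀ i, Hg (e i) (b i)) (hli : LinearIndependent Rg b) {c : Fin k → (I → Rg)}
    {e' : Fin k → ℕ} (hc : ∀ i, Hg (e' i) (c i)) {M : Matrix (Fin k) (Fin k) Rg}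
    (hM : ∀ i, c i = ∑ j, M i j • b j) (h0 : IsUnit (M.map constantCoeff).det) :
    LinearIndependent Rg c ∧
      Submodule.span Rg (Set.range c) = Submodule.span Rg (Set.range b) := by
  have hent : ∀ i j, (e' i < e j → M i j = 0) ∧ (e j ≤ e' i → (M i j).IsHomogeneous (e' i - e j)) := by
    intro i j
    apply coef_homog hb hli (f := M i)
    rw [← hM]; exact hc i
  have hdet : M.det.IsHomogeneous (∑ i, e' i - ∑ i, e i) := by
    rw [Matrix.det_apply]
    apply IsHomogeneous.sum
    intro σ _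
    have hp : (∏ i, M (σ i) i).IsHomogeneous (∑ i, e' i - ∑ i, e i) := by
      by_cases h : ∃ i, e' (σ i) < e i
      · obtain ⟨i, hi⟩ := h
        have hz : ∏ i, M (σ i) i = 0 :=
          Finset.prod_eq_zero (f := fun i => M (σ i) i) (Finset.mem_univ i)
            ((hent (σ i) i).1 hi)
        rw [hz]
        exact isHomogeneous_zero _ _ _
      · push Not at h
        have h1 := IsHomogeneous.prod Finset.univ (fun i => M (σ i) i) (fun i => e' (σ i) - e i)
          (fun i _ => (hent (σ i) i).2 (h i))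
        have h2 : ∑ i, (e' (σ i) - e i) = ∑ i, e' i - ∑ i, e i := by
          have h3 : ∑ i, (e' (σ i) - e i) + ∑ i, e i = ∑ i, e' (σ i) := by
            rw [← Finset.sum_add_distrib]
            apply Finset.sum_congr rfl
            intro i _
            have := h i
            omega
          rw [Equiv.sum_comp σ e'] at h3
          omega
        rwa [h2] at h1
    rcases Int.units_eq_one_or (Equiv.Perm.sign σ) with hs | hs
    · rw [hs, one_smul]; exact hp
    · rw [hs, Units.neg_smul, one_smul]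
      exact hp.neg
  have hcc : constantCoeff M.det ≠ 0 := by
    have : constantCoeff M.det = (M.map constantCoeff).det := by
      rw [RingHom.map_det]; rfl
    rw [this]
    exact h0.ne_zero
  have hunit : IsUnit M.det := by
    have h1 : ∑ i, e' i - ∑ i, e i = 0 := by
      by_contra hne
      apply hcc
      rw [constantCoeff_eq]
      by_contra h2
      have := hdet h2
      simp at this
      omega
    rw [h1] at hdet
    have h2 : M.det = C (constantCoeff M.det) := by
      have h3 := (totalDegree_zero_iff_isHomogeneous _).mpr hdet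
      rw [totalDegree_eq_zero_iff_eq_C] at h3
      rw [h3]; simp
    rw [h2]
    exact (IsUnit.mk0 _ hcc).map C
  have hinv : M⁻¹ * M = 1 := Matrix.nonsing_inv_mul M hunit
  have hinv' : M * M⁻¹ = 1 := Matrix.mul_nonsing_inv M hunit
  have hb' : ∀ i, b i = ∑ j, M⁻¹ i j • c j := by
    intro i
    have : ∑ j, M⁻¹ i j • c j = ∑ l, (M⁻¹ * M) i l • b l := by
      simp only [hM, Finset.smul_sum, smul_smul, Matrix.mul_apply, Finset.sum_smul]
      rw [Finset.sum_comm]
    rw [this, hinv]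
    simp [Matrix.one_apply, Finset.sum_ite_eq]
  constructor
  · rw [Fintype.linearIndependent_iff]
    intro g hg
    have h1 : ∑ j, (∑ i, g i * M i j) • b j = 0 := by
      rw [← hg]
      simp only [hM, Finset.smul_sum, smul_smul, Finset.sum_smul]
      rw [Finset.sum_comm]
    have h2 := Fintype.linearIndependent_iff.mp hli _ h1
    have h3 : Matrix.vecMul g M = 0 := by
      funext j
      exact h2 j
    have h4 : Matrix.vecMul (Matrix.vecMul g M) M⁻¹ = g := by
      rw [Matrix.vecMul_vecMul, hinv', Matrix.vecMul_one]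
    rw [h3, Matrix.zero_vecMul] at h4
    intro i
    rw [← h4]; rfl
  · apply le_antisymm
    · rw [Submodule.span_le]
      rintro _ ⟨i, rfl⟩
      rw [hM]
      exact Submodule.sum_mem _ fun j _ =>
        Submodule.smul_mem _ _ (Submodule.subset_span ⟨j, rfl⟩)
    · rw [Submodule.span_le]
      rintro _ ⟨i, rfl⟩
      rw [hb']
      exact Submodule.sum_mem _ fun j _ =>
        Submodule.smul_mem _ _ (Submodule.subset_span ⟨j, rfl⟩)

end GF2

section GF

variable {I : Type} [Fintype I]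

open GF2 in
/-- graded direct summands of graded free modules are graded free -/
theorem GF.summand {N N₁ N₂ : Submodule Rg (I → Rg)} {p : Polynomial ℕ} (h : GF N p)
    (hN : N₁ ⊔ N₂ = N) (hd : Disjoint N₁ N₂) (h1 : Grd N₁) (h2 : Grd N₂) :
    ∃ p₁ p₂ : Polynomial ℕ, GF N₁ p₁ ∧ GF N₂ p₂ ∧ p = p₁ + p₂ := by
  classical
  have hGF := h
  obtain ⟨k, b, e, hb, hli, hsp, hpe⟩ := h
  have hbN : ∀ i, b i ∈ N := fun i => hsp ▸ Submodule.subset_span ⟨i, rfl⟩
  -- homogeneous decomposition of the basis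
  have hdec : ∀ i, ∃ c₁ c₂ : I → Rg, c₁ ∈ N₁ ∧ c₂ ∈ N₂ ∧ Hg (e i) c₁ ∧ Hg (e i) c₂ ∧
      b i = c₁ + c₂ := by
    intro i
    obtain ⟨y, hy, z, hz, hyz⟩ := Submodule.mem_sup.mp (hN ▸ hbN i : b i ∈ N₁ ⊔ N₂)
    refine ⟨_, _, h1 y hy (e i), h2 z hz (e i), fun l => homogeneousComponent_isHomogeneous _ _,
      fun l => homogeneousComponent_isHomogeneous _ _, ?_⟩
    funext l
    have h3 : b i l = y l + z l := by rw [← hyz]; rfl
    have h4 : homogeneousComponent (e i) (b i l) = b i l :=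
      (homogeneousComponent_of_mem (hb i l)).trans (if_pos rfl)
    rw [Pi.add_apply, ← map_add, ← h3, h4]
  choose c₁ c₂ hc₁ hc₂ hg₁ hg₂ hbc using hdec
  have hzero : ∀ m, m ∈ N₁ → m ∈ N₂ → m = 0 := fun m hm hm' =>
    Submodule.disjoint_def.mp hd m hm hm'
  have hle₁ : N₁ ≤ N := hN ▸ le_sup_left
  have hle₂ : N₂ ≤ N := hN ▸ le_sup_right
  have hcoord : ∀ m ∈ N, ∃ f : Fin k → Rg, m = ∑ j, f j • b j := by
    intro m hm
    rw [← hsp, Submodule.mem_span_range_iff_exists_fun] at hm
    obtain ⟨f, hf⟩ := hm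
    exact ⟨f, hf.symm⟩
  choose A hA using fun i => hcoord (c₁ i) (hle₁ (hc₁ i))
  -- idempotence
  have hmem₁ : ∀ f : Fin k → Rg, (∑ j, f j • b j) ∈ N₁ → ∑ j, f j • b j = ∑ j, f j • c₁ j := by
    intro f hf
    have e1 : ∑ j, f j • b j = ∑ j, f j • c₁ j + ∑ j, f j • c₂ j := by
      rw [← Finset.sum_add_distrib]
      apply Finset.sum_congr rfl
      intro j _
      rw [hbc j, smul_add]
    have e2 : ∑ j, f j • c₂ j = 0 := by
      apply hzero
      · have : ∑ j, f j • c₂ j = ∑ j, f j • b j - ∑ j, f j • c₁ j := by rw [e1]; abel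
        rw [this]
        exact N₁.sub_mem hf (N₁.sum_mem fun j _ => N₁.smul_mem _ (hc₁ j))
      · exact N₂.sum_mem fun j _ => N₂.smul_mem _ (hc₂ j)
    rw [e1, e2, add_zero]
  have hAA : ∀ i l, A i l = ∑ j, A i j * A j l := by
    intro i l
    have e1 : ∑ j, A i j • b j = ∑ l, (∑ j, A i j * A j l) • b l := by
      rw [hmem₁ (A i) (hA i ▸ hc₁ i)]
      simp only [hA, Finset.smul_sum, smul_smul, Finset.sum_smul]
      rw [Finset.sum_comm]
    have e2 := Fintype.linearIndependent_iff.mp hli (fun l => A i l - ∑ j, A i j * A j l) (by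
      simp only [sub_smul, Finset.sum_sub_distrib]
      rw [← e1, sub_self]) l
    exact sub_eq_zero.mp e2
  -- the constant parts
  let v₁ : Fin k → (Fin k → ℝ) := fun i j => constantCoeff (A i j)
  let v₂ : Fin k → (Fin k → ℝ) := fun i j => (if i = j then 1 else 0) - constantCoeff (A i j)
  have hv : ∀ i, v₁ i + v₂ i = Pi.single i 1 := by
    intro i
    funext j
    simp only [v₁, v₂, Pi.add_apply]
    by_cases h : i = j
    · subst h; simp
    · rw [if_neg h, Pi.single_eq_of_ne (Ne.symm h)]; ring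
  have hv₁ : ∀ i l, v₁ i l = ∑ j, v₁ i j * v₁ j l := by
    intro i l
    simp only [v₁]
    conv_lhs => rw [hAA i l]
    rw [map_sum]
    simp only [map_mul]
  let Φ : (Fin k → ℝ) →ₗ[ℝ] (Fin k → ℝ) := Fintype.linearCombination ℝ v₁
  have hΦ₁ : ∀ i, Φ (v₁ i) = v₁ i := by
    intro i
    funext l
    rw [hv₁ i l]
    simp [Φ, Fintype.linearCombination_apply]
  have hΦs : ∀ i, Φ (Pi.single i 1) = v₁ i := by
    intro i
    simp [Φ, Fintype.linearCombination_apply_single]
  have hΦ₂ : ∀ i, Φ (v₂ i) = 0 := by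
    intro i
    have : v₂ i = Pi.single i 1 - v₁ i := by rw [← hv i]; abel
    rw [this, map_sub, hΦs, hΦ₁, sub_self]
  obtain ⟨κ₁, a₁, ha₁, hs₁, hl₁⟩ := exists_linearIndependent' ℝ v₁
  obtain ⟨κ₂, a₂, ha₂, hs₂, hl₂⟩ := exists_linearIndependent' ℝ v₂
  have hf₁ : Finite κ₁ := Finite.of_injective a₁ ha₁
  have hf₂ : Finite κ₂ := Finite.of_injective a₂ ha₂
  have := Fintype.ofFinite κ₁
  have := Fintype.ofFinite κ₂
  have hdis : Disjoint (Submodule.span ℝ (Set.range (v₁ ∘ a₁)))
      (Submodule.span ℝ (Set.range (v₂ ∘ a₂))) := by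
    rw [hs₁, hs₂, Submodule.disjoint_def]
    intro x hx hx'
    have e1 : Φ x = x := by
      refine Submodule.span_induction ?_ ?_ ?_ ?_ hx
      · rintro _ ⟨i, rfl⟩; exact hΦ₁ i
      · rw [map_zero]
      · intro u v _ _ hu hv'; rw [map_add, hu, hv']
      · intro c u _ hu; rw [map_smul, hu]
    have e2 : Φ x = 0 := by
      refine Submodule.span_induction ?_ ?_ ?_ ?_ hx'
      · rintro _ ⟨i, rfl⟩; exact hΦ₂ i
      · rw [map_zero]
      · intro u v _ _ hu hv'; rw [map_add, hu, hv', add_zero]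
      · intro c u _ hu; rw [map_smul, hu, smul_zero]
    rw [← e1, e2]
  have hw : LinearIndependent ℝ (Sum.elim (v₁ ∘ a₁) (v₂ ∘ a₂)) := hl₁.sum_type hl₂ hdis
  have hwtop : ⊤ ≤ Submodule.span ℝ (Set.range (Sum.elim (v₁ ∘ a₁) (v₂ ∘ a₂))) := by
    rw [Set.Sum.elim_range, Submodule.span_union, hs₁, hs₂]
    intro x _
    have : x = ∑ i, x i • (v₁ i + v₂ i) := by
      simp only [hv]
      funext l
      simp [Finset.sum_apply, Pi.single_apply]
    rw [this]
    apply Submodule.sum_mem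
    intro i _
    apply Submodule.smul_mem
    exact Submodule.add_mem_sup (Submodule.subset_span ⟨i, rfl⟩) (Submodule.subset_span ⟨i, rfl⟩)
  have hcard : Fintype.card (κ₁ ⊕ κ₂) = k := by
    have := Module.finrank_eq_card_basis (Module.Basis.mk hw hwtop)
    rw [← this]; simp
  let ε : Fin k ≃ κ₁ ⊕ κ₂ := (Fintype.equivFinOfCardEq hcard).symm
  let c : Fin k → (I → Rg) := Sum.elim (c₁ ∘ a₁) (c₂ ∘ a₂) ∘ ε
  let e' : Fin k → ℕ := Sum.elim (e ∘ a₁) (e ∘ a₂) ∘ ε
  let A' : Fin k → Fin k → Rg := fun i j => (if i = j then 1 else 0) - A i j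
  let M : Matrix (Fin k) (Fin k) Rg := Sum.elim (A ∘ a₁) (A' ∘ a₂) ∘ ε
  have hc : ∀ i, Hg (e' i) (c i) := by
    intro i
    simp only [c, e', Function.comp_apply]
    rcases ε i with x | x
    · exact hg₁ (a₁ x)
    · exact hg₂ (a₂ x)
  have hA' : ∀ i, c₂ i = ∑ j, A' i j • b j := by
    intro i
    simp only [A', sub_smul, Finset.sum_sub_distrib, ite_smul, one_smul, zero_smul,
      Finset.sum_ite_eq, Finset.mem_univ, if_true]
    rw [← hA i]
    nth_rewrite 1 [hbc i]
    abel
  have hM : ∀ i, c i = ∑ j, M i j • b j := by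
    intro i
    simp only [c, M, Function.comp_apply]
    rcases ε i with x | x
    · exact hA (a₁ x)
    · exact hA' (a₂ x)
  have hunit : IsUnit (M.map constantCoeff).det := by
    rw [← Matrix.isUnit_iff_isUnit_det, ← Matrix.linearIndependent_rows_iff_isUnit]
    have : (M.map constantCoeff).row = Sum.elim (v₁ ∘ a₁) (v₂ ∘ a₂) ∘ ε := by
      funext i j
      change constantCoeff (Sum.elim (A ∘ a₁) (A' ∘ a₂) (ε i) j) =
        Sum.elim (v₁ ∘ a₁) (v₂ ∘ a₂) (ε i) j
      rcases ε i with x | x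
      · rfl
      · simp only [Sum.elim_inr, Function.comp_apply, A', v₂, map_sub]
        split_ifs <;> simp
    rw [this]
    exact hw.comp _ ε.injective
  obtain ⟨hcli, hcsp⟩ := basis_change hb hli hc hM hunit
  have hcli' : LinearIndependent Rg (Sum.elim (c₁ ∘ a₁) (c₂ ∘ a₂)) := by
    have := hcli.comp _ ε.symm.injective
    have e1 : c ∘ ε.symm = Sum.elim (c₁ ∘ a₁) (c₂ ∘ a₂) := by
      funext x
      simp [c]
    rwa [e1] at this
  have hcsp' : Submodule.span Rg (Set.range (c₁ ∘ a₁)) ⊔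
      Submodule.span Rg (Set.range (c₂ ∘ a₂)) = N := by
    rw [← Submodule.span_union, ← Set.Sum.elim_range, ← hsp, ← hcsp]
    congr 1
    exact (ε.surjective.range_comp _).symm
  have hS₁ : Submodule.span Rg (Set.range (c₁ ∘ a₁)) ≤ N₁ := by
    rw [Submodule.span_le]; rintro _ ⟨x, rfl⟩; exact hc₁ _
  have hS₂ : Submodule.span Rg (Set.range (c₂ ∘ a₂)) ≤ N₂ := by
    rw [Submodule.span_le]; rintro _ ⟨x, rfl⟩; exact hc₂ _
  have hE₁ : Submodule.span Rg (Set.range (c₁ ∘ a₁)) = N₁ := by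
    apply le_antisymm hS₁
    intro m hm
    obtain ⟨y, hy, z, hz, hyz⟩ := Submodule.mem_sup.mp (hcsp'.symm ▸ hle₁ hm)
    have : z = 0 := hzero z (by
      have : z = m - y := by rw [← hyz]; abel
      rw [this]; exact N₁.sub_mem hm (hS₁ hy)) (hS₂ hz)
    rw [this, add_zero] at hyz
    rwa [← hyz]
  have hE₂ : Submodule.span Rg (Set.range (c₂ ∘ a₂)) = N₂ := by
    apply le_antisymm hS₂
    intro m hm
    obtain ⟨y, hy, z, hz, hyz⟩ := Submodule.mem_sup.mp (hcsp'.symm ▸ hle₂ hm)
    have : y = 0 := hzero y (hS₁ hy) (by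
      have : y = m - z := by rw [← hyz]; abel
      rw [this]; exact N₂.sub_mem hm (hS₂ hz))
    rw [this, zero_add] at hyz
    rwa [← hyz]
  have hGF₁ : GF N₁ (∑ x : κ₁, Polynomial.X ^ (e (a₁ x))) := by
    let η := (Fintype.equivFin κ₁).symm
    refine ⟨_, (c₁ ∘ a₁) ∘ η, (e ∘ a₁) ∘ η, fun i => hg₁ _,
      (hcli'.comp _ Sum.inl_injective).comp _ η.injective, ?_, ?_⟩
    · rw [η.surjective.range_comp]; exact hE₁
    · exact (Equiv.sum_comp η (fun x => (Polynomial.X : Polynomial ℕ) ^ (e (a₁ x)))).symm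
  have hGF₂ : GF N₂ (∑ x : κ₂, Polynomial.X ^ (e (a₂ x))) := by
    let η := (Fintype.equivFin κ₂).symm
    refine ⟨_, (c₂ ∘ a₂) ∘ η, (e ∘ a₂) ∘ η, fun i => hg₂ _,
      (hcli'.comp _ Sum.inr_injective).comp _ η.injective, ?_, ?_⟩
    · rw [η.surjective.range_comp]; exact hE₂
    · exact (Equiv.sum_comp η (fun x => (Polynomial.X : Polynomial ℕ) ^ (e (a₂ x)))).symm
  refine ⟨_, _, hGF₁, hGF₂, ?_⟩
  apply GF.unique hGF
  refine ⟨k, c, e', hc, hcli, hcsp.trans hsp, ?_⟩
  have e1 := Fintype.sum_sum_type (fun x => (Polynomial.X : Polynomial ℕ) ^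
    (Sum.elim (e ∘ a₁) (e ∘ a₂) x))
  have e2 := Equiv.sum_comp ε (fun x => (Polynomial.X : Polynomial ℕ) ^
    (Sum.elim (e ∘ a₁) (e ∘ a₂) x))
  exact (e2.trans e1).symm

end GF

end EW
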