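import Mathlib
import Pool.Agent.EW.CDefs2
import Pool.Agent.EW.CB1
import Pool.Agent.EW.CD
import Pool.Agent.EW.CE1
import Pool.Agent.EW.CS

/-!
# Part C, block NI1: the condition (star) for `θ_s O` (MP_d13a5e_al)
-/

open MvPolynomial

namespace EW

variable [Dat]

theorem NI1.star_theta_aux_mul {α p c : Rg} (hα : Prime α) (hp : ¬ α ∣ p) (hc : ¬ α ∣ c) :
    ¬ α ∣ p * c := fun h => (hα.dvd_or_dvd h).elim hp hc

theorem rt_dvd_al {t : Wg} (_ht : Dat.Rf t) {x : Wg} {s : Sg} (h : t * x = x * sw s) :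
    ∃ c : ℝ, c ≠ 0 ∧ al x s = C c * Dat.rt t := by
  obtain ⟨c, hc, h1⟩ := al_eq_rt x s
  refine ⟨c, hc, ?_⟩
  rw [h1, ← h, mul_assoc, mul_inv_cancel, mul_one]

theorem star_theta {O : Obj} (h : Nice O) {s : Sg} (hs : Smp s) :
    ∀ t : Wg, Dat.Rf t → ∀ x : Wg, len x < len (t * x) →
    ∀ u ∈ (theta s O).M, (∀ i, (theta s O).π i = x → u i = 0) →
      ∃ p : Rg, ¬ (Dat.rt t ∣ p) ∧ ∃ v ∈ (theta s O).M,
        ∀ i, (theta s O).π i = t * x → p * u i = Dat.rt t * v i := by
  classical
  intro t ht x hx u hu hux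
  have hα : Prime (Dat.rt t : Rg) := rt_prime ht
  have hα1 : ¬ (Dat.rt t : Rg) ∣ 1 := hα.not_dvd_one
  obtain ⟨A, B, hAB⟩ := el_surj (⟨u, hu⟩ : (theta s O).M)
  have hval : ∀ p : (theta s O).I, u p = A.1 p.1 + al ((theta s O).π p) s * B.1 p.1 := by
    intro p
    have h1 : u p = (el s A B).1 p := by rw [← hAB]
    rw [h1, el_val]
  -- relation over `x` and `x s`
  have hrel : ∀ i, (O.π i = x ∨ O.π i = x * sw s) → A.1 i + al x s * B.1 i = 0 := by
    intro i hi
    rcases hi with hi | hi
    · have h1 := hval (i, false)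
      have h2 : (theta s O).π (i, false) = x := by
        change (if false = true then O.π i * sw s else O.π i) = x
        simpa using hi
      rw [hux _ h2, h2] at h1
      exact h1.symm
    · have h1 := hval (i, true)
      have h2 : (theta s O).π (i, true) = x := by
        change (if true = true then O.π i * sw s else O.π i) = x
        simp [hi, mul_assoc, sw_mul_sw]
      rw [hux _ h2, h2] at h1
      exact h1.symm
  -- components over `t x`
  have hcomp : ∀ p : (theta s O).I, (theta s O).π p = t * x →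
      O.π p.1 = t * x ∨ O.π p.1 = t * x * sw s := by
    intro p hp
    have h1 : (if p.2 then O.π p.1 * sw s else O.π p.1) = t * x := hp
    by_cases h2 : p.2 = true
    · rw [if_pos h2] at h1
      right
      rw [← h1, mul_assoc, sw_mul_sw, mul_one]
    · rw [if_neg h2] at h1
      left; exact h1
  by_cases hcase : t * x = x * sw s
  · -- `t x = x s`
    obtain ⟨c, hc0, hal⟩ := rt_dvd_al ht hcase
    refine ⟨1, hα1, (el s ((-2 * C c : Rg) • B) 0).1, (el s _ _).2, ?_⟩
    intro p hp
    have h3 : al (t * x) s = - al x s := by rw [hcase, al_mul_sw]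
    have h4 : A.1 p.1 + al x s * B.1 p.1 = 0 := by
      apply hrel
      rcases hcomp p hp with h5 | h5
      · right; rw [h5, hcase]
      · left; rw [h5, hcase, mul_assoc, sw_mul_sw, mul_one]
    rw [el_val, hval p, hp, h3]
    have h6 : (((-2 * C c : Rg) • B : O.M)).1 p.1 = -2 * C c * B.1 p.1 := rfl
    have h7 : ((0 : O.M)).1 p.1 = 0 := rfl
    rw [h6, h7]
    rw [hal] at h4 ⊢
    linear_combination h4
  · -- `t x ≠ x s`
    have hxs : len (x * sw s) < len (t * (x * sw s)) := by
      rw [← mul_assoc]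
      exact Dat.crossing t x s ht hx hcase
    set g : O.M := A + al x s • B with hg
    have hgi : ∀ i, g.1 i = A.1 i + al x s * B.1 i := fun i => rfl
    obtain ⟨p1, hp1, v1, hv1, hv1'⟩ := h.star t ht x hx g.1 g.2
      (fun i hi => by rw [hgi]; exact hrel i (Or.inl hi))
    obtain ⟨p2, hp2, v2, hv2, hv2'⟩ := h.star t ht (x * sw s) hxs g.1 g.2
      (fun i hi => by rw [hgi]; exact hrel i (Or.inr hi))
    have htt : t * t = 1 := rf_sq ht
    have hne : t * x * sw s ≠ t * x := by
      intro h1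
      have h2 := len_sw_ne (t * x) s
      rw [h1] at h2
      exact h2 rfl
    set P : Finset Wg := {t * x * sw s, t * x} with hP
    obtain ⟨c1, -, hc1m, hc1, -, hc1z⟩ := exists_sep_prime P (t * x) (Dat.rt t : Rg) hα
    obtain ⟨c2, -, hc2m, hc2, -, hc2z⟩ := exists_sep_prime P (t * x * sw s) (Dat.rt t : Rg) hα
    have hc1s : c1 (t * x * sw s) = 0 := by
      apply hc1z _ (by simp [hP]) hne
      intro t' ht' heq hdvd
      have e := Dat.rt_inj t t' ht ht' hdvd
      subst e
      rw [← mul_assoc, htt, one_mul] at heq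
      apply hcase
      calc _ = t * x * sw s * sw s := by rw [mul_assoc _ (sw s), sw_mul_sw, mul_one]
        _ = x * sw s := by rw [heq]
    have hc2s : c2 (t * x) = 0 := by
      apply hc2z _ (by simp [hP]) hne.symm
      intro t' ht' heq hdvd
      have e := Dat.rt_inj t t' ht ht' hdvd
      subst e
      apply hcase
      rw [heq, mul_assoc _ x, ← mul_assoc _ _ (x * sw s), htt, one_mul]
    -- `al x s - al (t x) s` is a multiple of the root
    obtain ⟨q, hq⟩ : (Dat.rt t : Rg) ∣ al x s - al (t * x) s := by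
      have h1 := rt_dvd_sub ht (al x s)
      have h3 : act t (al x s) = al (t * x) s := by
        rw [al_eq_act x, ← act_mul, ← al_eq_act]
      rw [h3] at h1
      exact h1
    set p : Rg := p1 * p2 * c1 (t * x) * c2 (t * x * sw s) with hp
    have hpα : ¬ (Dat.rt t : Rg) ∣ p :=
      NI1.star_theta_aux_mul hα (NI1.star_theta_aux_mul hα (NI1.star_theta_aux_mul hα hp1 hp2)
        hc1) hc2
    let w1 : O.M := ⟨fun i => c1 (O.π i) * v1 i, hc1m O v1 hv1⟩
    let w2 : O.M := ⟨fun i => c2 (O.π i) * v2 i, hc2m O v2 hv2⟩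
    let v' : O.M := (p2 * c2 (t * x * sw s)) • w1 + (p1 * c1 (t * x)) • w2
    have hv' : ∀ i, v'.1 i = (p2 * c2 (t * x * sw s)) * (c1 (O.π i) * v1 i) +
      (p1 * c1 (t * x)) * (c2 (O.π i) * v2 i) := fun i => rfl
    have hkey : ∀ i, (O.π i = t * x ∨ O.π i = t * x * sw s) →
        p * g.1 i = Dat.rt t * v'.1 i := by
      intro i hi
      rcases hi with hi | hi
      · have h1 := hv1' i hi
        rw [hv', hi, hc2s, hp]
        linear_combination (p2 * c1 (t * x) * c2 (t * x * sw s)) * h1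
      · have h1 := hv2' i (by rw [hi, mul_assoc])
        rw [hv', hi, hc1s, hp]
        linear_combination (p1 * c1 (t * x) * c2 (t * x * sw s)) * h1
    refine ⟨p, hpα, (el s (v' - (p * q) • B) 0).1, (el s _ _).2, ?_⟩
    intro i hi
    have h1 := hkey i.1 (hcomp i hi)
    rw [el_val, hval i, hi]
    have h6 : ((v' - (p * q) • B : O.M)).1 i.1 = v'.1 i.1 - (p * q) * B.1 i.1 := rfl
    have h7 : ((0 : O.M)).1 i.1 = 0 := rfl
    rw [h6, h7]
    rw [hgi] at h1
    linear_combination h1 - p * B.1 i.1 * hq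

end EW
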