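import Pool.Agent.EW.CB2
import Pool.Agent.EW.DI1

/-!
Part C, block DI2 (MP_d13a5e_al): independence of the local stalks.
-/

open MvPolynomial

namespace EW

variable [Dat] {r : Wg → Wg → Prop}

theorem Obj.sec_mono (O : Obj) {Ω Ω' : Set Wg} (h : Ω ⊆ Ω') : O.sec Ω ≤ O.sec Ω' := by
  rintro m ⟨hm, hm'⟩
  exact ⟨hm, fun i hi => hm' i (fun hi' => hi (h hi'))⟩

theorem Le_subset_of_Low {y : Wg} {Ω : Set Wg} (hΩ : Low r Ω) (hy : y ∈ Ω) :
    Le r y ⊆ Ω := by
  intro z hz
  induction hz using Relation.ReflTransGen.head_induction_on with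
  | refl => exact hy
  | head h' _ ih => exact hΩ _ _ h' ih

theorem Obj.sec_congr (O : Obj) {Ω Ω' : Set Wg} (h : ∀ i, O.π i ∈ Ω ↔ O.π i ∈ Ω') :
    O.sec Ω = O.sec Ω' := by
  ext m
  constructor
  · rintro ⟨hm, hm'⟩
    exact ⟨hm, fun i hi => hm' i (fun hi' => hi ((h i).1 hi'))⟩
  · rintro ⟨hm, hm'⟩
    exact ⟨hm, fun i hi => hm' i (fun hi' => hi ((h i).2 hi'))⟩

/-- independence for two lower sets with finite difference -/
theorem indep_finite (hr : r = Up ∨ r = Dn) (O : Obj) {y : Wg} {p : Polynomial ℕ}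
    {Ω0 : Set Wg} (hy0 : y ∉ Ω0) (hlow0 : Low r Ω0) (hlow0y : Low r (insert y Ω0))
    (hp : GF ((O.sec (insert y Ω0)).map (Obj.res O.π y)) p) :
    ∀ (k : ℕ) (Ω : Set Wg), Ω0 ⊆ Ω → (Ω \ Ω0).Finite → (Ω \ Ω0).ncard = k → y ∉ Ω →
      Low r Ω → Low r (insert y Ω) →
      (O.sec (insert y Ω)).map (Obj.res O.π y) = (O.sec (insert y Ω0)).map (Obj.res O.π y) := by
  classical
  obtain ⟨ht, hht⟩ := exists_height hr
  intro k
  induction k with
  | zero =>
    intro Ω hsub hfin hk hy hΩ hΩy
    have h1 : Ω \ Ω0 = ∅ := by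
      rwa [Set.ncard_eq_zero hfin] at hk
    have h2 : Ω ⊆ Ω0 := Set.sdiff_eq_empty.mp h1
    rw [Set.Subset.antisymm h2 hsub]
  | succ k ih =>
    intro Ω hsub hfin hk hy hΩ hΩy
    have hne : (Ω \ Ω0).Nonempty := by
      rw [← Set.ncard_pos hfin, hk]; omega
    obtain ⟨z, hz, hmax⟩ := Set.exists_max_image (Ω \ Ω0) ht hfin hne
    have hzy : y ≠ z := by rintro rfl; exact hy hz.1
    set Ω' : Set Wg := Ω \ {z} with hΩ'
    have hsub' : Ω0 ⊆ Ω' := by
      intro a ha
      refine ⟨hsub ha, ?_⟩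
      rintro rfl
      exact hz.2 ha
    have hzΩ' : z ∉ Ω' := fun h => h.2 rfl
    have hinsz : insert z Ω' = Ω := by
      rw [hΩ', Set.insert_sdiff_singleton, Set.insert_eq_of_mem hz.1]
    have hlow' : Low r Ω' := by
      rintro a b hab ⟨hb, hbz⟩
      refine ⟨hΩ _ _ hab hb, ?_⟩
      rintro rfl
      by_cases hb0 : b ∈ Ω0
      · exact hz.2 (hlow0 _ _ hab hb0)
      · have h5 := hmax b ⟨hb, hb0⟩
        have h6 := hht _ _ hab
        omega
    have hlowy' : Low r (insert y Ω') := by
      rintro a b hab (rfl | hb)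
      · rcases hΩy a b hab (Set.mem_insert _ _) with h5 | h5
        · exact Or.inl h5
        · refine Or.inr ⟨h5, ?_⟩
          rintro rfl
          rcases hlow0y a b hab (Set.mem_insert _ _) with h6 | h6
          · exact hzy h6.symm
          · exact hz.2 h6
      · exact Or.inr (hlow' _ _ hab hb)
    have heq : Ω' \ Ω0 = (Ω \ Ω0) \ {z} := by
      ext a
      constructor
      · rintro ⟨⟨h6, h7⟩, h8⟩
        exact ⟨⟨h6, h8⟩, h7⟩
      · rintro ⟨⟨h6, h8⟩, h7⟩
        exact ⟨⟨h6, h7⟩, h8⟩
    have hcard : (Ω' \ Ω0).ncard = k := by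
      rw [heq, Set.ncard_sdiff_singleton_of_mem hz, hk, Nat.add_sub_cancel]
    have hfin' : (Ω' \ Ω0).Finite := by
      rw [heq]
      exact hfin.subset Set.sdiff_subset
    have hy' : y ∉ Ω' := fun h => hy h.1
    have hih := ih Ω' hsub' hfin' hcard hy' hlow' hlowy'
    have hsubi : insert y Ω' ⊆ insert y Ω := Set.insert_subset_insert Set.sdiff_subset
    apply le_antisymm
    · rintro _ ⟨m, hm, rfl⟩
      have hm' : m ∈ O.sec (insert y (insert z Ω')) := by rw [hinsz]; exact hm
      obtain ⟨m₁, hm₁, m₂, hm₂, he⟩ := diamond hr O (fun _ => trivial) hy' hzΩ' hzy hlow' hlowy'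
        (by rw [hinsz]; exact hΩ) (by rw [hih]; exact hp) hm'
      rw [← hih]
      refine ⟨m₁, hm₁, ?_⟩
      have h7 : Obj.res O.π y m₂ = 0 := by
        funext i
        change (if O.π i = y then m₂ i else 0) = 0
        split_ifs with h8
        · apply hm₂.2
          rw [h8]
          rintro (h9 | h9)
          · exact hzy h9
          · exact hy' h9
        · rfl
      rw [he, map_add, h7, add_zero]
    · rw [← hih]
      exact Submodule.map_mono (O.sec_mono hsubi)

theorem Dsub_indep (hr : r = Up ∨ r = Dn) (O : Obj) (_hW : ∀ i, InW (O.π i))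
    {y : Wg} {p : Polynomial ℕ} (hp : GF (O.Dsub r y) p) {Ω : Set Wg} (hy : y ∉ Ω)
    (hΩ : Low r Ω) (hΩy : Low r (insert y Ω)) :
    (O.sec (insert y Ω)).map (Obj.res O.π y) = O.Dsub r y := by
  classical
  obtain ⟨ht, hht⟩ := exists_height hr
  have hht' : ∀ a b, Relation.ReflTransGen r a b → ht a ≤ ht b := by
    intro a b hab
    induction hab with
    | refl => exact le_rfl
    | tail _ h ih => exact ih.trans (hht _ _ h).le
  have hnocyc : ∀ a, r y a → Relation.ReflTransGen r a y → False := by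
    intro a h1 h2
    have h3 := hht _ _ h1
    have h4 := hht' _ _ h2
    omega
  -- the set `{< y}`
  set Ω0 : Set Wg := Le r y \ {y} with hΩ0
  have hLe : Le r y ⊆ insert y Ω := Le_subset_of_Low hΩy (Set.mem_insert _ _)
  have hins : insert y Ω0 = Le r y := by
    ext z
    constructor
    · rintro (rfl | hz)
      · exact Relation.ReflTransGen.refl
      · exact hz.1
    · intro hz
      by_cases h : z = y
      · exact Or.inl h
      · exact Or.inr ⟨hz, h⟩
  have hlow0 : ∀ a b, r a b → b ∈ Ω0 → a ∈ Ω0 := by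
    rintro a b hab ⟨hb, hby⟩
    refine ⟨Relation.ReflTransGen.head hab hb, ?_⟩
    rintro rfl
    exact hnocyc b hab hb
  have hy0 : y ∉ Ω0 := fun h => h.2 rfl
  have hsub : Ω0 ⊆ Ω := by
    rintro z ⟨hz, hzy⟩
    exact (hLe hz).resolve_left hzy
  -- a bound for the lengths
  obtain ⟨N, hN⟩ : ∃ N : ℕ, len y ≤ N ∧ ∀ i, len (O.π i) ≤ N := by
    refine ⟨len y + ∑ i, len (O.π i), by omega, fun i => ?_⟩
    have := Finset.single_le_sum (f := fun i => len (O.π i)) (fun _ _ => Nat.zero_le _)
      (Finset.mem_univ i)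
    omega
  rcases hr with rfl | rfl
  · -- `r = Up`: cut off the elements of large length
    set Ω1 : Set Wg := Ω ∩ {z | len z ≤ N} with hΩ1
    have hle0 : ∀ z ∈ Ω0, len z ≤ N := by
      rintro z ⟨hz, _⟩
      exact (Le_len hz).1.trans hN.1
    have h1 : Ω0 ⊆ Ω1 := fun z hz => ⟨hsub hz, hle0 z hz⟩
    have h2 : (Ω1 \ Ω0).Finite := (Dat.ball N).subset (fun z hz => hz.1.2)
    have h3 : Low Up Ω1 := fun a b hab hb =>
      ⟨hΩ a b hab hb.1, (Up.len_lt hab).le.trans hb.2⟩
    have h4 : Low Up (insert y Ω1) := by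
      rintro a b hab (rfl | hb)
      · rcases hΩy a b hab (Set.mem_insert _ _) with h5 | h5
        · exact Or.inl h5
        · exact Or.inr ⟨h5, (Up.len_lt hab).le.trans hN.1⟩
      · exact Or.inr (h3 _ _ hab hb)
    have h5 := indep_finite (Or.inl rfl) O hy0 hlow0 (by rw [hins]; exact Low_Le _ _)
      (by rw [hins]; exact hp) _ Ω1 h1 h2 rfl (fun h => hy h.1) h3 h4
    rw [hins] at h5
    have h6 : O.sec (insert y Ω) = O.sec (insert y Ω1) := by
      apply O.sec_congr
      intro i
      constructor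
      · rintro (h | h)
        · exact Or.inl h
        · exact Or.inr ⟨h, hN.2 i⟩
      · rintro (h | h)
        · exact Or.inl h
        · exact Or.inr h.1
    rw [h6, h5]
    rfl
  · -- `r = Dn`: add the elements of large length
    set T : Set Wg := {z | N < len z} with hT
    have hTlow : ∀ a b, Dn a b → b ∈ T → a ∈ T := fun a b hab hb =>
      lt_trans (show N < len b from hb) (Up.len_lt hab)
    have h0 : Low Dn (Ω0 ∪ T) := by
      rintro a b hab (hb | hb)
      · exact Or.inl (hlow0 _ _ hab hb)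
      · exact Or.inr (hTlow _ _ hab hb)
    have h0y : Low Dn (insert y (Ω0 ∪ T)) := by
      rintro a b hab (rfl | hb)
      · have : a ∈ insert b Ω0 := by rw [hins]; exact Relation.ReflTransGen.single hab
        rcases this with h | h
        · exact Or.inl h
        · exact Or.inr (Or.inl h)
      · exact Or.inr (h0 _ _ hab hb)
    have hyT : y ∉ T := fun h => absurd (show N < len y from h) (not_lt.2 hN.1)
    have h1 : Ω0 ∪ T ⊆ Ω ∪ T := Set.union_subset_union_left _ hsub
    have h2 : ((Ω ∪ T) \ (Ω0 ∪ T)).Finite := by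
      apply (Dat.ball N).subset
      rintro z ⟨hz, hz'⟩
      by_contra h
      exact hz' (Or.inr (show N < len z from not_le.1 h))
    have h3 : Low Dn (Ω ∪ T) := by
      rintro a b hab (hb | hb)
      · exact Or.inl (hΩ _ _ hab hb)
      · exact Or.inr (hTlow _ _ hab hb)
    have h4 : Low Dn (insert y (Ω ∪ T)) := by
      rintro a b hab (rfl | hb)
      · rcases hΩy a b hab (Set.mem_insert _ _) with h5 | h5
        · exact Or.inl h5
        · exact Or.inr (Or.inl h5)
      · exact Or.inr (h3 _ _ hab hb)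
    have hsec0 : O.sec (insert y (Ω0 ∪ T)) = O.sec (Le Dn y) := by
      apply O.sec_congr
      intro i
      rw [← hins]
      constructor
      · rintro (h | h | h)
        · exact Or.inl h
        · exact Or.inr h
        · exact absurd (show N < len (O.π i) from h) (not_lt.2 (hN.2 i))
      · rintro (h | h)
        · exact Or.inl h
        · exact Or.inr (Or.inl h)
    have hsec : O.sec (insert y (Ω ∪ T)) = O.sec (insert y Ω) := by
      apply O.sec_congr
      intro i
      constructor
      · rintro (h | h | h)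
        · exact Or.inl h
        · exact Or.inr h
        · exact absurd (show N < len (O.π i) from h) (not_lt.2 (hN.2 i))
      · rintro (h | h)
        · exact Or.inl h
        · exact Or.inr (Or.inl h)
    have h5 := indep_finite (Or.inr rfl) O (y := y) (p := p) (Ω0 := Ω0 ∪ T)
      (by rintro (h | h); exacts [hy0 h, hyT h]) h0 h0y (by rw [hsec0]; exact hp) _ (Ω ∪ T) h1 h2
      rfl (by rintro (h | h); exacts [hy h, hyT h]) h3 h4
    rw [hsec0, hsec] at h5
    exact h5

end EW
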