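import Mathlib
import Pool.Agent.EW.QT1a
import Pool.Agent.EW.RD1

/-! # Part C, block QT1 (MP_d13a5e_al): the quotient by `R_+`  (helper72) -/

open MvPolynomial

namespace EW

variable [Dat]

theorem Nice.rbasis {O : Obj} (hO : Nice O) : RBasis O := hO.right_basis

/-- elements of degree `> d` are in `O R_+` -/
theorem Frm.top {O : Obj} (hO : Nice O) {d : ℕ} (Fm : Frm O d) {i : ℕ} (hi : d < i)
    {m : O.M} (hm : m ∈ O.dg i) : m ∈ O.MRp :=
  qt1_nondeg hO.rbasis Fm hm fun j hj => absurd hj (by omega)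

theorem Frm.nondeg_quot {O : Obj} (hO : Nice O) {d : ℕ} (Fm : Frm O d) {i : ℕ} (hi : i ≤ d)
    {m : O.M} (hm : m ∈ O.dg i)
    (h : ∀ m' ∈ O.dg (d - i), constantCoeff (Fm.F m m') = 0) : m ∈ O.MRp :=
  qt1_nondeg hO.rbasis Fm hm fun j hj => by
    obtain rfl : j = d - i := by omega
    exact h

theorem Qt_finite {O : Obj} (hO : Nice O) : FiniteDimensional ℝ O.Qt :=
  qt1_finite hO.rbasis

end EW
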