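import Mathlib
import Pool.Agent.EW.CT1a
import Pool.Agent.EW.QT1
import Pool.Agent.EW.QT2
import Pool.Agent.EW.NI2

/-!
# Part C, stage 2, CT1: continuity in `ζ` (MP_d13a5e_al)
-/

open MvPolynomial
open KLFin

namespace EW

variable [Dat] {s : Sg}

/-- (C14) -/
theorem theta_HR_of_HL {O : Obj} (hO : Nice O) {d : ℕ} (Fm : Frm O d) (hs : Smp s)
    (G : Frm (theta s O) (d + 1)) (hG : IsThetaFrm s Fm G)
    (T : (theta s O).M →ₗ[ℝ] (theta s O).M) (hT : IsMid s O T)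
    (hHL : ∀ ζ : ℝ, 0 ≤ ζ → HLop (theta s O) (d + 1) (Lrho (theta s O) + ζ • T))
    (h0 : ∃ ζ : ℝ, 0 ≤ ζ ∧ HRop (theta s O) (d + 1) G.F (Lrho (theta s O) + ζ • T)) :
    ∀ ζ : ℝ, 0 ≤ ζ → HRop (theta s O) (d + 1) G.F (Lrho (theta s O) + ζ • T) := by
  have hN : Nice (theta s O) := hO.theta hs
  have : FiniteDimensional ℝ (theta s O).Qt := Qt_finite hN
  exact HR_of_HL_family G.F (Lrho (theta s O)) T
    (fun ζ => exists_quot hN G _ (AdmOp_theta Fm hs G hG T hT ζ)) hHL h0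

end EW
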