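import Mathlib
import Pool.Agent.EW.CDefs3
import Pool.Agent.EW.CB1
import Pool.Agent.EW.CB2

/-!
# Part C, block DC0: the character of `θ_s` (MP_d13a5e_al)
-/

open MvPolynomial
open KLFin

namespace EW

variable [Dat] {s : Sg}

/-- the character of `θ_s` -/
noncomputable def thP (s : Sg) (P : Wg → Polynomial ℕ) (y : Wg) :
    Polynomial ℕ := by
  classical exact if Up y (y * sw s) then P y + Polynomial.X * P (y * sw s)
        else P (y * sw s) + Polynomial.X * P y

theorem thP_up {P : Wg → Polynomial ℕ} {y : Wg} (h : Up y (y * sw s)) :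
    thP s P y = P y + Polynomial.X * P (y * sw s) := by
  unfold thP
  exact if_pos h

theorem thP_not_up {P : Wg → Polynomial ℕ} {y : Wg} (h : ¬ Up y (y * sw s)) :
    thP s P y = P (y * sw s) + Polynomial.X * P y := by
  unfold thP
  exact if_neg h

theorem DC0.mul_sw_mul_sw (y : Wg) (s : Sg) : y * sw s * sw s = y := by
  rw [mul_assoc, sw_mul_sw, mul_one]

/-- `{≤ x} ⊆ {≤ x s}` for `x s > x` -/
theorem DC0.Le_sub {x : Wg} (hup : Up x (x * sw s)) {y : Wg} (hy : y ∈ Le (Up) x) :
    y ∈ Le (Up) (x * sw s) :=
  Relation.ReflTransGen.tail hy hup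

theorem DC0.Le_sub' {x : Wg} (hx : InW x) (hs : Smp s) (hup : Up x (x * sw s)) {y : Wg}
    (hy : y ∈ Le (Up) x) : y * sw s ∈ Le (Up) (x * sw s) := by
  refine Le_mul_sw (Or.inl rfl) (hx.mul hs.inW) hs ?_ (DC0.Le_sub hup hy)
  rw [DC0.mul_sw_mul_sw]; exact hup

theorem DC0.natDegree_bound {p q : Polynomial ℕ} {l d : ℕ}
    (hp : p ≠ 0 → l + 2 * p.natDegree ≤ d) (hq : q ≠ 0 → l + 2 * (q.natDegree + 1) ≤ d)
    (h : p + Polynomial.X * q ≠ 0) : l + 2 * (p + Polynomial.X * q).natDegree ≤ d := by
  have hle : (p + Polynomial.X * q).natDegree ≤ max p.natDegree (Polynomial.X * q).natDegree :=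
    Polynomial.natDegree_add_le _ _
  by_cases hp0 : p = 0
  · subst hp0
    have hq0 : q ≠ 0 := by
      rintro rfl
      simp at h
    have h1 := hq hq0
    rw [zero_add, Polynomial.natDegree_X_mul hq0]
    exact h1
  · have h2 := hp hp0
    by_cases hq0 : q = 0
    · subst hq0
      simpa using h2
    · have h1 := hq hq0
      rw [Polynomial.natDegree_X_mul hq0] at hle
      rcases le_total p.natDegree (q.natDegree + 1) with h3 | h3
      · rw [max_eq_right h3] at hle; omega
      · rw [max_eq_left h3] at hle; omega

/-- degree bounds of `thP` for `x s > x` -/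
theorem thP_bound {x : Wg} (hx : InW x) (hs : Smp s) (hup : Up x (x * sw s))
    (B : KLObj x) : thP s B.P (x * sw s) = 1 ∧
    (∀ y, y ≠ x * sw s → thP s B.P y ≠ 0 →
      len y + 2 * (thP s B.P y).natDegree ≤ len x + 1) ∧
    (∀ y, y ∉ Le (Up) (x * sw s) → thP s B.P y = 0) := by
  have hlx : len x < len (x * sw s) := hup.len_lt
  have hPxs : B.P (x * sw s) = 0 := by
    apply B.Psupp
    intro hmem
    have := (Le_len hmem).1
    omega
  refine ⟨?_, ?_, ?_⟩
  · have hn : ¬ Up (x * sw s) (x * sw s * sw s) := by
      intro h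
      have := h.len_lt
      rw [DC0.mul_sw_mul_sw] at this
      omega
    rw [thP_not_up hn, DC0.mul_sw_mul_sw, hPxs, B.Px]
    simp
  · intro y hy h0
    by_cases hyW : InW y
    · by_cases hu : Up y (y * sw s)
      · rw [thP_up hu] at h0 ⊢
        refine DC0.natDegree_bound ?_ ?_ h0
        · intro hP
          by_cases hyx : y = x
          · subst hyx
            rw [B.Px]; simp
          · have := B.Pdeg y hyx hP
            omega
        · intro hP
          have hyx : y * sw s ≠ x := by
            intro h
            apply hy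
            rw [← h, DC0.mul_sw_mul_sw]
          have h1 := B.Pdeg _ hyx hP
          have h2 := len_mul_sw hyW hs hu
          omega
      · rw [thP_not_up hu] at h0 ⊢
        have hd : Up (y * sw s) (y * sw s * sw s) := by
          have hyW' : InW (y * sw s) := hyW.mul hs.inW
          rw [up_sw_iff hyW' hs]
          rw [up_sw_iff hyW hs] at hu
          rw [DC0.mul_sw_mul_sw]
          exact lt_of_le_of_ne (not_lt.mp hu) (len_sw_ne y s)
        have h2 := len_mul_sw (hyW.mul hs.inW) hs hd
        rw [DC0.mul_sw_mul_sw] at h2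
        refine DC0.natDegree_bound ?_ ?_ h0
        · intro hP
          have hyx : y * sw s ≠ x := by
            intro h
            apply hy
            rw [← h, DC0.mul_sw_mul_sw]
          have h1 := B.Pdeg _ hyx hP
          omega
        · intro hP
          have hyx : y ≠ x := by
            rintro rfl
            exact hu hup
          have h1 := B.Pdeg _ hyx hP
          omega
    · exfalso
      apply h0
      have hP1 : B.P y = 0 := by
        apply B.Psupp
        intro h
        exact hyW (Le_inW (Or.inl rfl) hx h)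
      have hP2 : B.P (y * sw s) = 0 := by
        apply B.Psupp
        intro h
        apply hyW
        have := (Le_inW (Or.inl rfl) hx h).mul hs.inW
        rwa [DC0.mul_sw_mul_sw] at this
      unfold thP
      rw [hP1, hP2]
      simp
  · intro y hy
    have hP1 : B.P y = 0 := by
      apply B.Psupp
      intro h
      exact hy (DC0.Le_sub hup h)
    have hP2 : B.P (y * sw s) = 0 := by
      apply B.Psupp
      intro h
      apply hy
      have := DC0.Le_sub' hx hs hup h
      rwa [DC0.mul_sw_mul_sw] at this
    unfold thP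
    rw [hP1, hP2]
    simp

end EW
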