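import Mathlib
import Pool.Agent.EW.CD
import Pool.Agent.EW.FC
import Pool.Agent.EW.CB1

/-!
# Part C, block DV1: the division lemma (C3) (MP_d13a5e_al)
-/

open MvPolynomial

namespace EW

variable [Dat]

/-- product of the roots `α_t`, `t y < y` -/
noncomputable def rootProd (y : Wg) : Rg := ∏ t ∈ Dat.inv y, Dat.rt t

theorem rootProd_homog (y : Wg) : (rootProd y).IsHomogeneous (len y) := by
  unfold rootProd
  have h1 : len y = ∑ t ∈ Dat.inv y, 1 := by
    rw [← Finset.card_eq_sum_ones, Dat.card_inv]; rfl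
  rw [h1]
  exact IsHomogeneous.prod _ _ _ (fun t ht => Dat.rt_lin t ((Dat.mem_inv y t).1 ht).1)

theorem rootProd_ne_zero (y : Wg) : rootProd y ≠ 0 := by
  unfold rootProd
  rw [Finset.prod_ne_zero_iff]
  intro t ht
  exact Dat.rt_ne t ((Dat.mem_inv y t).1 ht).1

theorem Nice.div {O : Obj} (h : Nice O) {J : Type} [Fintype J]
    {N : Submodule Rg (J → Rg)} {p : Polynomial ℕ} (hN : GF N p) {y : Wg}
    (hy : InW y) (f : O.M →ₗ[Rg] (J → Rg)) (hfN : ∀ m, f m ∈ N)
    (hf : ∀ m : O.M, (∀ i, O.π i = y → m.1 i = 0) → f m = 0)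
    {m : O.M} (hm : ∀ i, O.π i ∉ Le (Dn) y → m.1 i = 0) :
    ∃ u ∈ N, f m = rootProd y • u := by
  classical
  refine hN.div_of_prime (hfN m) (rootProd_ne_zero y) ?_
  intro q hq
  set S := Dat.inv y with hS
  by_cases hex : ∃ s ∈ S, q ∣ (Dat.rt s : Rg)
  · obtain ⟨t, hs, hqs⟩ := hex
    have hs' := hs
    rw [hS, Dat.mem_inv] at hs'
    obtain ⟨ht, hinv⟩ := hs'
    have hassoc : Associated q (Dat.rt t : Rg) :=
      hq.irreducible.associated_of_dvd (rt_prime ht).irreducible hqs
    set x : Wg := t * y with hx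
    have htx : t * x = y := rf_mul_mul ht y
    have hup : Up x y := ⟨t, ht, by rw [htx]; exact hinv, htx.symm⟩
    -- `x` is not `≥ y`
    have hxnot : x ∉ Le (Dn) y := by
      intro hmem
      have hlen : ∀ z w : Wg, Relation.ReflTransGen (Dn) z w → len w ≤ len z := by
        intro z w hzw
        induction hzw with
        | refl => exact le_refl _
        | tail _ hbc ih => exact (le_of_lt (Up.len_lt hbc)).trans ih
      exact absurd (Up.len_lt hup) (not_lt.2 (hlen x y hmem))
    obtain ⟨c, hc, v, hv, hcv⟩ := h.star t ht x (by rw [htx]; exact hinv) m.1 m.2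
      (fun i hi => hm i (by rw [hi]; exact hxnot))
    have hfv : c • f m = (Dat.rt t : Rg) • f ⟨v, hv⟩ := by
      rw [← map_smul, ← map_smul, ← sub_eq_zero, ← map_sub]
      apply hf
      intro i hi
      have := hcv i (by rw [htx]; exact hi)
      simp only [Submodule.coe_sub, Submodule.coe_smul, Pi.sub_apply, Pi.smul_apply, smul_eq_mul]
      rw [this, sub_self]
    refine ⟨c * ∏ s ∈ S.erase t, Dat.rt s, ?_, f ⟨v, hv⟩, hfN _, ?_⟩
    · intro hd
      rcases hq.dvd_or_dvd hd with h1 | h1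
      · exact hc (hassoc.symm.dvd.trans h1)
      · obtain ⟨s, hsm, hsd⟩ := (Prime.dvd_finsetProd_iff hq _).1 h1
        rw [Finset.mem_erase] at hsm
        have hs2 := hsm.2
        rw [hS, Dat.mem_inv] at hs2
        exact hsm.1 (Dat.rt_inj t s ht hs2.1 (hassoc.symm.dvd.trans hsd)).symm
    · have hprod : rootProd y = (∏ s ∈ S.erase t, (Dat.rt s : Rg)) * Dat.rt t := by
        have := Finset.prod_erase_mul S (fun s : Wg => (Dat.rt s : Rg)) hs
        rw [this]; rfl
      rw [hprod, mul_comm c, mul_smul, hfv, mul_smul]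
  · refine ⟨rootProd y, ?_, f m, hfN m, rfl⟩
    intro hd
    obtain ⟨s, hsm, hsd⟩ := (Prime.dvd_finsetProd_iff hq _).1 hd
    exact hex ⟨s, hsm, hsd⟩

end EW
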