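import Mathlib
import Pool.Agent.EW.CB2
import Pool.Agent.EW.CE1
import Pool.Agent.EW.CS
import Pool.Agent.EW.GF1
import Pool.Agent.EW.DI2
import Pool.Agent.EW.DV1

open MvPolynomial

namespace EW

variable [Dat]

/-- a nonzero morphism of degree `e` forces degrees: there is `y` and a generator degree `j` of
`D_y(N)` with `j ≤ e + deg P_y` -/
theorem hom_degree {O N : Obj} (hO : Nice O) (hN : Nice N) {d : ℕ}
    {P : Wg → Polynomial ℕ} (hP : CharRel d O P) (φ : O.M →ₗ[Rg] N.M) (hφ : BiMap φ)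
    {e : ℤ} (he : DegMap φ e) (h0 : φ ≠ 0) :
    ∃ y p, InW y ∧ P y ≠ 0 ∧ GF (N.Dsub (Up) y) p ∧
      (∃ m : O.M, (∀ i, N.π i ∉ Le (Up) y → (φ m).1 i = 0) ∧
        ∃ i, N.π i = y ∧ (φ m).1 i ≠ 0) ∧
      ∃ j, p.coeff j ≠ 0 ∧ (j : ℤ) ≤ e + (P y).natDegree := by
  classical
  obtain ⟨h, hh⟩ := exists_height (r := Up) (Or.inl rfl)
  -- the support of the image
  have hne : ∃ w ∈ ((Finset.univ.image N.π).filter (fun w : Wg =>
      ∃ m : O.M, ∃ i, N.π i = w ∧ (φ m).1 i ≠ 0)), True := by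
    by_contra hcon
    apply h0
    ext1 m
    apply Subtype.ext
    funext i
    by_contra hi
    exact hcon ⟨N.π i, Finset.mem_filter.mpr ⟨Finset.mem_image_of_mem _ (Finset.mem_univ i),
      m, i, rfl, hi⟩, trivial⟩
  obtain ⟨w0, hw0, -⟩ := hne
  obtain ⟨y, hyS, hymax⟩ := Finset.exists_max_image _ h ⟨w0, hw0⟩
  obtain ⟨m₀, i₀, hi₀, hm₀⟩ := (Finset.mem_filter.mp hyS).2
  have hyW : InW y := hi₀ ▸ hN.inW i₀
  obtain ⟨p, hp⟩ := hN.lo y
  -- the lower set
  set Ω : Set Wg := {w | h w ≤ h y ∧ w ≠ y} with hΩdef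
  have hyΩ : y ∉ Ω := fun hy => hy.2 rfl
  have hΩ : Low (Up) Ω := by
    intro v w hvw hw
    have h1 := hh v w hvw
    refine ⟨by have := hw.1; omega, ?_⟩
    rintro rfl
    have := hw.1
    omega
  have hins : ∀ w, w ∈ insert y Ω ↔ h w ≤ h y := by
    intro w
    constructor
    · rintro (rfl | hw)
      · exact le_refl _
      · exact hw.1
    · intro hw
      by_cases hwy : w = y
      · exact Or.inl hwy
      · exact Or.inr ⟨hw, hwy⟩
  have hΩy : Low (Up) (insert y Ω) := by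
    intro v w hvw hw
    rw [hins] at hw ⊢
    have h1 := hh v w hvw
    omega
  have hind := Dsub_indep (Or.inl rfl) N hN.inW hp hyΩ hΩ hΩy
  have hsec : ∀ m : O.M, (φ m).1 ∈ N.sec (insert y Ω) := by
    intro m
    refine ⟨(φ m).2, ?_⟩
    intro i hi
    by_contra hne
    apply hi
    rw [hins]
    exact hymax _ (Finset.mem_filter.mpr ⟨Finset.mem_image_of_mem _ (Finset.mem_univ i),
      m, i, rfl, hne⟩)
  -- the map `f`
  let f : O.M →ₗ[Rg] (N.I → Rg) := (Obj.res N.π y).comp (N.M.subtype.comp φ)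
  have hfdef : ∀ m i, f m i = if N.π i = y then (φ m).1 i else 0 := fun m i => rfl
  have hfN : ∀ m, f m ∈ N.Dsub (Up) y := by
    intro m
    rw [← hind]
    exact ⟨(φ m).1, hsec m, rfl⟩
  have hf : ∀ m : O.M, (∀ i, O.π i = y → m.1 i = 0) → f m = 0 := by
    intro m hm
    funext i
    rw [hfdef]
    by_cases hi : N.π i = y
    · rw [if_pos hi]; exact hφ.vanish hm i hi
    · rw [if_neg hi]; rfl
  -- separators
  obtain ⟨c, K, hc, hcy, hcw', -⟩ := exists_sep (Finset.univ.image O.π) y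
  have hcw : ∀ i, O.π i ≠ y → c (O.π i) = 0 := fun i hi =>
    hcw' _ (Finset.mem_image_of_mem _ (Finset.mem_univ i)) hi
  let m' : O.M := ⟨fun i => c (O.π i) * m₀.1 i, hc O m₀.1 m₀.2⟩
  have hm'y : ∀ i, O.π i ≠ y → m'.1 i = 0 := by
    intro i hi
    show c (O.π i) * m₀.1 i = 0
    rw [hcw _ hi, zero_mul]
  have hφm'y : ∀ i, N.π i = y → (φ m').1 i = c y * (φ m₀).1 i := by
    intro i hi
    have h1 : ∀ i, O.π i = y → (m' - c y • m₀).1 i = 0 := by
      intro i hi
      show c (O.π i) * m₀.1 i - c y * m₀.1 i = 0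
      rw [hi, sub_self]
    have h2 := hφ.vanish h1 i hi
    rw [map_sub, map_smul] at h2
    have h3 : (φ m').1 i - c y * (φ m₀).1 i = 0 := h2
    exact sub_eq_zero.mp h3
  have hφm'w : ∀ i, N.π i ≠ y → (φ m').1 i = 0 := by
    intro i hi
    refine hφ.vanish (y := N.π i) ?_ i rfl
    intro i' hi'
    apply hm'y
    rw [hi']; exact hi
  have hφm'ne : (φ m').1 i₀ ≠ 0 := by
    rw [hφm'y i₀ hi₀]
    exact mul_ne_zero hcy hm₀
  have hfm' : f m' ≠ 0 := by
    intro hcon
    have := congrFun hcon i₀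
    rw [hfdef, if_pos hi₀] at this
    exact hφm'ne this
  -- basis of the upper stalk
  obtain ⟨k, b, eb, hb, hli, hspan, hpol⟩ := hP.up y
  obtain ⟨comp, hcdg, -, -, -, hcomp⟩ := exists_comp O
  have hlift : ∀ i : Fin k, ∃ s : O.M, s ∈ O.dg (eb i) ∧
      (∀ a, O.π a ∉ Le (Dn) y → s.1 a = 0) ∧ ∀ a, O.π a = y → s.1 a = b i a := by
    intro i
    have hbi : b i ∈ O.Dsub (Dn) y := by
      rw [← hspan]; exact Submodule.subset_span ⟨i, rfl⟩
    obtain ⟨s, ⟨hsM, hs⟩, hsb⟩ := hbi
    refine ⟨comp (eb i) ⟨s, hsM⟩, hcdg _ _, ?_, ?_⟩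
    · intro a ha
      rw [hcomp]
      have : s a = 0 := hs a ha
      show homogeneousComponent (eb i) (s a) = 0
      rw [this, map_zero]
    · intro a ha
      rw [hcomp]
      have h1 : b i a = s a := by
        rw [← hsb]
        show (if O.π a = y then s a else 0) = s a
        rw [if_pos ha]
      show homogeneousComponent (eb i) (s a) = b i a
      rw [← h1]
      rw [homogeneousComponent_of_mem (hb i a), if_pos rfl]
  choose s hsdg hssup hsb using hlift
  have hbsupp : ∀ i a, O.π a ≠ y → b i a = 0 := by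
    intro i a ha
    have hbi : b i ∈ O.Dsub (Dn) y := by
      rw [← hspan]; exact Submodule.subset_span ⟨i, rfl⟩
    obtain ⟨t, -, htb⟩ := hbi
    rw [← htb]
    show (if O.π a = y then t a else 0) = 0
    rw [if_neg ha]
  -- expand `m'`
  have hm'D : m'.1 ∈ Submodule.span Rg (Set.range b) := by
    rw [hspan]
    refine ⟨m'.1, ⟨m'.2, ?_⟩, ?_⟩
    · intro a ha
      apply hm'y
      rintro rfl
      exact ha Relation.ReflTransGen.refl
    · funext a
      show (if O.π a = y then m'.1 a else 0) = m'.1 a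
      by_cases ha : O.π a = y
      · rw [if_pos ha]
      · rw [if_neg ha, hm'y a ha]
  obtain ⟨g, hg⟩ := (Submodule.mem_span_range_iff_exists_fun Rg).mp hm'D
  have hfexp : f m' = ∑ i, g i • f (s i) := by
    have h1 : f (m' - ∑ i, g i • s i) = 0 := by
      apply hf
      intro a ha
      have h2 : (m' - ∑ i, g i • s i).1 a = m'.1 a - ∑ i, g i * (s i).1 a := by
        simp [Finset.sum_apply]
      rw [h2, ← hg]
      simp only [Finset.sum_apply, Pi.smul_apply, smul_eq_mul]
      rw [sub_eq_zero]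
      apply Finset.sum_congr rfl
      intro i _
      rw [hsb i a ha]
    rw [map_sub, map_sum, sub_eq_zero] at h1
    rw [h1]
    apply Finset.sum_congr rfl
    intro i _
    rw [map_smul]
  have hex : ∃ i, f (s i) ≠ 0 := by
    by_contra hcon
    push Not at hcon
    apply hfm'
    rw [hfexp]
    apply Finset.sum_eq_zero
    intro i _
    rw [hcon i, smul_zero]
  obtain ⟨i, hfi⟩ := hex
  -- degrees of the basis
  have hcoef : (Polynomial.X ^ (len y) * P y).coeff (eb i) ≠ 0 := by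
    rw [hpol, Polynomial.finsetSum_coeff]
    intro hcon
    rw [Finset.sum_eq_zero_iff] at hcon
    have := hcon i (Finset.mem_univ i)
    rw [Polynomial.coeff_X_pow, if_pos rfl] at this
    exact one_ne_zero this
  rw [Polynomial.coeff_X_pow_mul'] at hcoef
  have hle : len y ≤ eb i := by
    by_contra hlt
    rw [if_neg hlt] at hcoef
    exact hcoef rfl
  rw [if_pos hle] at hcoef
  have hPne : P y ≠ 0 := by
    intro hcon
    rw [hcon, Polynomial.coeff_zero] at hcoef
    exact hcoef rfl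
  have hdeg : eb i - len y ≤ (P y).natDegree := Polynomial.le_natDegree_of_ne_zero hcoef
  -- divide
  obtain ⟨u, huN, hu⟩ := Nice.div hO hp hyW f hfN hf (hssup i)
  have hDeg := he (eb i) (s i) (hsdg i)
  have hnonneg : 0 ≤ (eb i : ℤ) + e := by
    by_contra hlt
    push Not at hlt
    apply hfi
    funext a
    rw [hfdef, hDeg.2 hlt]
    by_cases ha : N.π a = y
    · rw [if_pos ha]; rfl
    · rw [if_neg ha]; rfl
  obtain ⟨j₀, hj₀⟩ := Int.eq_ofNat_of_zero_le hnonneg
  have hφs : φ (s i) ∈ N.dg j₀ := hDeg.1 j₀ hj₀.symm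
  have hfhg : Hg j₀ (f (s i)) := by
    intro a
    rw [hfdef]
    by_cases ha : N.π a = y
    · rw [if_pos ha]; exact hφs a
    · rw [if_neg ha]; exact isHomogeneous_zero _ _ _
  have hcompf : ∀ a, homogeneousComponent j₀ (f (s i) a) = f (s i) a := by
    intro a
    rw [homogeneousComponent_of_mem (hfhg a), if_pos rfl]
  have hlen : len y ≤ j₀ := by
    by_contra hlt
    push Not at hlt
    apply hfi
    funext a
    rw [← hcompf a, hu]
    show homogeneousComponent j₀ (rootProd y * u a) = 0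
    exact hcomp_mul_lt (rootProd_homog y) _ _ hlt
  obtain ⟨d₁, hd₁⟩ := Nat.exists_eq_add_of_le' hlen
  let u' : N.I → Rg := fun a => homogeneousComponent d₁ (u a)
  have hu'N : u' ∈ N.Dsub (Up) y := hp.grd u huN d₁
  have hu'hg : Hg d₁ u' := fun a => homogeneousComponent_isHomogeneous d₁ (u a)
  have hfu' : ∀ a, f (s i) a = rootProd y * u' a := by
    intro a
    rw [← hcompf a, hu, hd₁]
    show homogeneousComponent (d₁ + len y) (rootProd y * u a) = _
    exact hcomp_mul_succ (rootProd_homog y) _ _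
  have hu'0 : u' ≠ 0 := by
    intro hcon
    apply hfi
    funext a
    rw [hfu' a, hcon]
    simp
  obtain ⟨j, hj, hpj⟩ := hp.exists_le hu'N hu'hg hu'0
  refine ⟨y, p, hyW, hPne, hp, ⟨m', ?_, i₀, hi₀, hφm'ne⟩, j, hpj, ?_⟩
  · intro a ha
    apply hφm'w
    rintro rfl
    exact ha Relation.ReflTransGen.refl
  · have h1 : (eb i : ℤ) + e = j₀ := hj₀
    have h2 : (j₀ : ℤ) = d₁ + len y := by exact_mod_cast hd₁
    have h3 : (eb i : ℤ) - len y ≤ (P y).natDegree := by omega
    have h4 : (j : ℤ) ≤ d₁ := by exact_mod_cast hj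
    omega

end EW
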