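import Mathlib
import Pool.Agent.EW.CDefs3
import Pool.Agent.EW.CS
import Pool.Agent.EW.GF1
import Pool.Agent.EW.CB2
import Pool.Agent.EW.DV2
import Pool.Agent.EW.QT1
import Pool.Agent.EW.RD2

/-!
# Part C, block EM: embedding of KL objects (C9) (MP_d13a5e_al)
-/

open MvPolynomial
open KLFin

namespace EW

variable [Dat] {s : Sg}

namespace EM

/-- lowest degree of `D_y` -/
theorem low_deg {N : Obj} {d : ℕ} {Q : Wg → Polynomial ℕ} (hQ : CharRel d N Q) {y : Wg}
    (hQd : Q y ≠ 0 → len y + 2 * (Q y).natDegree ≤ d) {p : Polynomial ℕ}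
    (hp : GF (N.Dsub (Up) y) p) {j : ℕ} (hj : p.coeff j ≠ 0) : d ≤ len y + 2 * j := by
  have hpQ : p = (Q y).reflect (d - len y) := hp.unique (hQ.lo y)
  have hQ0 : Q y ≠ 0 := by
    intro h0
    rw [hpQ, h0, Polynomial.reflect_zero] at hj
    exact hj (Polynomial.coeff_zero j)
  have h1 := hQd hQ0
  have h2 := hQ.deg y hQ0
  rw [hpQ, Polynomial.coeff_reflect] at hj
  by_cases hjN : j ≤ d - len y
  · rw [Polynomial.revAt_le hjN] at hj
    have := Polynomial.le_natDegree_of_ne_zero hj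
    omega
  · omega

end EM

theorem embed {N : Obj} (hN : Nice N) {d : ℕ} {Q : Wg → Polynomial ℕ}
    (hQ : CharRel d N Q) {z : Wg} (_hz : InW z) (Bz : KLObj z) (e : ℕ)
    (he : len z + 2 * e = d)
    (hQd : ∀ y ∈ Le (Up) z, Q y ≠ 0 → len y + 2 * (Q y).natDegree ≤ d)
    (φ : Bz.O.M →ₗ[Rg] N.M) (hφ : BiMap φ) (hd : DegMap φ e) (h0 : φ ≠ 0) :
    φ Bz.b0 ∉ N.MRp ∧ ∃ i, N.π i = z ∧ (φ Bz.b0).1 i ≠ 0 := by
  have hzz : z ∈ Le (Up) z := Relation.ReflTransGen.refl
  have hb0 : φ Bz.b0 ∈ N.dg e := (hd 0 _ Bz.b0_mem).1 e (by simp)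
  -- the value of `φ b0` over `z` is not zero
  have key : ∃ i, N.π i = z ∧ (φ Bz.b0).1 i ≠ 0 := by
    by_contra hcon
    push Not at hcon
    have hall : ∀ m i, N.π i = z → (φ m).1 i = 0 := by
      intro m
      obtain ⟨f, hf⟩ := Bz.gen m
      have h1 : ∀ i, Bz.O.π i = z → (m - f • Bz.b0).1 i = 0 := by
        intro i hi
        change m.1 i - f * Bz.b0.1 i = 0
        rw [hf i hi, sub_self]
      intro i hi
      have h2 := hφ.vanish h1 i hi
      rw [map_sub, map_smul] at h2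
      have h3 : (φ m).1 i - f * (φ Bz.b0).1 i = 0 := h2
      rw [hcon i hi, mul_zero, sub_zero] at h3
      exact h3
    obtain ⟨y, p, _, hPy, hp, ⟨m, _, i, hi, hmi⟩, j, hj, hje⟩ :=
      hom_degree Bz.nice hN Bz.char φ hφ hd h0
    have hyz : y ≠ z := by
      rintro rfl
      exact hmi (hall m i hi)
    have hyLe : y ∈ Le (Up) z := by
      by_contra hc
      exact hPy (Bz.Psupp y hc)
    have h1 := Bz.Pdeg y hyz hPy
    have h2 := EM.low_deg hQ (hQd y hyLe) hp hj
    omega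
  refine ⟨fun hR => ?_, key⟩
  obtain ⟨i, hi, hne⟩ := key
  rcases Nat.eq_zero_or_pos e with he0 | hepos
  · subst he0
    have h1 := dg_zero_MRp hb0 hR
    rw [h1] at hne
    exact hne rfl
  · obtain ⟨e', rfl⟩ : ∃ e', e = e' + 1 := ⟨e - 1, by omega⟩
    have hsupp : ∀ i, N.π i ∉ Le (Up) z → (φ Bz.b0).1 i = 0 := by
      intro i hi
      refine hφ.vanish (y := N.π i) (m := Bz.b0) (fun k hk => ?_) i rfl
      exact Bz.supp _ k (by rw [hk]; exact hi)
    obtain ⟨g, hg1, hg2, hg3⟩ := hN.sec_MRp (Low_Le _ z) hb0 hsupp hR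
    have hgz : ∀ j, (g j).1 i = 0 := by
      intro j
      by_contra hc
      have hmem : Obj.res N.π z (g j).1 ∈ N.Dsub (Up) z :=
        ⟨(g j).1, ⟨(g j).2, hg2 j⟩, rfl⟩
      have hHg : Hg e' (Obj.res N.π z (g j).1) := by
        intro k
        change (if N.π k = z then (g j).1 k else 0).IsHomogeneous e'
        split_ifs
        · exact hg1 j k
        · exact isHomogeneous_zero _ _ _
      have hn0 : Obj.res N.π z (g j).1 ≠ 0 := by
        intro h
        have := congrFun h i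
        change (if N.π i = z then (g j).1 i else 0) = 0 at this
        rw [if_pos hi] at this
        exact hc this
      obtain ⟨k, hk, hpk⟩ := (hQ.lo z).exists_le hmem hHg hn0
      have h2 := EM.low_deg hQ (hQd z hzz) (hQ.lo z) hpk
      omega
    apply hne
    rw [hg3]
    have h1 : (∑ j, N.rmul (X j) (g j) : N.M).1 i = ∑ j, act (N.π i) (X j) * (g j).1 i := by
      rw [AddSubmonoidClass.coe_finsetSum, Finset.sum_apply]
      rfl
    rw [h1]
    exact Finset.sum_eq_zero fun j _ => by rw [hgz j, mul_zero]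

end EW
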