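import Mathlib
import Pool.Agent.EW.CDefs3
import Pool.Agent.EW.CB1
import Pool.Agent.EW.CE1
import Pool.Agent.EW.CE2
import Pool.Agent.EW.GF1
import Pool.Agent.EW.FR2
import Pool.Agent.EW.ST2
import Pool.Agent.EW.NI2
import Pool.Agent.EW.HV1
import Pool.Agent.EW.QT1
import Pool.Agent.EW.EM
import Pool.Agent.EW.DC0

/-!
# Part C, block DC1: orthonormal basis of `Hom_e(B_z, θ_s B_x)` (MP_d13a5e_al)
-/

open MvPolynomial
open KLFin

namespace EW

variable [Dat] {s : Sg}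

namespace DC1

theorem C_smul_eq {O : Obj} (c : ℝ) (m : O.M) : (C c : Rg) • m = c • m := by
  have := algebraMap_smul Rg c m
  rwa [MvPolynomial.algebraMap_eq] at this

theorem rho_homog : rho.IsHomogeneous 1 := by
  unfold rho
  refine IsHomogeneous.sum _ _ _ fun i _ => ?_
  simpa using (isHomogeneous_C (Vx) (Dat.rhoc i)).mul (isHomogeneous_X ℝ i)

theorem smul_dg {O : Obj} {f : Rg} {k : ℕ} (hf : f.IsHomogeneous k) {i : ℕ} {m : O.M}
    (hm : m ∈ O.dg i) : f • m ∈ O.dg (i + k) := by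
  intro j
  have h := hf.mul (hm j)
  rw [add_comm]
  exact h

theorem Lrho_pow (O : Obj) (k : ℕ) (m : O.M) : (Lrho O ^ k) m = rho ^ k • m := by
  induction k with
  | zero => simp
  | succ k ih =>
    rw [pow_succ', Module.End.mul_apply, ih, pow_succ', mul_smul]
    rfl

/-- the sum of bimodule maps -/
theorem BiMap_sum {O P : Obj} {m : ℕ} (φ : Fin m → (O.M →ₗ[Rg] P.M))
    (hφ : ∀ i, BiMap (φ i)) (c : Fin m → ℝ) :
    BiMap (∑ i, (C (c i) : Rg) • φ i) := by
  intro j a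
  simp only [LinearMap.sum_apply, LinearMap.smul_apply, map_sum, map_smul]
  refine Finset.sum_congr rfl fun i _ => ?_
  rw [hφ i j a]

theorem DegMap_sum {O P : Obj} {m : ℕ} (φ : Fin m → (O.M →ₗ[Rg] P.M)) {e : ℤ}
    (hφ : ∀ i, DegMap (φ i) e) (c : Fin m → ℝ) :
    DegMap (∑ i, (C (c i) : Rg) • φ i) e := by
  intro i a ha
  refine ⟨fun j hj => ?_, fun hlt => ?_⟩
  · rw [LinearMap.sum_apply]
    refine Submodule.sum_mem _ fun k _ => ?_
    rw [LinearMap.smul_apply, C_smul_eq]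
    exact Submodule.smul_mem _ _ ((hφ k i a ha).1 j hj)
  · rw [LinearMap.sum_apply]
    refine Finset.sum_eq_zero fun k _ => ?_
    rw [LinearMap.smul_apply, (hφ k i a ha).2 hlt, smul_zero]

/-- `F(C c • a, b) = C c * F(a,b)` -/
theorem F_C {O : Obj} {d : ℕ} (Fm : Frm O d) (c : ℝ) (a b : O.M) :
    Fm.F ((C c : Rg) • a) b = C c * Fm.F a b := by
  rw [C_smul_eq, map_smul, LinearMap.smul_apply, MvPolynomial.smul_eq_C_mul]

/-- the number `⟨b₀, ρ^{ℓ(z)} b₀⟩` is positive -/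
theorem base_pos {z : Wg} (Bz : KLObj z) :
    0 < constantCoeff (Bz.Fm.F Bz.b0 ((Lrho Bz.O ^ len z) Bz.b0)) := by
  have h := Bz.hr 0 (by omega) Bz.b0 Bz.b0_mem
  simp only [Nat.mul_zero, Nat.sub_zero, pow_zero, one_mul] at h
  have h1 : (Lrho Bz.O ^ (len z + 1)) Bz.b0 ∈ Bz.O.MRp := by
    rw [Lrho_pow]
    refine Frm.top Bz.nice Bz.Fm (i := len z + 1) (by omega) ?_
    have := smul_dg (rho_homog.pow (len z + 1)) Bz.b0_mem
    simpa using this
  rcases h h1 with h2 | h2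
  · exfalso
    have h0 := dg_zero_MRp Bz.b0_mem h2
    obtain ⟨i, -, hi⟩ := Bz.b0_ne
    apply hi
    rw [h0]
    rfl
  · exact h2

/-- positivity of the norm of a morphism -/
theorem norm_pos {x : Wg} (hx : InW x) (hs : Smp s) (hup : Up x (x * sw s))
    (B : KLObj x) (G : Frm (theta s B.O) (len x + 1))
    (hHR : HRop (theta s B.O) (len x + 1) G.F (Lrho (theta s B.O)))
    {z : Wg} (hz : InW z) (Bz : KLObj z) (e : ℕ)
    (he : len z + 2 * e = len x + 1)
    (hQ : CharRel (len x + 1) (theta s B.O) (thP s B.P))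
    (φ : Bz.O.M →ₗ[Rg] (theta s B.O).M) (hφ : BiMap φ) (hd : DegMap φ e) (h0 : φ ≠ 0)
    (ψ : (theta s B.O).M →ₗ[Rg] Bz.O.M) (hψ : ∀ m b, Bz.Fm.F (ψ m) b = G.F m (φ b))
    (c : ℝ) (hc : ∀ m, ψ (φ m) = (C c : Rg) • m) : 0 < (-1 : ℝ) ^ e * c := by
  obtain ⟨hb1, hb2, hb3⟩ := thP_bound hx hs hup B
  have hemb := (embed (Nice.theta B.nice hs) hQ hz Bz e he (fun y _ hy => by
    by_cases hyx : y = x * sw s
    · subst hyx
      rw [hb1, len_mul_sw hx hs hup]
      simp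
    · exact hb2 y hyx hy) φ hφ hd h0).1
  have hbdg : φ Bz.b0 ∈ (theta s B.O).dg e := (hd 0 Bz.b0 Bz.b0_mem).1 e (by simp)
  have h1 := hHR e (by omega) (φ Bz.b0) hbdg
  have hk : len x + 1 - 2 * e = len z := by omega
  rw [hk] at h1
  have h2 : (Lrho (theta s B.O) ^ (len z + 1)) (φ Bz.b0) ∈ (theta s B.O).MRp := by
    rw [Lrho_pow, ← map_smul]
    apply BiMap.MRp hφ
    refine Frm.top Bz.nice Bz.Fm (i := len z + 1) (by omega) ?_
    have := smul_dg (rho_homog.pow (len z + 1)) Bz.b0_mem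
    simpa using this
  rcases h1 h2 with h3 | h3
  · exact absurd h3 hemb
  · have h4 : G.F (φ Bz.b0) ((Lrho (theta s B.O) ^ len z) (φ Bz.b0)) =
        C c * Bz.Fm.F Bz.b0 ((Lrho Bz.O ^ len z) Bz.b0) := by
      rw [Lrho_pow, ← map_smul, ← hψ, hc, F_C, Lrho_pow]
    rw [h4, map_mul, constantCoeff_C, ← mul_assoc] at h3
    exact (pos_iff_pos_of_mul_pos h3).2 (base_pos Bz)

open scoped MatrixOrder in
theorem exists_gs {m : ℕ} {A : Matrix (Fin m) (Fin m) ℝ} (hA : A.PosDef) :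
    ∃ P : Matrix (Fin m) (Fin m) ℝ, P.transpose * A * P = 1 := by
  obtain ⟨B, hB⟩ := CStarAlgebra.nonneg_iff_eq_star_mul_self.mp hA.posSemidef.nonneg
  have hdet : IsUnit B.det := by
    have h1 := (Matrix.isUnit_iff_isUnit_det A).1 hA.isUnit
    rw [hB, Matrix.det_mul] at h1
    exact isUnit_of_mul_isUnit_right h1
  refine ⟨B⁻¹, ?_⟩
  have h2 : B * B⁻¹ = 1 := Matrix.mul_nonsing_inv B hdet
  have h3 : (B⁻¹).transpose * B.transpose = 1 := by
    rw [← Matrix.transpose_mul, h2, Matrix.transpose_one]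
  have h4 : star B = B.transpose := by
    rw [Matrix.star_eq_conjTranspose]
    ext i j
    simp [Matrix.conjTranspose_apply]
  rw [hB, h4, ← Matrix.mul_assoc, h3, Matrix.one_mul, h2]

/-- Gram-Schmidt in `Hom_e(B_z, θ_s B_x)` -/
theorem core {x : Wg} (hx : InW x) (hs : Smp s) (hup : Up x (x * sw s))
    (B : KLObj x) (G : Frm (theta s B.O) (len x + 1))
    (hHR : HRop (theta s B.O) (len x + 1) G.F (Lrho (theta s B.O)))
    {z : Wg} (hz : InW z) (Bz : KLObj z) (e : ℕ)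
    (he : len z + 2 * e = len x + 1)
    (hQ : CharRel (len x + 1) (theta s B.O) (thP s B.P)) {m : ℕ}
    (φ0 : Fin m → (Bz.O.M →ₗ[Rg] (theta s B.O).M))
    (hφ0 : ∀ i, BiMap (φ0 i)) (hφd0 : ∀ i, DegMap (φ0 i) e)
    (hne : ∀ y : Fin m → ℝ, y ≠ 0 → (∑ i, (C (y i) : Rg) • φ0 i) ≠ 0) :
    ∃ (φ : Fin m → (Bz.O.M →ₗ[Rg] (theta s B.O).M))
      (ψ : Fin m → ((theta s B.O).M →ₗ[Rg] Bz.O.M)),
      (∀ i, BiMap (φ i) ∧ DegMap (φ i) e ∧ BiMap (ψ i) ∧ DegMap (ψ i) (-(e : ℤ))) ∧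
      (∀ i m b, Bz.Fm.F (ψ i m) b = G.F m (φ i b)) ∧
      (∀ i b, ψ i (φ i b) = (-1 : Rg) ^ e • b) ∧
      (∀ i j, i ≠ j → ∀ b, ψ i (φ j b) = 0) := by
  classical
  -- adjoints
  have hadj : ∀ i, ∃ ψ : (theta s B.O).M →ₗ[Rg] Bz.O.M, BiMap ψ ∧
      (∀ a b, Bz.Fm.F (ψ a) b = G.F a (φ0 i b)) ∧ DegMap ψ (-(e : ℤ)) := by
    intro i
    obtain ⟨ψ, h1, h2, h3⟩ := exists_adjoint Bz.Fm G (φ0 i) (hφ0 i)
    refine ⟨ψ, h1, h2, ?_⟩
    have := h3 e (hφd0 i)
    have h4 : (e : ℤ) + (len z : ℕ) - ((len x + 1 : ℕ) : ℤ) = -(e : ℤ) := by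
      have : ((len z + 2 * e : ℕ) : ℤ) = ((len x + 1 : ℕ) : ℤ) := by rw [he]
      push_cast at this ⊢
      linarith
    rwa [h4] at this
  choose ψ0 hψ0 hψa0 hψd0 using hadj
  have hsc : ∀ i j, ∃ c : ℝ, ∀ b, ψ0 i (φ0 j b) = (C c : Rg) • b := by
    intro i j
    have h1 : BiMap ((ψ0 i).comp (φ0 j)) := by
      intro k b
      rw [LinearMap.comp_apply, LinearMap.comp_apply, hφ0 j k b, hψ0 i k]
    have h2 : DegMap ((ψ0 i).comp (φ0 j)) 0 := by
      intro k b hb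
      refine ⟨fun l hl => ?_, fun hl => ?_⟩
      · have h3 := (hφd0 j k b hb).1 (k + e) (by push_cast; ring)
        exact (hψd0 i (k + e) _ h3).1 l (by push_cast; linarith)
      · omega
    obtain ⟨c, hc⟩ := KLObj.hom_scalar hz Bz _ h1 h2
    exact ⟨c, hc⟩
  choose cc hcc using hsc
  -- the Gram matrix
  let A : Matrix (Fin m) (Fin m) ℝ := fun i j => (-1 : ℝ) ^ e * cc i j
  have hsymm : ∀ i j, cc i j = cc j i := by
    intro i j
    have hp := base_pos Bz
    set b := Bz.b0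
    set b' := (Lrho Bz.O ^ len z) Bz.b0
    have h1 : C (cc i j) * Bz.Fm.F b b' = C (cc j i) * Bz.Fm.F b b' := by
      rw [← F_C, ← hcc, hψa0, G.symm, ← hψa0, hcc, F_C, Bz.Fm.symm]
    have h2 := congrArg constantCoeff h1
    rw [map_mul, map_mul, constantCoeff_C, constantCoeff_C] at h2
    exact mul_right_cancel₀ hp.ne' h2
  -- combinations
  have hcomb : ∀ (y y' : Fin m → ℝ) (b : Bz.O.M),
      (∑ i, (C (y i) : Rg) • ψ0 i) ((∑ i, (C (y' i) : Rg) • φ0 i) b) =
        (C (∑ i, ∑ j, y i * y' j * cc i j) : Rg) • b := by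
    intro y y' b
    simp only [LinearMap.sum_apply, LinearMap.smul_apply, map_sum, map_smul, hcc, smul_smul,
      Finset.smul_sum]
    rw [Finset.sum_comm]
    simp only [Finset.sum_smul]
    refine Finset.sum_congr rfl fun i _ => Finset.sum_congr rfl fun j _ => ?_
    rw [C_mul, C_mul]
    congr 1
    ring
  have hcadj : ∀ (y : Fin m → ℝ) (a : (theta s B.O).M) (b : Bz.O.M),
      Bz.Fm.F ((∑ i, (C (y i) : Rg) • ψ0 i) a) b =
        G.F a ((∑ i, (C (y i) : Rg) • φ0 i) b) := by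
    intro y a b
    simp only [LinearMap.sum_apply, LinearMap.smul_apply, map_sum]
    refine Finset.sum_congr rfl fun i _ => ?_
    have h1 : G.F a ((C (y i) : Rg) • φ0 i b) = C (y i) * G.F a (φ0 i b) := by
      rw [G.symm, F_C, G.symm]
    rw [F_C, hψa0, h1]
  have hposdef : A.PosDef := by
    rw [Matrix.posDef_iff_dotProduct_mulVec]
    refine ⟨?_, ?_⟩
    · refine Matrix.IsHermitian.ext fun i j => ?_
      rw [star_trivial]
      show (-1 : ℝ) ^ e * cc j i = (-1 : ℝ) ^ e * cc i j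
      rw [hsymm]
    · intro y hy
      have h1 := norm_pos hx hs hup B G hHR hz Bz e he hQ _ (BiMap_sum φ0 hφ0 y)
        (DegMap_sum φ0 hφd0 y) (hne y hy) _ (hcadj y) _ (hcomb y y)
      have h2 : star y ⬝ᵥ A.mulVec y = (-1 : ℝ) ^ e * ∑ i, ∑ j, y i * y j * cc i j := by
        simp only [dotProduct, Matrix.mulVec, star_trivial, Finset.mul_sum]
        refine Finset.sum_congr rfl fun i _ => Finset.sum_congr rfl fun j _ => ?_
        show y i * ((-1 : ℝ) ^ e * cc i j * y j) = _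
        ring
      rw [h2]
      exact h1
  obtain ⟨P, hP⟩ := exists_gs hposdef
  have hPij : ∀ i j, ∑ a, ∑ b, P a i * P b j * cc a b = if i = j then (-1 : ℝ) ^ e else 0 := by
    intro i j
    have h1 := congrFun (congrFun hP i) j
    rw [Matrix.mul_apply] at h1
    simp only [Matrix.mul_apply, Matrix.transpose_apply, Matrix.one_apply, Finset.sum_mul] at h1
    rw [Finset.sum_comm] at h1
    have h2 : (-1 : ℝ) ^ e * ∑ a, ∑ b, P a i * P b j * cc a b = if i = j then 1 else 0 := by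
      rw [← h1]
      simp only [Finset.mul_sum]
      refine Finset.sum_congr rfl fun a _ => Finset.sum_congr rfl fun b _ => ?_
      show _ = P a i * ((-1 : ℝ) ^ e * cc a b) * P b j
      ring
    have h3 : (-1 : ℝ) ^ e * (-1 : ℝ) ^ e = 1 := by
      rw [← mul_pow]; norm_num
    calc ∑ a, ∑ b, P a i * P b j * cc a b
        = (-1 : ℝ) ^ e * ((-1 : ℝ) ^ e * ∑ a, ∑ b, P a i * P b j * cc a b) := by
          rw [← mul_assoc, h3, one_mul]
      _ = _ := by rw [h2]; split_ifs <;> simp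
  refine ⟨fun i => ∑ a, (C (P a i) : Rg) • φ0 a, fun i => ∑ a, (C (P a i) : Rg) • ψ0 a,
    fun i => ⟨BiMap_sum φ0 hφ0 _, DegMap_sum φ0 hφd0 _, BiMap_sum ψ0 hψ0 _,
      DegMap_sum ψ0 hψd0 _⟩, fun i a b => hcadj _ a b, fun i b => ?_, fun i j hij b => ?_⟩
  · rw [hcomb, hPij, if_pos rfl]
    simp
  · rw [hcomb, hPij, if_neg hij]
    simp

end DC1

open DC1 in
/-- DC1: an orthonormal basis (up to the sign `(-1)^e`) of `Hom_e(B_z, θ_s B_x)` -/
theorem exists_onb {x : Wg} (hx : InW x) (hs : Smp s) (hup : Up x (x * sw s))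
    (B : KLObj x) (G : Frm (theta s B.O) (len x + 1)) (hG : IsThetaFrm s B.Fm G)
    (hHR : HRop (theta s B.O) (len x + 1) G.F (Lrho (theta s B.O)))
    {z : Wg} (hz : InW z) (hzx : z ≠ x * sw s) (Bz : KLObj z) (e : ℕ)
    (he : len z + 2 * e = len x + 1) :
    ∃ (φ : Fin ((thP s B.P z).coeff e) → (Bz.O.M →ₗ[Rg] (theta s B.O).M))
      (ψ : Fin ((thP s B.P z).coeff e) → ((theta s B.O).M →ₗ[Rg] Bz.O.M)),
      (∀ i, BiMap (φ i) ∧ DegMap (φ i) e ∧ BiMap (ψ i) ∧ DegMap (ψ i) (-(e : ℤ))) ∧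
      (∀ i m b, Bz.Fm.F (ψ i m) b = G.F m (φ i b)) ∧
      (∀ i b, ψ i (φ i b) = (-1 : Rg) ^ e • b) ∧
      (∀ i j, i ≠ j → ∀ b, ψ i (φ j b) = 0) := by
  classical
  have hss : Smp s := hs
  obtain ⟨hb1, hb2, hb3⟩ := thP_bound hx hs hup B
  have hQ : CharRel (len x + 1) (theta s B.O) (thP s B.P) := by
    have := CharRel.theta B.nice.inW B.char hs
    convert this using 1
    funext y
    unfold thP
    by_cases h : Up y (y * sw s) <;> simp [h]
  have hNθ := Nice.theta B.nice hs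
  set Q := thP s B.P with hQdef
  set m := (Q z).coeff e with hm
  -- lowest degree part of `D_z`
  have hlo := hQ.lo z
  have hd2 : len x + 1 - len z = 2 * e := by omega
  rw [hd2] at hlo
  have hcoef : ∀ k, k ≤ 2 * e → ((Q z).reflect (2 * e)).coeff k = (Q z).coeff (2 * e - k) := by
    intro k hk
    rw [Polynomial.coeff_reflect, Polynomial.revAt_le hk]
  have hlow : ∀ k < e, ((Q z).reflect (2 * e)).coeff k = 0 := by
    intro k hk
    rw [hcoef k (by omega)]
    by_contra hne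
    have hQz : Q z ≠ 0 := by
      intro h; rw [h] at hne; simp at hne
    have h1 := hb2 z hzx hQz
    have h2 := Polynomial.le_natDegree_of_ne_zero hne
    omega
  obtain ⟨v, hv1, hv2, hv3⟩ := GF.lowest hlo hlow
  have hme : ((Q z).reflect (2 * e)).coeff e = m := by
    rw [hcoef e (by omega), hm]
    congr 1
    omega
  -- lifts
  have hlift : ∀ i, ∃ φ : Bz.O.M →ₗ[Rg] (theta s B.O).M, BiMap φ ∧ DegMap φ e ∧
      ∀ j, (theta s B.O).π j = z → (φ Bz.b0).1 j = v i j := by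
    intro i
    obtain ⟨⟨w, hw, hwv⟩, hhom⟩ := hv1 i
    obtain ⟨hwM, hwsupp⟩ := hw
    let w' : (theta s B.O).M := ⟨fun j => homogeneousComponent e (w j), (theta s B.O).graded w hwM e⟩
    have hw' : w' ∈ (theta s B.O).dg e := fun j => homogeneousComponent_isHomogeneous e (w j)
    obtain ⟨φ, hφ, hφd, hφv⟩ := Bz.lift (theta s B.O) hNθ e w' hw' (by
      intro j hj
      show homogeneousComponent e (w j) = 0
      rw [hwsupp j hj, map_zero])
    refine ⟨φ, hφ, hφd, fun j hj => ?_⟩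
    rw [hφv j hj]
    show homogeneousComponent e (w j) = v i j
    have h1 : v i j = w j := by
      rw [← hwv]
      show (if (theta s B.O).π j = z then w j else 0) = w j
      rw [if_pos hj]
    have h2 := hhom j
    rw [h1] at h2 ⊢
    rw [homogeneousComponent_of_mem h2, if_pos rfl]
  choose φ0 hφ0 hφd0 hφv0 using hlift
  have hv0 : ∀ i j, (theta s B.O).π j ≠ z → v i j = 0 := by
    intro i j hj
    obtain ⟨⟨w, hw, hwv⟩, hhom⟩ := hv1 i
    rw [← hwv]
    show (if (theta s B.O).π j = z then w j else 0) = 0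
    rw [if_neg hj]
  have hne : ∀ y : Fin (((Q z).reflect (2 * e)).coeff e) → ℝ, y ≠ 0 →
      (∑ i, (C (y i) : Rg) • φ0 i) ≠ 0 := by
    intro y hy h0
    apply hy
    have h1 : ∑ i, y i • v i = 0 := by
      funext j
      by_cases hj : (theta s B.O).π j = z
      · have h2 := congrArg (fun f : Bz.O.M →ₗ[Rg] (theta s B.O).M => (f Bz.b0).1 j) h0
        simp only [LinearMap.sum_apply, LinearMap.smul_apply, LinearMap.zero_apply] at h2
        rw [AddSubmonoidClass.coe_finsetSum, Finset.sum_apply] at h2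
        rw [Finset.sum_apply]
        simp only [Pi.smul_apply, SetLike.val_smul, smul_eq_mul, ZeroMemClass.coe_zero,
          Pi.zero_apply, hφv0 _ j hj] at h2 ⊢
        simpa [MvPolynomial.smul_eq_C_mul] using h2
      · rw [Finset.sum_apply]
        refine Finset.sum_eq_zero fun i _ => ?_
        rw [Pi.smul_apply, hv0 i j hj, smul_zero]
    funext i
    exact Fintype.linearIndependent_iff.1 hv2 y h1 i
  rw [← hme]
  exact core hx hs hup B G hHR hz Bz e he hQ φ0 hφ0 hφd0 hne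

end EW
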