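import Mathlib
import Pool.Agent.EW.CDefs3
import Pool.Agent.EW.CS
import Pool.Agent.EW.GF1
import Pool.Agent.EW.GF2

/-!
# Part C, block DC2: characters of an orthogonal complement (MP_d13a5e_al)
-/

open MvPolynomial
open KLFin

namespace EW

variable [Dat]

/-! ### the map induced on the stalks `D_y` -/

theorem dc2_sec {O N : Obj} {φ : O.M →ₗ[Rg] N.M} (hφ : BiMap φ) {Ω : Set Wg} {m : O.M}
    (hm : m.1 ∈ O.sec Ω) : (φ m).1 ∈ N.sec Ω := by
  refine ⟨(φ m).2, fun i hi => ?_⟩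
  exact hφ.vanish (y := N.π i) (fun j hj => hm.2 j (by rw [hj]; exact hi)) i rfl

theorem dc2_res {O N : Obj} {φ : O.M →ₗ[Rg] N.M} (hφ : BiMap φ) {y : Wg} {m m' : O.M}
    (h : Obj.res O.π y m.1 = Obj.res O.π y m'.1) :
    Obj.res N.π y (φ m).1 = Obj.res N.π y (φ m').1 := by
  have h1 : ∀ i, O.π i = y → (m - m').1 i = 0 := by
    intro i hi
    have := congrFun h i
    simp only [Obj.res, LinearMap.coe_mk, AddHom.coe_mk, if_pos hi] at this
    show m.1 i - m'.1 i = 0
    rw [this, sub_self]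
  have h2 := hφ.vanish h1
  funext i
  simp only [Obj.res, LinearMap.coe_mk, AddHom.coe_mk]
  split_ifs with hi
  · have := h2 i hi
    rw [map_sub] at this
    exact sub_eq_zero.1 this
  · rfl

theorem dc2_mem_Dsub {O : Obj} {r : Wg → Wg → Prop} {y : Wg} {m : O.M}
    (hm : m.1 ∈ O.sec (Le r y)) : Obj.res O.π y m.1 ∈ O.Dsub r y :=
  Submodule.mem_map_of_mem hm

theorem dc2_exists {O : Obj} {r : Wg → Wg → Prop} {y : Wg} (u : O.Dsub r y) :
    ∃ m : O.M, m.1 ∈ O.sec (Le r y) ∧ Obj.res O.π y m.1 = u.1 := by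
  obtain ⟨m, hm, hu⟩ := Submodule.mem_map.1 u.2
  exact ⟨⟨m, hm.1⟩, hm, hu⟩

theorem dc2_map (r : Wg → Wg → Prop) (y : Wg) {O N : Obj} {φ : O.M →ₗ[Rg] N.M}
    (hφ : BiMap φ) :
    ∃ g : O.Dsub r y →ₗ[Rg] N.Dsub r y, ∀ (u : O.Dsub r y) (m : O.M),
      m.1 ∈ O.sec (Le r y) → Obj.res O.π y m.1 = u.1 → (g u).1 = Obj.res N.π y (φ m).1 := by
  choose c hc hc' using fun u : O.Dsub r y => dc2_exists u
  have key : ∀ (u : O.Dsub r y) (m : O.M), Obj.res O.π y m.1 = u.1 →
      Obj.res N.π y (φ (c u)).1 = Obj.res N.π y (φ m).1 := by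
    intro u m hm
    exact dc2_res hφ ((hc' u).trans hm.symm)
  refine ⟨⟨⟨fun u => ⟨Obj.res N.π y (φ (c u)).1, dc2_mem_Dsub (dc2_sec hφ (hc u))⟩, ?_⟩, ?_⟩, ?_⟩
  · intro u v
    apply Subtype.ext
    have h := key (u + v) (c u + c v) (by
      show Obj.res O.π y ((c u).1 + (c v).1) = u.1 + v.1
      rw [map_add, hc', hc'])
    show Obj.res N.π y (φ (c (u + v))).1 = Obj.res N.π y (φ (c u)).1 + Obj.res N.π y (φ (c v)).1
    rw [h, LinearMap.map_add φ]
    exact map_add (Obj.res N.π y) (φ (c u)).1 (φ (c v)).1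
  · intro a u
    apply Subtype.ext
    have h := key (a • u) (a • c u) (by
      show Obj.res O.π y (a • (c u).1) = a • u.1
      rw [map_smul, hc'])
    show Obj.res N.π y (φ (c (a • u))).1 = a • Obj.res N.π y (φ (c u)).1
    rw [h, LinearMap.map_smul φ]
    exact map_smul (Obj.res N.π y) a (φ (c u)).1
  · intro u m _ hm'
    exact key u m hm'

/-- the induced map -/
noncomputable def Dmap (r : Wg → Wg → Prop) (y : Wg) {O N : Obj}
    {φ : O.M →ₗ[Rg] N.M} (hφ : BiMap φ) : O.Dsub r y →ₗ[Rg] N.Dsub r y :=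
  (dc2_map r y hφ).choose

theorem Dmap_spec {r : Wg → Wg → Prop} {y : Wg} {O N : Obj}
    {φ : O.M →ₗ[Rg] N.M} (hφ : BiMap φ) (u : O.Dsub r y) (m : O.M)
    (hm : m.1 ∈ O.sec (Le r y)) (hu : Obj.res O.π y m.1 = u.1) :
    (Dmap r y hφ u).1 = Obj.res N.π y (φ m).1 :=
  (dc2_map r y hφ).choose_spec u m hm hu

/-- functoriality -/
theorem Dmap_comp_id {r : Wg → Wg → Prop} {y : Wg} {O N : Obj}
    {φ : O.M →ₗ[Rg] N.M} (hφ : BiMap φ) {ψ : N.M →ₗ[Rg] O.M} (hψ : BiMap ψ)
    (h : ∀ m, ψ (φ m) = m) (u : O.Dsub r y) : Dmap r y hψ (Dmap r y hφ u) = u := by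
  obtain ⟨m, hm, hu⟩ := dc2_exists u
  apply Subtype.ext
  rw [Dmap_spec hψ (Dmap r y hφ u) (φ m) (dc2_sec hφ hm) (Dmap_spec hφ u m hm hu).symm, h, hu]

theorem Dmap_comp_zero {r : Wg → Wg → Prop} {y : Wg} {O N P : Obj}
    {φ : O.M →ₗ[Rg] N.M} (hφ : BiMap φ) {ψ : N.M →ₗ[Rg] P.M} (hψ : BiMap ψ)
    (h : ∀ m, ψ (φ m) = 0) (u : O.Dsub r y) : Dmap r y hψ (Dmap r y hφ u) = 0 := by
  obtain ⟨m, hm, hu⟩ := dc2_exists u
  apply Subtype.ext
  rw [Dmap_spec hψ (Dmap r y hφ u) (φ m) (dc2_sec hφ hm) (Dmap_spec hφ u m hm hu).symm, h]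
  show Obj.res P.π y (0 : P.I → Rg) = 0
  rw [map_zero]

/-- homogeneous elements of `D_y` lift to homogeneous elements -/
theorem dc2_exists_hg {O : Obj} {r : Wg → Wg → Prop} {y : Wg} (u : O.Dsub r y) {d : ℕ}
    (hd : Hg d u.1) :
    ∃ m : O.M, m ∈ O.dg d ∧ m.1 ∈ O.sec (Le r y) ∧ Obj.res O.π y m.1 = u.1 := by
  obtain ⟨m, hm, hu⟩ := dc2_exists u
  refine ⟨⟨fun i => homogeneousComponent d (m.1 i), O.graded m.1 m.2 d⟩, ?_, ?_, ?_⟩
  · intro i
    exact homogeneousComponent_isHomogeneous _ _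
  · refine ⟨O.graded m.1 m.2 d, fun i hi => ?_⟩
    show homogeneousComponent d (m.1 i) = 0
    rw [hm.2 i hi, map_zero]
  · rw [← GFaux.hc_self hd, ← hu]
    funext i
    simp only [Obj.res, LinearMap.coe_mk, AddHom.coe_mk]
    split_ifs with h
    · rfl
    · rw [map_zero]

theorem Dmap_deg {r : Wg → Wg → Prop} {y : Wg} {O N : Obj}
    {φ : O.M →ₗ[Rg] N.M} (hφ : BiMap φ) {e : ℤ} (he : DegMap φ e) {u : O.Dsub r y} {d j : ℕ}
    (hu : Hg d u.1) (hj : (j : ℤ) = d + e) : Hg j (Dmap r y hφ u).1 := by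
  obtain ⟨m, hmd, hm, hmu⟩ := dc2_exists_hg u hu
  rw [Dmap_spec hφ u m hm hmu]
  have h1 := (he d m hmd).1 j hj
  intro i
  simp only [Obj.res, LinearMap.coe_mk, AddHom.coe_mk]
  split_ifs with h
  · exact h1 i
  · exact isHomogeneous_zero _ _ _

theorem Dmap_deg0 {r : Wg → Wg → Prop} {y : Wg} {O N : Obj}
    {φ : O.M →ₗ[Rg] N.M} (hφ : BiMap φ) {e : ℤ} (he : DegMap φ e) {u : O.Dsub r y} {d : ℕ}
    (hu : Hg d u.1) (hj : (d : ℤ) + e < 0) : Dmap r y hφ u = 0 := by
  obtain ⟨m, hmd, hm, hmu⟩ := dc2_exists_hg u hu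
  apply Subtype.ext
  rw [Dmap_spec hφ u m hm hmu, (he d m hmd).2 hj]
  show Obj.res N.π y (0 : N.I → Rg) = 0
  rw [map_zero]

/-- `D_y` is graded -/
theorem Dsub_grd (O : Obj) (r : Wg → Wg → Prop) (y : Wg) : Grd (O.Dsub r y) := by
  intro m hm d
  obtain ⟨m', hm', hu⟩ := dc2_exists (⟨m, hm⟩ : O.Dsub r y)
  refine Submodule.mem_map.2 ⟨fun i => homogeneousComponent d (m'.1 i), ⟨O.graded m'.1 m'.2 d,
    fun i hi => ?_⟩, ?_⟩
  · show homogeneousComponent d (m'.1 i) = 0
    rw [hm'.2 i hi, map_zero]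
  · simp only at hu
    rw [← hu]
    funext i
    simp only [Obj.res, LinearMap.coe_mk, AddHom.coe_mk]
    split_ifs with h
    · rfl
    · rw [map_zero]

/-- homogeneous components in `D_y` -/
noncomputable def Dcomp (O : Obj) (r : Wg → Wg → Prop) (y : Wg) (d : ℕ)
    (u : O.Dsub r y) : O.Dsub r y :=
  ⟨fun i => homogeneousComponent d (u.1 i), Dsub_grd O r y u.1 u.2 d⟩

theorem Dcomp_hg {O : Obj} {r : Wg → Wg → Prop} {y : Wg} (d : ℕ) (u : O.Dsub r y) :
    Hg d (Dcomp O r y d u).1 := fun _ => homogeneousComponent_isHomogeneous _ _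

theorem Dcomp_sum {O : Obj} {r : Wg → Wg → Prop} {y : Wg} (u : O.Dsub r y) :
    ∃ K : ℕ, ∀ K' ≥ K, u = ∑ d ∈ Finset.range K', Dcomp O r y d u := by
  obtain ⟨K, hK⟩ := GFaux.hc_sum u.1
  refine ⟨K, fun K' hK' => ?_⟩
  apply Subtype.ext
  rw [hK K' hK']
  simp only [AddSubmonoidClass.coe_finsetSum]
  rfl

theorem Dcomp_add {O : Obj} {r : Wg → Wg → Prop} {y : Wg} (d : ℕ) (u v : O.Dsub r y) :
    Dcomp O r y d (u + v) = Dcomp O r y d u + Dcomp O r y d v := by
  apply Subtype.ext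
  funext i
  show homogeneousComponent d (u.1 i + v.1 i) = _
  rw [map_add]
  rfl

theorem Dcomp_sum' {O : Obj} {r : Wg → Wg → Prop} {y : Wg} (d : ℕ) {ι : Type*}
    (s : Finset ι) (u : ι → O.Dsub r y) :
    Dcomp O r y d (∑ k ∈ s, u k) = ∑ k ∈ s, Dcomp O r y d (u k) := by
  classical
  induction s using Finset.induction_on with
  | empty =>
    apply Subtype.ext
    funext i
    simp [Dcomp]
  | insert a s ha ih => rw [Finset.sum_insert ha, Finset.sum_insert ha, Dcomp_add, ih]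

theorem Dcomp_of_hg {O : Obj} {r : Wg → Wg → Prop} {y : Wg} {d : ℕ} {u : O.Dsub r y}
    (hu : Hg d u.1) (d' : ℕ) : Dcomp O r y d' u = if d' = d then u else 0 := by
  apply Subtype.ext
  split_ifs with h
  · rw [h]; exact GFaux.hc_self hu
  · exact GFaux.hc_ne hu (fun h' => h h'.symm)

/-- the induced map commutes with components (degree `f : ℕ`) -/
theorem Dmap_comp_nat {r : Wg → Wg → Prop} {y : Wg} {O N : Obj}
    {φ : O.M →ₗ[Rg] N.M} (hφ : BiMap φ) {f : ℕ} (he : DegMap φ (f : ℤ)) (u : O.Dsub r y)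
    (d : ℕ) : Dcomp N r y (d + f) (Dmap r y hφ u) = Dmap r y hφ (Dcomp O r y d u) := by
  obtain ⟨K, hK⟩ := Dcomp_sum u
  have h := hK (max K (d + 1)) (le_max_left _ _)
  have h1 : Dmap r y hφ u = ∑ d' ∈ Finset.range (max K (d + 1)),
      Dmap r y hφ (Dcomp O r y d' u) := by
    conv_lhs => rw [h]
    rw [map_sum]
  rw [h1, Dcomp_sum']
  have h2 : ∀ d' ∈ Finset.range (max K (d + 1)),
      Dcomp N r y (d + f) (Dmap r y hφ (Dcomp O r y d' u)) =
        if d = d' then Dmap r y hφ (Dcomp O r y d u) else 0 := by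
    intro d' _
    rw [Dcomp_of_hg (Dmap_deg hφ he (Dcomp_hg d' u) (j := d' + f) (by push_cast; ring))]
    by_cases h3 : d = d'
    · subst h3; simp
    · rw [if_neg (by omega), if_neg h3]
  rw [Finset.sum_congr rfl h2, Finset.sum_ite_eq, if_pos]
  simp

/-! ### polynomial identities -/

theorem dc2_reflect {a N : ℕ} (R : Polynomial ℕ) (h : 2 * a ≤ N) (hR : R.natDegree ≤ N - 2 * a) :
    (Polynomial.X ^ a * R).reflect N = Polynomial.X ^ a * R.reflect (N - 2 * a) := by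
  have h1 : N = 2 * a + (N - 2 * a) := by omega
  conv_lhs => rw [h1]
  rw [Polynomial.reflect_mul _ _ (by
    rw [Polynomial.natDegree_X_pow]; omega) hR]
  congr 1
  rw [Polynomial.reflect_monomial, Polynomial.revAt_le (by omega)]
  congr 1
  omega

/-- the decomposition of one stalk -/
theorem dc2_stalk {r : Wg → Wg → Prop} {y : Wg} {N P : Obj}
    (i : P.M →ₗ[Rg] N.M) (p : N.M →ₗ[Rg] P.M)
    (hi : BiMap i) (hp : BiMap p) (hid : DegMap i 0) (hpd : DegMap p 0) (hpi : ∀ m, p (i m) = m)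
    {K : ℕ} (O : Fin K → Obj) (f : Fin K → ℕ)
    (φ : ∀ k, (O k).M →ₗ[Rg] N.M) (ψ : ∀ k, N.M →ₗ[Rg] (O k).M)
    (hφ : ∀ k, BiMap (φ k) ∧ DegMap (φ k) (f k)) (hψ : ∀ k, BiMap (ψ k))
    (h1 : ∀ k b, ψ k (φ k b) = b) (h2 : ∀ k l, k ≠ l → ∀ b, ψ k (φ l b) = 0)
    (h3 : ∀ k m, ψ k (i m) = 0) (h5 : ∀ m, m = i (p m) + ∑ k, φ k (ψ k m))
    {q : Polynomial ℕ} (hq : GF (N.Dsub r y) q) {qk : Fin K → Polynomial ℕ}
    (hqk : ∀ k, GF ((O k).Dsub r y) (qk k)) :
    ∃ p₁ : Polynomial ℕ, GF (P.Dsub r y) p₁ ∧ q = p₁ + ∑ k, Polynomial.X ^ (f k) * qk k := by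
  classical
  -- the two submodules
  set D := N.Dsub r y with hD
  set N₁ : Submodule Rg (N.I → Rg) := LinearMap.range (D.subtype ∘ₗ Dmap r y hi) with hN₁
  set N₂ : Submodule Rg (N.I → Rg) :=
    ⨆ k, LinearMap.range (D.subtype ∘ₗ Dmap r y (hφ k).1) with hN₂
  -- the map killing
  have hrep : ∀ u : N.Dsub r y, u = Dmap r y hi (Dmap r y hp u) +
      ∑ k, Dmap r y (hφ k).1 (Dmap r y (hψ k) u) := by
    intro u
    obtain ⟨m, hm, hu⟩ := dc2_exists u
    apply Subtype.ext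
    have e1 : (Dmap r y hi (Dmap r y hp u)).1 = Obj.res N.π y (i (p m)).1 :=
      Dmap_spec hi _ (p m) (dc2_sec hp hm) (Dmap_spec hp u m hm hu).symm
    have e2 : ∀ k, (Dmap r y (hφ k).1 (Dmap r y (hψ k) u)).1 =
        Obj.res N.π y (φ k (ψ k m)).1 := fun k =>
      Dmap_spec (hφ k).1 _ (ψ k m) (dc2_sec (hψ k) hm) (Dmap_spec (hψ k) u m hm hu).symm
    rw [Submodule.coe_add, AddSubmonoidClass.coe_finsetSum, e1,
      Finset.sum_congr rfl (fun k _ => e2 k), ← map_sum, ← map_add, ← hu]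
    congr 1
    conv_lhs => rw [h5 m]
    rw [Submodule.coe_add, AddSubmonoidClass.coe_finsetSum]
  have hφmem : ∀ k (b : (O k).Dsub r y), (Dmap r y (hφ k).1 b).1 ∈ N₂ := by
    intro k b
    exact Submodule.mem_iSup_of_mem k ⟨b, rfl⟩
  have hsup : N₁ ⊔ N₂ = D := by
    apply le_antisymm
    · refine sup_le ?_ (iSup_le fun k => ?_)
      · rintro _ ⟨b, rfl⟩
        exact (Dmap r y hi b).2
      · rintro _ ⟨b, rfl⟩
        exact (Dmap r y (hφ k).1 b).2
    · intro u hu
      have h := congrArg Subtype.val (hrep ⟨u, hu⟩)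
      rw [Submodule.coe_add, AddSubmonoidClass.coe_finsetSum] at h
      rw [show u = (⟨u, hu⟩ : N.Dsub r y).1 from rfl, h]
      refine Submodule.add_mem_sup ⟨_, rfl⟩ (Submodule.sum_mem _ fun k _ => hφmem k _)
  -- every element of `N₂` is a sum
  have hN₂rep : ∀ u ∈ N₂, ∃ b : ∀ k, (O k).Dsub r y,
      u = ∑ k, (Dmap r y (hφ k).1 (b k)).1 := by
    intro u hu
    induction hu using Submodule.iSup_induction' with
    | mem k x hx =>
      obtain ⟨b, rfl⟩ := hx
      refine ⟨Pi.single k b, ?_⟩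
      rw [Finset.sum_eq_single k]
      · rw [Pi.single_eq_same]
        rfl
      · intro l _ hl
        rw [Pi.single_eq_of_ne hl, map_zero]
        rfl
      · intro h
        exact absurd (Finset.mem_univ k) h
    | zero => exact ⟨0, by simp⟩
    | add x y _ _ hx hy =>
      obtain ⟨b, rfl⟩ := hx
      obtain ⟨b', rfl⟩ := hy
      refine ⟨b + b', ?_⟩
      rw [← Finset.sum_add_distrib]
      refine Finset.sum_congr rfl fun k _ => ?_
      rw [Pi.add_apply, map_add]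
      rfl
  have hψφ : ∀ l (b : ∀ k, (O k).Dsub r y),
      Dmap r y (hψ l) (∑ k, Dmap r y (hφ k).1 (b k)) = b l := by
    intro l b
    rw [map_sum, Finset.sum_eq_single l]
    · exact Dmap_comp_id (hφ l).1 (hψ l) (h1 l) _
    · intro k _ hk
      exact Dmap_comp_zero (hφ k).1 (hψ l) (h2 l k (Ne.symm hk)) _
    · intro h
      exact absurd (Finset.mem_univ l) h
  have hdis : Disjoint N₁ N₂ := by
    rw [Submodule.disjoint_def]
    rintro _ ⟨a, rfl⟩ hu
    obtain ⟨b, hb⟩ := hN₂rep _ hu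
    have hb' : Dmap r y hi a = ∑ k, Dmap r y (hφ k).1 (b k) := by
      apply Subtype.ext
      rw [AddSubmonoidClass.coe_finsetSum]
      exact hb
    have h0 : ∀ l, b l = 0 := by
      intro l
      rw [← hψφ l b, ← hb']
      exact Dmap_comp_zero hi (hψ l) (h3 l) a
    show (Dmap r y hi a).1 = 0
    rw [hb']
    simp [h0]
  have hg1 : Grd N₁ := by
    rintro _ ⟨a, rfl⟩ d
    refine ⟨Dcomp P r y d a, ?_⟩
    have := Dmap_comp_nat hi (f := 0) hid a d
    show (Dmap r y hi (Dcomp P r y d a)).1 = _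
    rw [← this]
    rfl
  have hg2 : Grd N₂ := by
    intro u hu d
    obtain ⟨b, hb⟩ := hN₂rep _ hu
    have h : (fun x => homogeneousComponent d (u x)) =
        ∑ k, (fun x => homogeneousComponent d ((Dmap r y (hφ k).1 (b k)).1 x)) := by
      funext x
      rw [hb]
      simp only [Finset.sum_apply, map_sum]
    rw [h]
    refine Submodule.sum_mem _ fun k _ => ?_
    by_cases hk : f k ≤ d
    · have := Dmap_comp_nat (hφ k).1 (hφ k).2 (b k) (d - f k)
      rw [Nat.sub_add_cancel hk] at this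
      have h' : (fun x => homogeneousComponent d ((Dmap r y (hφ k).1 (b k)).1 x)) =
          (Dcomp N r y d (Dmap r y (hφ k).1 (b k))).1 := rfl
      rw [h', this]
      exact hφmem k _
    · -- degree `d < f k`: the component vanishes
      have h' : (fun x => homogeneousComponent d ((Dmap r y (hφ k).1 (b k)).1 x)) =
          (Dcomp N r y d (Dmap r y (hφ k).1 (b k))).1 := rfl
      have h'' : Dcomp N r y d (Dmap r y (hφ k).1 (b k)) = 0 := by
        obtain ⟨K', hK'⟩ := Dcomp_sum (b k)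
        have hK'' := hK' K' le_rfl
        rw [hK'', map_sum, Dcomp_sum']
        refine Finset.sum_eq_zero fun d' _ => ?_
        rw [Dcomp_of_hg (Dmap_deg (hφ k).1 (hφ k).2 (Dcomp_hg d' (b k)) (j := d' + f k)
          (by push_cast; ring)), if_neg (by omega)]
      rw [h', h'']
      exact N₂.zero_mem
  obtain ⟨p₁, p₂, hp₁, hp₂, hpp⟩ := hq.summand hsup hdis hg1 hg2
  -- the first summand
  have hP : GF (P.Dsub r y) p₁ := by
    have hinj : Function.Injective (D.subtype ∘ₗ Dmap r y hi) := by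
      intro a b hab
      have h : Dmap r y hi a = Dmap r y hi b := Subtype.ext hab
      rw [← Dmap_comp_id hi hp hpi a, h, Dmap_comp_id hi hp hpi b]
    have e := LinearEquiv.ofInjective (D.subtype ∘ₗ Dmap r y hi) hinj
    have hh := GF.equiv hp₁ (LinearEquiv.ofInjective (D.subtype ∘ₗ Dmap r y hi) hinj).symm 0 (by
      intro d m hm
      set a := (LinearEquiv.ofInjective (D.subtype ∘ₗ Dmap r y hi) hinj).symm m with ha
      have hm' : m.1 = (Dmap r y hi a).1 := by
        have := (LinearEquiv.ofInjective (D.subtype ∘ₗ Dmap r y hi) hinj).apply_symm_apply m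
        rw [← ha] at this
        rw [← this]
        rfl
      rw [hm'] at hm
      have h := Dmap_deg hp hpd (u := Dmap r y hi a) (j := d + 0) hm (by simp)
      rw [Dmap_comp_id hi hp hpi a] at h
      exact h)
    rw [pow_zero, one_mul] at hh
    exact hh
  refine ⟨p₁, hP, ?_⟩
  -- the second summand
  choose Kk b e hbe hli hspan hqe using hqk
  have hsecond : GF N₂ (∑ x : (Σ k, Fin (Kk k)), Polynomial.X ^ (e x.1 x.2 + f x.1)) := by
    have hbmem : ∀ k j, b k j ∈ (O k).Dsub r y := by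
      intro k j
      rw [← hspan k]
      exact Submodule.subset_span ⟨j, rfl⟩
    set B : (Σ k, Fin (Kk k)) → (N.I → Rg) :=
      fun x => (Dmap r y (hφ x.1).1 ⟨b x.1 x.2, hbmem x.1 x.2⟩).1 with hB
    refine GFaux.of_fintype B (fun x => e x.1 x.2 + f x.1) ?_ ?_ ?_
    · rintro ⟨k, j⟩
      exact Dmap_deg (hφ k).1 (hφ k).2 (hbe k j) (by push_cast; ring)
    · rw [Fintype.linearIndependent_iff]
      intro g hg x
      obtain ⟨l, j⟩ := x
      have hg' : ∑ k, Dmap r y (hφ k).1 (∑ j, g ⟨k, j⟩ • (⟨b k j, hbmem k j⟩ :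
          (O k).Dsub r y)) = 0 := by
        apply Subtype.ext
        rw [AddSubmonoidClass.coe_finsetSum]
        rw [Fintype.sum_sigma] at hg
        show _ = (0 : N.I → Rg)
        rw [← hg]
        refine Finset.sum_congr rfl fun k _ => ?_
        rw [map_sum, AddSubmonoidClass.coe_finsetSum]
        refine Finset.sum_congr rfl fun j _ => ?_
        rw [map_smul]
        rfl
      have h := hψφ l (fun k => ∑ j, g ⟨k, j⟩ • (⟨b k j, hbmem k j⟩ : (O k).Dsub r y))
      rw [hg', map_zero] at h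
      have h' := congrArg Subtype.val h
      simp only [AddSubmonoidClass.coe_finsetSum] at h'
      exact Fintype.linearIndependent_iff.1 (hli l) (fun j => g ⟨l, j⟩) h'.symm j
    · apply le_antisymm
      · rw [Submodule.span_le]
        rintro _ ⟨x, rfl⟩
        exact hφmem _ _
      · refine iSup_le fun k => ?_
        rintro _ ⟨c, rfl⟩
        have hc : c.1 ∈ Submodule.span Rg (Set.range (b k)) := by
          rw [hspan k]; exact c.2
        obtain ⟨g, hg⟩ := (Submodule.mem_span_range_iff_exists_fun Rg).1 hc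
        have hc' : c = ∑ j, g j • (⟨b k j, hbmem k j⟩ : (O k).Dsub r y) := by
          apply Subtype.ext
          rw [← hg]
          simp only [AddSubmonoidClass.coe_finsetSum]
          rfl
        show (Dmap r y (hφ k).1 c).1 ∈ _
        rw [hc', map_sum, AddSubmonoidClass.coe_finsetSum]
        refine Submodule.sum_mem _ fun j _ => ?_
        rw [map_smul]
        exact Submodule.smul_mem _ _ (Submodule.subset_span ⟨⟨k, j⟩, rfl⟩)
  rw [hpp, GF.unique hp₂ hsecond, Fintype.sum_sigma]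
  congr 1
  refine Finset.sum_congr rfl fun k _ => ?_
  rw [hqe k, Finset.mul_sum]
  refine Finset.sum_congr rfl fun j _ => ?_
  rw [pow_add, mul_comm]

/-- DC2: characters of an orthogonal complement -/
theorem CharRel.compl {N : Obj} (hN : Nice N) {d : ℕ} {Q : Wg → Polynomial ℕ}
    (hQ : CharRel d N Q) {P : Obj} (hPW : ∀ i, InW (P.π i))
    (i : P.M →ₗ[Rg] N.M) (p : N.M →ₗ[Rg] P.M)
    (hi : BiMap i) (hp : BiMap p) (hid : DegMap i 0) (hpd : DegMap p 0) (hpi : ∀ m, p (i m) = m)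
    {K : ℕ} (O : Fin K → Obj) (hO : ∀ k, Nice (O k)) (dk : Fin K → ℕ)
    (R : Fin K → Wg → Polynomial ℕ) (hR : ∀ k, CharRel (dk k) (O k) (R k)) (f : Fin K → ℕ)
    (hf : ∀ k, dk k + 2 * f k = d)
    (φ : ∀ k, (O k).M →ₗ[Rg] N.M) (ψ : ∀ k, N.M →ₗ[Rg] (O k).M)
    (hφ : ∀ k, BiMap (φ k) ∧ DegMap (φ k) (f k)) (hψ : ∀ k, BiMap (ψ k) ∧
      DegMap (ψ k) (-(f k : ℤ)))
    (h1 : ∀ k b, ψ k (φ k b) = b) (h2 : ∀ k l, k ≠ l → ∀ b, ψ k (φ l b) = 0)
    (h3 : ∀ k m, ψ k (i m) = 0) (h4 : ∀ k b, p (φ k b) = 0)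
    (h5 : ∀ m, m = i (p m) + ∑ k, φ k (ψ k m)) :
    ∃ S : Wg → Polynomial ℕ, CharRel d P S ∧
      ∀ y, Q y = S y + ∑ k, Polynomial.X ^ (f k) * R k y := by
  have hup := fun y => dc2_stalk i p hi hp hid hpd hpi O f φ ψ hφ (fun k => (hψ k).1) h1 h2 h3 h5
    (hQ.up y) (fun k => (hR k).up y)
  have hlo := fun y => dc2_stalk i p hi hp hid hpd hpi O f φ ψ hφ (fun k => (hψ k).1) h1 h2 h3 h5
    (hQ.lo y) (fun k => (hR k).lo y)
  have hS : ∀ y, ∃ S : Polynomial ℕ, GF (P.Dsub (Dn) y) (Polynomial.X ^ (len y) * S) ∧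
      Q y = S + ∑ k, Polynomial.X ^ (f k) * R k y := by
    intro y
    obtain ⟨p₁, hp₁, hpq⟩ := hup y
    have h : Polynomial.X ^ (len y) * Q y =
        p₁ + Polynomial.X ^ (len y) * ∑ k, Polynomial.X ^ (f k) * R k y := by
      rw [hpq, Finset.mul_sum]
      congr 1
      refine Finset.sum_congr rfl fun k _ => ?_
      ring
    have hlow : ∀ j < len y, p₁.coeff j = 0 := by
      intro j hj
      have := congrArg (fun q => Polynomial.coeff q j) h
      simp only [Polynomial.coeff_add, Polynomial.coeff_X_pow_mul', if_neg (not_le.2 hj)] at this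
      omega
    have hdvd : Polynomial.X ^ (len y) ∣ p₁ := Polynomial.X_pow_dvd_iff.2 hlow
    obtain ⟨S, hS⟩ := hdvd
    refine ⟨S, hS ▸ hp₁, ?_⟩
    rw [hS, ← mul_add] at h
    ext j
    have := congrArg (fun q => Polynomial.coeff q (j + len y)) h
    simpa only [Polynomial.coeff_X_pow_mul] using this
  choose S hS1 hS2 using hS
  refine ⟨S, ⟨hS1, ?_, ?_⟩, hS2⟩
  · intro y
    obtain ⟨p₁, hp₁, hpq⟩ := hlo y
    have hk : ∀ k, (Polynomial.X ^ (f k) * R k y).reflect (d - len y) =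
        Polynomial.X ^ (f k) * (R k y).reflect (dk k - len y) := by
      intro k
      by_cases h0 : R k y = 0
      · rw [h0]; simp
      · have hd := (hR k).deg y h0
        have hfk := hf k
        rw [dc2_reflect (R k y) (by omega) (by omega)]
        congr 2
        omega
    have h : (Q y).reflect (d - len y) = (S y).reflect (d - len y) +
        ∑ k, Polynomial.X ^ (f k) * (R k y).reflect (dk k - len y) := by
      conv_lhs => rw [hS2 y]
      rw [Polynomial.reflect_add]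
      congr 1
      rw [← Finset.sum_congr rfl (fun k _ => hk k)]
      ext j
      simp only [Polynomial.coeff_reflect, Polynomial.finsetSum_coeff]
    rw [hpq] at h
    have : p₁ = (S y).reflect (d - len y) := by
      ext j
      have := congrArg (fun q => Polynomial.coeff q j) h
      simp only [Polynomial.coeff_add] at this
      omega
    rw [← this]
    exact hp₁
  · intro y hy
    have h1 : (S y).natDegree ≤ (Q y).natDegree := by
      apply Polynomial.le_natDegree_of_ne_zero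
      have h2 : (S y).coeff (S y).natDegree ≠ 0 := by
        rw [← Polynomial.leadingCoeff]
        exact Polynomial.leadingCoeff_ne_zero.2 hy
      rw [hS2 y, Polynomial.coeff_add]
      omega
    have h2 : Q y ≠ 0 := by
      intro h0
      apply hy
      ext j
      have := congrArg (fun q => Polynomial.coeff q j) (hS2 y)
      rw [h0, Polynomial.coeff_add, Polynomial.coeff_zero] at this
      rw [Polynomial.coeff_zero]
      omega
    have := hQ.deg y h2
    omega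

end EW
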