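import Mathlib
import Pool.Agent.EW.HV1
import Pool.Agent.EW.HV2
import Pool.Agent.EW.QT1

/-!
# HV2f: uniqueness of KL objects up to isometry (MP_d13a5e_al)
-/

open MvPolynomial

namespace EW

variable [Dat]

theorem KLObj.unique {x : Wg} (hx : InW x) (B B' : KLObj x) :
    ∃ (φ : B.O.M →ₗ[Rg] B'.O.M) (ψ : B'.O.M →ₗ[Rg] B.O.M), BiMap φ ∧ BiMap ψ ∧
      DegMap φ 0 ∧ DegMap ψ 0 ∧ (∀ m, ψ (φ m) = m) ∧ (∀ m, φ (ψ m) = m) ∧
      ∀ a b, B'.Fm.F (φ a) (φ b) = B.Fm.F a b :=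
  KLObj.unique_of (fun B φ h1 h2 => KLObj.hom_scalar hx B φ h1 h2)
    (fun B _ hm => Frm.top B.nice B.Fm (Nat.lt_succ_self _) hm) B B'

theorem KLObj.P_unique {x : Wg} (hx : InW x) (B B' : KLObj x) : B.P = B'.P :=
  KLObj.P_unique_of B B' (KLObj.unique hx B B')

end EW
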