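import Mathlib
import Pool.Agent.EW.CDefs3
import Pool.Agent.EW.DC1

/-!
# Part C (C10): the projection onto the orthogonal complement of a family of summands
-/

open MvPolynomial
open KLFin

namespace EW

variable [Dat]

theorem DC5.neg_one_pow_C (k : ℕ) : (-1 : Rg) ^ k = C ((-1 : ℝ) ^ k) := by
  simp

theorem DC5.sq (k : ℕ) : (-1 : Rg) ^ k * (-1 : Rg) ^ k = 1 := by
  rw [← mul_pow]; simp

/-- the projection `m - ∑ (-1)^f φ ψ m` -/
theorem DC5.idem {N : Obj} {d : ℕ} (G : Frm N d) {K : ℕ} (O : Fin K → Obj) (dk : Fin K → ℕ)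
    (Fk : ∀ k, Frm (O k) (dk k)) (f : Fin K → ℕ)
    (φ : ∀ k, (O k).M →ₗ[Rg] N.M) (ψ : ∀ k, N.M →ₗ[Rg] (O k).M)
    (h2 : ∀ k, BiMap (φ k) ∧ DegMap (φ k) (f k) ∧ BiMap (ψ k) ∧ DegMap (ψ k) (-(f k : ℤ)))
    (h3 : ∀ k m b, (Fk k).F (ψ k m) b = G.F m (φ k b))
    (h4 : ∀ k b, ψ k (φ k b) = (-1 : Rg) ^ (f k) • b)
    (h5 : ∀ k l, k ≠ l → ∀ b, ψ k (φ l b) = 0) :
    ∃ q : N.M →ₗ[Rg] N.M, BiMap q ∧ DegMap q 0 ∧ (∀ m, q (q m) = q m) ∧
      (∀ a b, G.F (q a) b = G.F a (q b)) ∧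
      (∀ m, m = q m + ∑ k, (-1 : Rg) ^ (f k) • φ k (ψ k m)) ∧
      (∀ k b, q (φ k b) = 0) ∧ (∀ k m, ψ k (q m) = 0) ∧
      (∀ m ∈ N.dg 0, (∀ k, 0 < f k) → q m = m) := by
  classical
  let q : N.M →ₗ[Rg] N.M :=
    LinearMap.id - ∑ k, (-1 : Rg) ^ (f k) • (φ k ∘ₗ ψ k)
  have hq : ∀ m, q m = m - ∑ k, (-1 : Rg) ^ (f k) • φ k (ψ k m) := by
    intro m
    change m - (∑ k, (-1 : Rg) ^ (f k) • (φ k ∘ₗ ψ k)) m = _
    rw [LinearMap.sum_apply]
    rfl
  have hψq : ∀ k m, ψ k (q m) = 0 := by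
    intro k m
    rw [hq, map_sub, map_sum, Finset.sum_eq_single k]
    · rw [map_smul, h4, smul_smul, DC5.sq, one_smul, sub_self]
    · intro l _ hl
      rw [map_smul, h5 k l hl.symm, smul_zero]
    · intro h; exact absurd (Finset.mem_univ _) h
  have hqφ : ∀ k b, q (φ k b) = 0 := by
    intro k b
    rw [hq, Finset.sum_eq_single k]
    · rw [h4, map_smul, smul_smul, DC5.sq, one_smul, sub_self]
    · intro l _ hl
      rw [h5 l k hl, map_zero, smul_zero]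
    · intro h; exact absurd (Finset.mem_univ _) h
  refine ⟨q, ?_, ?_, ?_, ?_, ?_, hqφ, hψq, ?_⟩
  · intro j m
    rw [hq, hq, map_sub, map_sum]
    congr 1
    refine Finset.sum_congr rfl fun k _ => ?_
    rw [(h2 k).2.2.1 j m, (h2 k).1 j, map_smul]
  · intro i a ha
    refine ⟨fun j hj => ?_, fun h => by omega⟩
    have hji : j = i := by omega
    subst hji
    rw [hq]
    refine Submodule.sub_mem _ ha (Submodule.sum_mem _ fun k _ => ?_)
    rw [DC5.neg_one_pow_C, DC1.C_smul_eq]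
    refine Submodule.smul_mem _ _ ?_
    rcases Nat.lt_or_ge j (f k) with h | h
    · rw [((h2 k).2.2.2 j a ha).2 (by omega), map_zero]
      exact Submodule.zero_mem _
    · exact ((h2 k).2.1 (j - f k) (ψ k a) (((h2 k).2.2.2 j a ha).1 _ (by omega))).1 j (by omega)
  · intro m
    conv_lhs => rw [hq]
    have : ∑ k, (-1 : Rg) ^ (f k) • φ k (ψ k (q m)) = 0 := by
      refine Finset.sum_eq_zero fun k _ => ?_
      rw [hψq, map_zero, smul_zero]
    rw [this, sub_zero]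
  · intro a b
    have e1 : ∀ a b, G.F (q a) b = G.F a b -
        ∑ k, (-1 : Rg) ^ (f k) * (Fk k).F (ψ k a) (ψ k b) := by
      intro a b
      rw [hq, map_sub, LinearMap.sub_apply, map_sum, LinearMap.sum_apply]
      congr 1
      refine Finset.sum_congr rfl fun k _ => ?_
      rw [DC5.neg_one_pow_C, DC1.F_C, G.symm, ← h3, (Fk k).symm]
    rw [e1, G.symm a (q b), e1, G.symm b a]
    congr 1
    refine Finset.sum_congr rfl fun k _ => ?_
    rw [(Fk k).symm]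
  · intro m
    rw [hq, sub_add_cancel]
  · intro m hm hf
    rw [hq]
    have : ∑ k, (-1 : Rg) ^ (f k) • φ k (ψ k m) = 0 := by
      refine Finset.sum_eq_zero fun k _ => ?_
      rw [((h2 k).2.2.2 0 m hm).2 (by have := hf k; omega), map_zero, smul_zero]
    rw [this, sub_zero]

end EW
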