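import Mathlib
import Pool.Agent.EW.CDefs3

/-!
# Part C (C10): reindexing of a decomposition
-/

open MvPolynomial
open KLFin

namespace EW

variable [Dat] {s : Sg}

/-- a decomposition indexed by a finite type -/
theorem DC5.decProp_of {x : Wg} (B : KLObj x) (G : Frm (theta s B.O) (len x + 1))
    {ι : Type} [Fintype ι] (u : ι → Wg) (Bu : ∀ k, KLObj (u k)) (f : ι → ℕ)
    (φ : ∀ k, (Bu k).O.M →ₗ[Rg] (theta s B.O).M)
    (ψ : ∀ k, (theta s B.O).M →ₗ[Rg] (Bu k).O.M)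
    (h1 : ∀ k, InW (u k) ∧ len (u k) + 2 * f k = len x + 1)
    (h2 : ∀ k, BiMap (φ k) ∧ DegMap (φ k) (f k))
    (h3 : ∀ k, BiMap (ψ k) ∧ DegMap (ψ k) (-(f k : ℤ)))
    (h4 : ∀ k m b, (Bu k).Fm.F (ψ k m) b = G.F m (φ k b))
    (h5 : ∀ k b, ψ k (φ k b) = (-1 : Rg) ^ (f k) • b)
    (h6 : ∀ k l, k ≠ l → ∀ b, ψ k (φ l b) = 0)
    (h7 : ∀ m, m = ∑ k, (-1 : Rg) ^ (f k) • φ k (ψ k m))
    (h8 : ∃ k₀, u k₀ = x * sw s ∧ f k₀ = 0) : DecProp s B G := by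
  classical
  let e := (Fintype.equivFin ι).symm
  obtain ⟨k₀, hk₀, hk₁⟩ := h8
  refine ⟨Fintype.card ι, fun k => u (e k), fun k => Bu (e k), fun k => f (e k),
    fun k => φ (e k), fun k => ψ (e k), fun k => h1 _, fun k => h2 _, fun k => h3 _,
    fun k => h4 _, fun k => h5 _, fun k l hkl => h6 _ _ (fun h => hkl (e.injective h)),
    fun m => ?_, ⟨e.symm k₀, ?_, ?_⟩⟩
  · conv_lhs => rw [h7 m]
    exact (Equiv.sum_comp e (fun k => (-1 : Rg) ^ (f k) • φ k (ψ k m))).symm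
  · change u (e (e.symm k₀)) = _
    rw [Equiv.apply_symm_apply, hk₀]
  · change f (e (e.symm k₀)) = _
    rw [Equiv.apply_symm_apply, hk₁]

end EW
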