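import Mathlib
import Pool.Agent.EW.CDefs3
import Pool.Agent.EW.CB1
import Pool.Agent.EW.CD
import Pool.Agent.EW.CE1
import Pool.Agent.EW.CE2
import Pool.Agent.EW.FR1
import Pool.Agent.EW.FR2
import Pool.Agent.EW.QT1
import Pool.Agent.EW.HV1
import Pool.Agent.EW.HV2f
import Pool.Agent.EW.DP2

/-!
# Part C, block WP: the recursion for the weak Lefschetz family `W` (MP_d13a5e_al)
-/

open MvPolynomial
open KLFin

namespace EW

variable [Dat] {s : Sg}

/-! ### composition lemmas -/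

theorem wp_biMap_comp {O P Q : Obj} {φ : O.M →ₗ[Rg] P.M} {ψ : P.M →ₗ[Rg] Q.M}
    (hφ : BiMap φ) (hψ : BiMap ψ) : BiMap (ψ.comp φ) := by
  intro j m
  simp only [LinearMap.comp_apply]
  rw [hφ j m, hψ j (φ m)]

theorem wp_degMap_comp {O P Q : Obj} {φ : O.M →ₗ[Rg] P.M} {ψ : P.M →ₗ[Rg] Q.M}
    {e f g : ℤ} (hφ : DegMap φ e) (hψ : DegMap ψ f) (hg : g = e + f) :
    DegMap (ψ.comp φ) g := by
  intro i a ha
  obtain ⟨h1, h2⟩ := hφ i a ha
  simp only [LinearMap.comp_apply]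
  by_cases hi : (i : ℤ) + e < 0
  · rw [h2 hi, map_zero]
    exact ⟨fun j _ => Submodule.zero_mem _, fun _ => rfl⟩
  · obtain ⟨k, hk⟩ := Int.eq_ofNat_of_zero_le (not_lt.1 hi)
    have h3 := h1 k hk.symm
    obtain ⟨h4, h5⟩ := hψ k (φ a) h3
    refine ⟨fun j hj => h4 j (by omega), fun hj => h5 (by omega)⟩

theorem wp_degMap_smul {O P : Obj} {φ : O.M →ₗ[Rg] P.M} {e : ℤ} (c : ℝ)
    (hφ : DegMap φ e) : DegMap ((C c : Rg) • φ) e := by
  intro i a ha
  obtain ⟨h1, h2⟩ := hφ i a ha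
  refine ⟨fun j hj => ?_, fun hj => ?_⟩
  · have := h1 j hj
    rw [LinearMap.smul_apply, C_smul_M]
    exact (P.dg j).smul_mem c this
  · rw [LinearMap.smul_apply, h2 hj, smul_zero]

theorem wp_biMap_smul {O P : Obj} {φ : O.M →ₗ[Rg] P.M} (f : Rg)
    (hφ : BiMap φ) : BiMap (f • φ) := by
  intro j m
  rw [LinearMap.smul_apply, LinearMap.smul_apply, hφ j m, map_smul]

theorem wp_rmul_dg {O : Obj} {f : Rg} {k d : ℕ} (hf : f.IsHomogeneous k) {m : O.M}
    (hm : m ∈ O.dg d) : O.rmul f m ∈ O.dg (k + d) := by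
  intro i
  rw [Obj.rmul_val]
  exact (act_homog hf).mul (hm i)

theorem wp_map_MRs {O P : Obj} {φ : O.M →ₗ[Rg] P.M} (hφ : BiMap φ) {m : O.M}
    (hm : m ∈ O.MRs s) : φ m ∈ P.MRs s := by
  have h : O.MRs s ≤ (P.MRs s).comap φ := by
    unfold Obj.MRs
    rw [Submodule.span_le]
    rintro _ ⟨f, a, hf, hf0, rfl⟩
    refine Submodule.mem_comap.2 ?_
    rw [BiMap.rmul hφ]
    exact Submodule.subset_span ⟨f, φ a, hf, hf0, rfl⟩
  exact h hm

/-! ### families of weak Lefschetz maps -/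

/-- a member of a weak Lefschetz family -/
structure WMap {x : Wg} (B : KLObj x) where
  z : Wg
  Bz : KLObj z
  e : ℕ
  d : B.O.M →ₗ[Rg] Bz.O.M
  hz : InW z ∧ len z + 2 * e + 1 = len x
  hb : BiMap d
  hd : DegMap d (-(e : ℤ))

/-- its contribution to the form -/
noncomputable def WMap.form {x : Wg} {B : KLObj x} (W : WMap B) (b b' : B.O.M) : Rg :=
  (-1 : Rg) ^ W.e * W.Bz.Fm.F (W.d b) (W.d b')

theorem WProp_of_family {x : Wg} (B : KLObj x) {ι : Type} [Fintype ι] (W : ι → WMap B)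
    (h1 : ∀ b b', ∑ k, (W k).form b b' =
      B.Fm.F (rho • b) b' - act x⁻¹ rho * B.Fm.F b b')
    (h2 : ∀ i < len x, ∀ b ∈ B.O.dg i, (∀ k, (W k).d b ∈ (W k).Bz.O.MRp) → b ∈ B.O.MRp) :
    WProp B := by
  classical
  let E := Fintype.equivFin ι
  refine ⟨Fintype.card ι, fun k => (W (E.symm k)).z, fun k => (W (E.symm k)).Bz,
    fun k => (W (E.symm k)).e, fun k => (W (E.symm k)).d, fun k => (W (E.symm k)).hz,
    fun k => ⟨(W (E.symm k)).hb, (W (E.symm k)).hd⟩, ?_, ?_⟩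
  · intro b b'
    rw [← h1 b b', ← Equiv.sum_comp E.symm]
    rfl
  · intro i hi b hb h
    apply h2 i hi b hb
    intro k
    obtain ⟨j, rfl⟩ := E.symm.surjective k
    exact h j

theorem WProp.family {x : Wg} {B : KLObj x} (h : WProp B) :
    ∃ (K : ℕ) (W : Fin K → WMap B), (∀ b b', ∑ k, (W k).form b b' =
      B.Fm.F (rho • b) b' - act x⁻¹ rho * B.Fm.F b b') ∧
    (∀ i < len x, ∀ b ∈ B.O.dg i, (∀ k, (W k).d b ∈ (W k).Bz.O.MRp) → b ∈ B.O.MRp) := by
  obtain ⟨K, z, Bz, e, d, h1, h2, h3, h4⟩ := h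
  exact ⟨K, fun k => ⟨z k, Bz k, e k, d k, h1 k, (h2 k).1, (h2 k).2⟩, h3, h4⟩

theorem WProp.transfer {x : Wg} (hx : InW x) {B : KLObj x} (h : WProp B)
    (B' : KLObj x) : WProp B' := by
  obtain ⟨K, W, h1, h2⟩ := h.family
  obtain ⟨φ, ψ, hφ, hψ, dφ, dψ, hψφ, hφψ, hiso⟩ := KLObj.unique hx B B'
  have hF : ∀ a b : B'.O.M, B.Fm.F (ψ a) (ψ b) = B'.Fm.F a b := by
    intro a b
    rw [← hiso, hφψ, hφψ]
  refine WProp_of_family B' (fun k => ⟨(W k).z, (W k).Bz, (W k).e, (W k).d.comp ψ, (W k).hz,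
    wp_biMap_comp hψ (W k).hb, wp_degMap_comp dψ (W k).hd (by ring)⟩) ?_ ?_
  · intro b b'
    have := h1 (ψ b) (ψ b')
    rw [← map_smul, hF, hF] at this
    rw [← this]
    rfl
  · intro i hi b hb hk
    have h3 : ψ b ∈ B.O.MRp := h2 i hi (ψ b) ((dψ i b hb).1 i (by ring)) hk
    have h4 := BiMap.MRp hφ h3
    rwa [hφψ] at h4

/-! ### the maps `d ⊗ 1` and their decompositions -/

/-- the composite `B → θ_s B_y → θ_s B_z`, decomposed; the sum of the forms of the new maps is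
the pull back of the form of `θ_s B_z` -/
theorem wp_piece_up {y : Wg} (hs : Smp s) {By : KLObj y}
    {x : Wg} (hlen : len x = len y + 1) (B : KLObj x)
    (i : B.O.M →ₗ[Rg] (theta s By.O).M) (hi : BiMap i) (hid : DegMap i 0)
    (W : WMap By) (Gz : Frm (theta s W.Bz.O) (len W.z + 1))
    (ψ : (theta s By.O).M →ₗ[Rg] (theta s W.Bz.O).M) (hψ : BiMap ψ)
    (hψd : DegMap ψ (-(W.e : ℤ)))
    (hψe : ∀ a b, ψ (el s a b) = el s (W.d a) (W.d b))
    (hdec : DecProp s W.Bz Gz) :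
    ∃ (m : ℕ) (V : Fin m → WMap B),
      (∀ b b', ∑ j, (V j).form b b' = (-1 : Rg) ^ W.e * Gz.F (ψ (i b)) (ψ (i b'))) ∧
      (∀ b a c, i b = el s a c → (∀ j, (V j).d b ∈ (V j).Bz.O.MRp) →
        W.d a ∈ W.Bz.O.MRs s) := by
  obtain ⟨K, u, Bu, f, φ, ψ', h1, h2, h3, h4, h5, h6, h7, -⟩ := hdec
  have hz := W.hz
  refine ⟨K, fun j => ⟨u j, Bu j, W.e + f j, (ψ' j).comp (ψ.comp i), ⟨(h1 j).1, ?_⟩,
    wp_biMap_comp (wp_biMap_comp hi hψ) (h3 j).1,
    wp_degMap_comp (wp_degMap_comp hid hψd rfl) (h3 j).2 (by push_cast; ring)⟩, ?_, ?_⟩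
  · have := (h1 j).2
    omega
  · intro b b'
    have key : ∀ v v', Gz.F v v' = ∑ j, (-1 : Rg) ^ (f j) * (Bu j).Fm.F (ψ' j v) (ψ' j v') := by
      intro v v'
      conv_lhs => rw [h7 v]
      rw [map_sum, LinearMap.sum_apply]
      apply Finset.sum_congr rfl
      intro j _
      have e1 : Gz.F ((-1 : Rg) ^ f j • φ j (ψ' j v)) v' =
          (-1 : Rg) ^ f j * Gz.F (φ j (ψ' j v)) v' := by
        have hC : ((-1 : Rg) ^ f j) = C ((-1 : ℝ) ^ f j) := by simp
        rw [hC, C_smul_M, map_smul, LinearMap.smul_apply, MvPolynomial.smul_eq_C_mul]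
      rw [e1, Gz.symm (φ j (ψ' j v)) v', ← h4 j v' (ψ' j v), (Bu j).Fm.symm]
    rw [key, Finset.mul_sum]
    apply Finset.sum_congr rfl
    intro j _
    simp only [WMap.form, LinearMap.comp_apply, pow_add, mul_assoc]
  · intro b a c hb hj
    have h8 : ψ (i b) ∈ (theta s W.Bz.O).MRp := by
      rw [h7 (ψ (i b))]
      apply Submodule.sum_mem
      intro j _
      exact Submodule.smul_mem _ _ (BiMap.MRp (h2 j).1 (hj j))
    rw [hb, hψe] at h8
    exact (el_mem_MRp hs _ _).1 h8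

/-- for a descent `s` of `z` the composite has values in an isotropic submodule -/
theorem wp_piece_dn {y : Wg} (hs : Smp s) {By : KLObj y}
    {x : Wg} (hx : InW x) (hlen : len x = len y + 1) (B : KLObj x)
    (i : B.O.M →ₗ[Rg] (theta s By.O).M) (hi : BiMap i) (hid : DegMap i 0)
    (W : WMap By) (Gz : Frm (theta s W.Bz.O) (len W.z + 1)) (hGz : IsThetaFrm s W.Bz.Fm Gz)
    (ψ : (theta s By.O).M →ₗ[Rg] (theta s W.Bz.O).M) (hψ : BiMap ψ)
    (hψd : DegMap ψ (-(W.e : ℤ)))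
    (hψe : ∀ a b, ψ (el s a b) = el s (W.d a) (W.d b))
    (hD : DProp W.Bz s) :
    (∀ b b', Gz.F (ψ (i b)) (ψ (i b')) = 0) ∧
      (∀ b a c, i b = el s a c → a + By.O.rmul (al 1 s) c ∈ By.O.MRp →
        W.d a ∈ W.Bz.O.MRs s) := by
  obtain ⟨D, h1, h2, h3, h4, h5⟩ := hD
  have hne : Smp s := hs
  have hz := W.hz
  -- the quotient map
  obtain ⟨q, hq⟩ := exists_lin_of_el (s := s) (O := W.Bz.O) hne D ((W.Bz.O.rmul (al 1 s)).comp D)
  have hq' : ∀ a b, q (el s a b) = D a + W.Bz.O.rmul (al 1 s) (D b) := hq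
  have hinv : act (sw s) (al 1 s * al 1 s) = al 1 s * al 1 s := by
    rw [map_mul, act_sw_al]; ring
  have hqb : BiMap q := by
    intro j m
    obtain ⟨a, b, rfl⟩ := el_surj m
    have e1 : ∀ (O : Obj) (m : O.M), O.rmul (X j) m =
        O.rmul (uPart s j) m + (C (vPart s j) : Rg) • O.rmul (al 1 s) m := by
      intro O m
      rw [X_eq_uv s j, O.rmul_add, O.rmul_mul]
      congr 1
      ext1; funext i
      simp
    rw [e1, e1, map_add, map_smul, rmul_el_inv hne (act_sw_uPart s j), rmul_el_al hne, hq', hq',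
      hq', h2 _ (act_sw_uPart s j), h2 _ (act_sw_uPart s j), h2 _ hinv, W.Bz.O.rmul_mul, map_add,
      map_add, ← W.Bz.O.rmul_mul, ← W.Bz.O.rmul_mul, ← W.Bz.O.rmul_mul,
      mul_comm (al 1 s) (uPart s j)]
    congr 2
    rw [add_comm]
  have hqd : DegMap q (-1) := by
    intro t m hm
    obtain ⟨a, b, rfl⟩ := el_surj m
    rw [hq']
    cases t with
    | zero =>
      obtain ⟨ha, rfl⟩ := (el_mem_dg0 hne a b).1 hm
      rw [(h3 0 a ha).2 (by norm_num), map_zero, map_zero, add_zero]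
      exact ⟨fun j hj => Submodule.zero_mem _, fun _ => rfl⟩
    | succ t =>
      obtain ⟨ha, hb⟩ := (el_mem_dg hne a b t).1 hm
      refine ⟨fun j hj => ?_, fun hj => ?_⟩
      · have hjt : j = t := by push_cast at hj; omega
        subst hjt
        refine Submodule.add_mem _ ((h3 _ a ha).1 j (by push_cast; ring)) ?_
        cases j with
        | zero =>
          rw [(h3 0 b hb).2 (by norm_num), map_zero]
          exact Submodule.zero_mem _
        | succ j =>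
          have h6 := (h3 _ b hb).1 j (by push_cast; ring)
          have h7 := wp_rmul_dg (al_homog 1 s) h6
          rwa [add_comm] at h7
      · exfalso; push_cast at hj; omega
  -- the composite vanishes
  have hcomp : q.comp (ψ.comp i) = 0 := by
    by_contra hne0
    obtain ⟨h6, h7⟩ := KLObj.hom_vanish hx hz.1 B W.Bz (q.comp (ψ.comp i))
      (wp_biMap_comp (wp_biMap_comp hi hψ) hqb)
      (wp_degMap_comp (wp_degMap_comp hid hψd rfl) hqd rfl) hne0
    have h8 : x = W.z := h7 (by rw [hlen]; push_cast; omega)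
    have h9 := congrArg (len) h8
    omega
  have hval : ∀ b a c, i b = el s a c → D (W.d a) = 0 ∧ D (W.d c) = 0 := by
    intro b a c hb
    have h6 : q (ψ (i b)) = 0 := by
      have := congrArg (fun f => f b) hcomp
      simpa using this
    rw [hb, hψe, hq'] at h6
    have h7 : D (W.d c) = 0 := by
      have h8 := congrArg D h6
      rw [map_add, h4, zero_add, map_zero] at h8
      have h9 := h1 (D (W.d c))
      rw [h8, h4, map_zero, add_zero] at h9
      exact h9.symm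
    rw [h7, map_zero, add_zero] at h6
    exact ⟨h6, h7⟩
  refine ⟨?_, ?_⟩
  · intro b b'
    obtain ⟨a, c, hb⟩ := el_surj (i b)
    obtain ⟨a', c', hb'⟩ := el_surj (i b')
    obtain ⟨e1, e2⟩ := hval b a c hb
    obtain ⟨e3, e4⟩ := hval b' a' c' hb'
    rw [hb, hb', hψe, hψe, hGz]
    have hdem : ∀ u u', D u = 0 → D u' = 0 → dem s (W.Bz.Fm.F u u') = 0 := by
      intro u u' hu hu'
      rw [h5, hu, hu']
      simp
    rw [hdem _ _ e1 e3, hdem _ _ e1 e4, hdem _ _ e2 e3, hdem _ _ e2 e4]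
    ring
  · intro b a c hb hdot
    obtain ⟨e1, e2⟩ := hval b a c hb
    have h6 := BiMap.MRp W.hb hdot
    rw [map_add, BiMap.rmul W.hb] at h6
    obtain ⟨n₀, n₁, -, -, h7, h8, -, h10⟩ := DProp.split W.Bz.nice hs D h1 h2 h4
      (W.d a + W.Bz.O.rmul (al 1 s) (W.d c))
    have h11 : n₁ = W.d c := by
      have h12 := h1 (W.d c)
      rw [e2, map_zero, add_zero] at h12
      rw [h8, map_add, e1, zero_add, h12]
    have h13 : n₀ = W.d a := by
      rw [h11] at h7
      exact (add_right_cancel h7).symm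
    have h14 : W.d a ∈ W.Bz.O.MRp := by rw [← h13]; exact h10.1 h6
    obtain ⟨m₀, m₁, -, -, h15, h16, h17, -⟩ := DProp.split W.Bz.nice hs D h1 h2 h4 (W.d a)
    rw [e1] at h16
    rw [h16, map_zero, add_zero] at h15
    rw [h17, ← h15, h16]
    exact ⟨h14, Submodule.zero_mem _⟩

/-- the identity for the form on `θ_s B_y` -/
theorem wp_theta_identity {y : Wg} (hs : Smp s) (By : KLObj y)
    {K : ℕ} (W : Fin K → WMap By)
    (h1 : ∀ b b', ∑ k, (W k).form b b' =
      By.Fm.F (rho • b) b' - act y⁻¹ rho * By.Fm.F b b')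
    (G : Frm (theta s By.O) (len y + 1)) (hG : IsThetaFrm s By.Fm G)
    (Gz : ∀ k, Frm (theta s (W k).Bz.O) (len (W k).z + 1))
    (hGz : ∀ k, IsThetaFrm s (W k).Bz.Fm (Gz k))
    (ψ : ∀ k, (theta s By.O).M →ₗ[Rg] (theta s (W k).Bz.O).M)
    (hψe : ∀ k a b, ψ k (el s a b) = el s ((W k).d a) ((W k).d b))
    (dot : (theta s By.O).M →ₗ[Rg] By.O.M)
    (hdot : ∀ a b, dot (el s a b) = a + By.O.rmul (al 1 s) b) {c₁ : ℝ}
    (hc₁ : dem s (act y⁻¹ rho) = C c₁) (m m' : (theta s By.O).M) :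
    ∑ k, (-1 : Rg) ^ (W k).e * (Gz k).F (ψ k m) (ψ k m') +
        C c₁ * By.Fm.F (dot m) (dot m') =
      G.F (rho • m) m' - act (y * sw s)⁻¹ rho * G.F m m' := by
  obtain ⟨a, c, rfl⟩ := el_surj m
  obtain ⟨a', c', rfl⟩ := el_surj m'
  have hr : act (y * sw s)⁻¹ rho = act (sw s) (act y⁻¹ rho) := by
    have h0 : (sw s)⁻¹ = sw s := CB1.sw_inv s
    rw [mul_inv_rev, act_mul, h0]
  have hdemneg : ∀ f : Rg, dem s (-f) = - dem s f := by
    intro f
    have := dem_smul hs (-1) f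
    simpa using this
  have hdemsub : ∀ f g : Rg, dem s (f - g) = dem s f - dem s g := by
    intro f g
    rw [sub_eq_add_neg, dem_add hs, hdemneg, ← sub_eq_add_neg]
  have hdemsum : ∀ g : Fin K → Rg, dem s (∑ k, g k) = ∑ k, dem s (g k) := by
    intro g
    exact map_sum (demL s hs) g Finset.univ
  have hdempow : ∀ (e : ℕ) (f : Rg), dem s ((-1 : Rg) ^ e * f) = (-1 : Rg) ^ e * dem s f := by
    intro e f
    have := dem_smul hs ((-1 : ℝ) ^ e) f
    simpa [MvPolynomial.smul_eq_C_mul] using this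
  -- `S a a'` is the Demazure operator applied to the identity for `B_y`
  have hS : ∀ u v : By.O.M, ∑ k, (-1 : Rg) ^ (W k).e * dem s ((W k).Bz.Fm.F ((W k).d u)
      ((W k).d v)) = dem s (By.Fm.F (rho • u) v) -
        (C c₁ * By.Fm.F u v +
          act (y * sw s)⁻¹ rho * dem s (By.Fm.F u v)) := by
    intro u v
    have h2 := congrArg (dem s) (h1 u v)
    rw [hdemsum, hdemsub, dem_mul hs, hc₁, ← hr] at h2
    rw [← h2]
    apply Finset.sum_congr rfl
    intro k _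
    simp only [WMap.form]
    rw [hdempow]
  have hL : ∑ k, (-1 : Rg) ^ (W k).e * (Gz k).F (ψ k (el s a c)) (ψ k (el s a' c')) =
      (∑ k, (-1 : Rg) ^ (W k).e * dem s ((W k).Bz.Fm.F ((W k).d a) ((W k).d a'))) +
      al 1 s * ((∑ k, (-1 : Rg) ^ (W k).e * dem s ((W k).Bz.Fm.F ((W k).d a) ((W k).d c'))) +
        ∑ k, (-1 : Rg) ^ (W k).e * dem s ((W k).Bz.Fm.F ((W k).d c) ((W k).d a'))) +
      al 1 s * al 1 s *
        ∑ k, (-1 : Rg) ^ (W k).e * dem s ((W k).Bz.Fm.F ((W k).d c) ((W k).d c')) := by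
    rw [← Finset.sum_add_distrib, Finset.mul_sum, Finset.mul_sum, ← Finset.sum_add_distrib,
      ← Finset.sum_add_distrib]
    apply Finset.sum_congr rfl
    intro k _
    rw [hψe, hψe, hGz k]
    ring
  rw [hL, hS, hS, hS, hS, ← el_smul, hG, hG, hdot, hdot]
  have hright : ∀ u v : By.O.M, By.Fm.F u (By.O.rmul (al 1 s) v) = al 1 s * By.Fm.F u v := by
    intro u v
    rw [By.Fm.symm, By.Fm.right, By.Fm.symm]
  rw [map_add, map_add, LinearMap.add_apply, LinearMap.add_apply, hright, By.Fm.right,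
    By.Fm.right, hright]
  ring

theorem WProp_step {y : Wg} (hy : InW y) (hs : Smp s) (hup : Up y (y * sw s))
    (By : KLObj y) (hW : WProp By)
    (G : Frm (theta s By.O) (len y + 1)) (hG : IsThetaFrm s By.Fm G)
    (B : KLObj (y * sw s)) (i : B.O.M →ₗ[Rg] (theta s By.O).M)
    (p : (theta s By.O).M →ₗ[Rg] B.O.M)
    (hip : BiMap i ∧ BiMap p ∧ DegMap i 0 ∧ DegMap p 0 ∧ (∀ m, p (i m) = m) ∧
      ∀ m b, B.Fm.F (p m) b = G.F m (i b))
    (hdec : ∀ z, InW z → len z < len y → Up z (z * sw s) → ∀ (Bz : KLObj z)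
      (Gz : Frm (theta s Bz.O) (len z + 1)), IsThetaFrm s Bz.Fm Gz → DecProp s Bz Gz)
    (hD : ∀ z, InW z → len z < len y → Up (z * sw s) z → ∀ Bz : KLObj z,
      DProp Bz s) : WProp B := by
  classical
  obtain ⟨hi, hp, hid, hpd, hpi, hadj⟩ := hip
  have hne : Smp s := hs
  have hlen := len_mul_sw hy hs hup
  have hx : InW (y * sw s) := hy.mul hs.inW
  obtain ⟨K, W, h1, h2⟩ := hW.family
  -- the maps `d_k ⊗ 1` and the forms
  have hex := fun k => exists_thetaMap (s := s) hne (W k).d (W k).hb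
  choose ψ hψe hψb hψd using hex
  have hex2 := fun k => exists_thetaFrm (W k).Bz.Fm hne
  choose Gz hGz using hex2
  obtain ⟨dot, hdot, hdotb, hdotd⟩ := exists_dot (s := s) (O := By.O) hne
  -- pieces
  have hpiece : ∀ k, ∃ (m : ℕ) (V : Fin m → WMap B),
      (∀ b b', ∑ j, (V j).form b b' =
        (-1 : Rg) ^ (W k).e * (Gz k).F (ψ k (i b)) (ψ k (i b'))) ∧
      (∀ b a c, i b = el s a c → (∀ j, (V j).d b ∈ (V j).Bz.O.MRp) →
        a + By.O.rmul (al 1 s) c ∈ By.O.MRp → (W k).d a ∈ (W k).Bz.O.MRs s) := by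
    intro k
    have hz := (W k).hz
    rcases lt_trichotomy (len (W k).z) (len ((W k).z * sw s)) with h | h | h
    · have hu := (up_sw_iff hz.1 hs).2 h
      obtain ⟨m, V, h3, h4⟩ := wp_piece_up hs hlen B i hi hid (W k) (Gz k) (ψ k) (hψb k)
        (hψd k _ (W k).hd) (hψe k) (hdec _ hz.1 (by omega) hu _ _ (hGz k))
      exact ⟨m, V, h3, fun b a c hb hj _ => h4 b a c hb hj⟩
    · exact absurd h.symm (len_sw_ne _ _)
    · have hu : Up ((W k).z * sw s) (W k).z := (dn_sw_iff hz.1 hs).2 h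
      obtain ⟨h3, h4⟩ := wp_piece_dn hs hx hlen B i hi hid (W k) (Gz k) (hGz k) (ψ k) (hψb k)
        (hψd k _ (W k).hd) (hψe k) (hD _ hz.1 (by omega) hu _)
      refine ⟨0, fun j => j.elim0, ?_, fun b a c hb _ hdd => h4 b a c hb hdd⟩
      intro b b'
      rw [h3 b b', mul_zero]
      simp
  choose m V hV1 hV2 using hpiece
  obtain ⟨c₁, hcpos, hc₁⟩ := dem_act_rho hne y ((up_sw_iff hy hs).1 hup)
  set c₀ : ℝ := Real.sqrt c₁ with hc₀
  have hc₀pos : 0 < c₀ := Real.sqrt_pos.2 hcpos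
  have hc₀sq : c₀ * c₀ = c₁ := Real.mul_self_sqrt hcpos.le
  let W0 : WMap B := ⟨y, By, 0, (C c₀ : Rg) • (dot.comp i), ⟨hy, by omega⟩,
    wp_biMap_smul _ (wp_biMap_comp hi hdotb),
    wp_degMap_smul _ (wp_degMap_comp hid hdotd (by simp))⟩
  refine WProp_of_family B (ι := Unit ⊕ (Σ k : Fin K, Fin (m k)))
    (Sum.elim (fun _ => W0) (fun kj => V kj.1 kj.2)) ?_ ?_
  · intro b b'
    rw [Fintype.sum_sum_type]
    simp only [Sum.elim_inl, Sum.elim_inr, Finset.univ_unique, Finset.sum_singleton]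
    rw [Fintype.sum_sigma]
    simp only [hV1]
    have h3 := wp_theta_identity hne By W h1 G hG Gz hGz ψ hψe dot hdot hc₁ (i b) (i b')
    have h4 : W0.form b b' = C c₁ *
        By.Fm.F (dot (i b)) (dot (i b')) := by
      simp only [WMap.form, W0, pow_zero, one_mul, LinearMap.smul_apply, LinearMap.comp_apply]
      rw [C_smul_M, C_smul_M, map_smul, map_smul, LinearMap.smul_apply, smul_smul, hc₀sq,
        MvPolynomial.smul_eq_C_mul]
    rw [h4, add_comm, h3]
    have e1 : B.Fm.F (rho • b) b' = G.F (rho • i b) (i b') := by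
      rw [← map_smul, ← hadj, hpi]
    have e2 : B.Fm.F b b' = G.F (i b) (i b') := by
      rw [← hadj, hpi]
    rw [e1, e2]
  · intro t ht b hb hk
    obtain ⟨a, c, hbac⟩ := el_surj (i b)
    have hib : i b ∈ (theta s By.O).dg t := (hid t b hb).1 t (by ring)
    have hd0 : a + By.O.rmul (al 1 s) c ∈ By.O.MRp := by
      have h3 : (C c₀ : Rg) • dot (i b) ∈ By.O.MRp := hk (Sum.inl ())
      rw [hbac, hdot] at h3
      have h4 := Submodule.smul_mem _ (C c₀⁻¹ : Rg) h3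
      rwa [smul_smul, ← C_mul, inv_mul_cancel₀ hc₀pos.ne', C_1, one_smul] at h4
    have hal0 : constantCoeff (al 1 s : Rg) = 0 := constantCoeff_al 1 s
    have ha : a ∈ By.O.MRp := by
      have h3 := mem_MRp_of_rmul hal0 c
      have h4 := Submodule.sub_mem _ hd0 h3
      rwa [add_sub_cancel_right] at h4
    have hda : ∀ k, (W k).d a ∈ (W k).Bz.O.MRs s := fun k =>
      hV2 k b a c hbac (fun j => hk (Sum.inr ⟨k, j⟩)) hd0
    have hfin : a ∈ By.O.MRs s → b ∈ B.O.MRp := by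
      intro h3
      have h4 : i b ∈ (theta s By.O).MRp := by
        rw [hbac]; exact (el_mem_MRp hne a c).2 h3
      have h5 := BiMap.MRp hp h4
      rwa [hpi] at h5
    rw [hbac] at hib
    cases t with
    | zero =>
      obtain ⟨ha0, -⟩ := (el_mem_dg0 hne a c).1 hib
      have := dg_zero_MRp ha0 ha
      exact hfin (by rw [this]; exact Submodule.zero_mem _)
    | succ t =>
      obtain ⟨ha1, -⟩ := (el_mem_dg hne a c t).1 hib
      obtain ⟨a₁, ha₁, h3⟩ := MRs_al By.nice hs ha ha1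
      have h4 : a₁ ∈ By.O.MRp := by
        apply h2 t (by omega) a₁ ha₁
        intro k
        rw [← MRs_al_iff (W k).Bz.nice hs, ← BiMap.rmul (W k).hb]
        have h5 := wp_map_MRs (W k).hb h3
        rw [map_sub] at h5
        have h6 := Submodule.sub_mem _ (hda k) h5
        rwa [sub_sub_cancel] at h6
      have h5 := (MRs_al_iff By.nice hs a₁).2 h4
      have h6 := Submodule.add_mem _ h3 h5
      rw [sub_add_cancel] at h6
      exact hfin h6

end EW
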