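import Mathlib
import Pool.Agent.EW.CB1
import Pool.Agent.EW.FR1
import Pool.Agent.EW.QT2
import Pool.Agent.EW.CT1
import Pool.Agent.EW.CT2
import Pool.Agent.EW.DP1
import Pool.Agent.EW.DP3
import Pool.Agent.EW.WP
import Pool.Agent.EW.HL
import Pool.Agent.EW.DC5
import Pool.Agent.EW.MN1
import Pool.Agent.EW.CDefs3

/-!
# Part C, block MN2: the induction on the length (MP_d13a5e_al)
-/

open MvPolynomial
open KLFin

namespace EW

variable [Dat] {s : Sg}

theorem Smp.mn_ne (hs : Smp s) : Smp s := hs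

theorem mn_mul_sw_sw (x : Wg) (s : Sg) : x * sw s * sw s = x := by
  rw [mul_assoc, sw_mul_sw, mul_one]

theorem mn_summand_aux {y z : Wg} (hz : z = y * sw s) {By : KLObj y}
    {G : Frm (theta s By.O) (len y + 1)} (Bk : KLObj z)
    (φk : Bk.O.M →ₗ[Rg] (theta s By.O).M) (ψk : (theta s By.O).M →ₗ[Rg] Bk.O.M) {f : ℕ}
    (hf : f = 0) (a2 : BiMap φk ∧ DegMap φk f) (a3 : BiMap ψk ∧ DegMap ψk (-(f : ℤ)))
    (a4 : ∀ m b, Bk.Fm.F (ψk m) b = G.F m (φk b))
    (a5 : ∀ b, ψk (φk b) = (-1 : Rg) ^ f • b) :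
    ∃ (B : KLObj (y * sw s)) (i : B.O.M →ₗ[Rg] (theta s By.O).M)
      (p : (theta s By.O).M →ₗ[Rg] B.O.M), BiMap i ∧ BiMap p ∧ DegMap i 0 ∧ DegMap p 0 ∧
        (∀ m, p (i m) = m) ∧ ∀ m b, B.Fm.F (p m) b = G.F m (i b) := by
  subst hz
  subst hf
  refine ⟨Bk, φk, ψk, a2.1, a3.1, ?_, ?_, fun m => ?_, a4⟩
  · simpa using a2.2
  · simpa using a3.2
  · rw [a5, pow_zero, one_smul]

/-- A KL object of type `y s` as an isometric summand of `θ_s B_y`. -/
theorem DecProp.exists_summand {y : Wg} {By : KLObj y}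
    {G : Frm (theta s By.O) (len y + 1)} (h : DecProp s By G) :
    ∃ (B : KLObj (y * sw s)) (i : B.O.M →ₗ[Rg] (theta s By.O).M)
      (p : (theta s By.O).M →ₗ[Rg] B.O.M), BiMap i ∧ BiMap p ∧ DegMap i 0 ∧ DegMap p 0 ∧
        (∀ m, p (i m) = m) ∧ ∀ m b, B.Fm.F (p m) b = G.F m (i b) := by
  obtain ⟨K, u, Bu, f, φ, ψ, h1, h2, h3, h4, h5, h6, h7, k, hk, hf⟩ := h
  exact mn_summand_aux hk (Bu k) (φ k) (ψ k) hf (h2 k) (h3 k) (h4 k) (h5 k)

/-- The step of the induction: everything except for the existence. -/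
theorem full_of_ex (x : Wg) (hx : InW x)
    (ih : ∀ z, InW z → len z < len x → Full z)
    (hex : ∀ z, InW z → len z ≤ len x → Nonempty (KLObj z)) : Full x := by
  have hW : ∀ B : KLObj x, WProp B := by
    intro B
    by_cases hx1 : x = 1
    · subst hx1
      exact WProp_one B
    · obtain ⟨s, hs, hup⟩ := exists_descent hx hx1
      obtain ⟨y, rfl⟩ : ∃ y, x = y * sw s := ⟨x * sw s, (mn_mul_sw_sw x s).symm⟩
      rw [mn_mul_sw_sw] at hup
      have hy : InW y := hup.inW' hx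
      have hF := ih y hy hup.len_lt
      obtain ⟨By⟩ := hF.ex
      obtain ⟨G, hG⟩ := exists_thetaFrm By.Fm hs.mn_ne
      obtain ⟨B0, i, p, hip⟩ := (hF.dec s hs hup By G hG).exists_summand
      have hlt : ∀ z, len z < len y → len z < len (y * sw s) := fun z hz =>
        hz.trans hup.len_lt
      exact (WProp_step hy hs hup By (hF.w By) G hG B0 i p hip
        (fun z hz hzy hzup Bz Gz hGz => (ih z hz (hlt z hzy)).dec s hs hzup Bz Gz hGz)
        (fun z hz hzy hzup Bz => (ih z hz (hlt z hzy)).d s hs hzup Bz)).transfer hx B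
  have hD : ∀ s, Smp s → Up (x * sw s) x → ∀ B : KLObj x, DProp B s := by
    intro s hs hup B
    obtain ⟨y, rfl⟩ : ∃ y, x = y * sw s := ⟨x * sw s, (mn_mul_sw_sw x s).symm⟩
    rw [mn_mul_sw_sw] at hup
    have hy : InW y := hup.inW' hx
    have hF := ih y hy hup.len_lt
    obtain ⟨By⟩ := hF.ex
    obtain ⟨G, hG⟩ := exists_thetaFrm By.Fm hs.mn_ne
    obtain ⟨B0, i, p, hip⟩ := (hF.dec s hs hup By G hG).exists_summand
    exact (DProp_of_summand hx B0 By.Fm hs G hG i p hip).transfer hx B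
  have hUp : ∀ s, Smp s → Up x (x * sw s) → ∀ (B : KLObj x)
      (G : Frm (theta s B.O) (len x + 1)), IsThetaFrm s B.Fm G →
      ∀ T, IsMid s B.O T → ∀ ζ : ℝ, 0 ≤ ζ →
      HRop (theta s B.O) (len x + 1) G.F (Lrho (theta s B.O) + ζ • T) := by
    intro s hs hup B G hG T hT
    have hHL := theta_HL hx hs hup B (hW B) G hG T hT
      (fun z hz hzx hzup Bz Gz hGz Tz hTz => (ih z hz hzx).hrUp s hs hzup Bz Gz hGz Tz hTz)
      (fun z hz hzx hzup Bz Gz hGz Tz hTz => (ih z hz hzx).hrDn s hs hzup Bz Gz hGz Tz hTz)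
      (fun z hz hzx hzup Bz => (ih z hz hzx).d s hs hzup Bz)
    obtain ⟨Z, hZ0, hZ⟩ := theta_HR_large B.nice B.Fm B.hr hs G hG T hT
    exact theta_HR_of_HL B.nice B.Fm hs G hG T hT hHL ⟨Z, hZ0, hZ Z le_rfl⟩
  refine ⟨hex x hx le_rfl, hW, hD, hUp, ?_, ?_⟩
  · intro s hs hup B G hG T hT
    exact theta_HR_descent B hs (hD s hs hup B) G hG T hT
  · intro s hs hup B G hG
    obtain ⟨T, hT⟩ := exists_mid hs.mn_ne B.O
    have h0 := hUp s hs hup B G hG T hT 0 le_rfl
    rw [zero_smul, add_zero] at h0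
    exact decomposition hx hs hup B G hG h0 hex

/-- the whole induction -/
theorem full (x : Wg) (hx : InW x) : Full x := by
  suffices H : ∀ N : ℕ, ∀ x : Wg, InW x → len x = N → Full x from H _ x hx rfl
  intro N
  induction N using Nat.strong_induction_on with
  | _ N ih =>
    have hex : ∀ z, InW z → len z ≤ N → Nonempty (KLObj z) := by
      intro z hz hzN
      rcases hzN.lt_or_eq with h | h
      · exact (ih _ h z hz rfl).ex
      · by_cases hz1 : z = 1
        · subst hz1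
          exact KLObj_one
        · obtain ⟨s, hs, hup⟩ := exists_descent hz hz1
          obtain ⟨y, rfl⟩ : ∃ y, z = y * sw s := ⟨z * sw s, (mn_mul_sw_sw z s).symm⟩
          rw [mn_mul_sw_sw] at hup
          have hy : InW y := hup.inW' hz
          have hF := ih (len y) (by rw [← h]; exact hup.len_lt) y hy rfl
          obtain ⟨By⟩ := hF.ex
          obtain ⟨G, hG⟩ := exists_thetaFrm By.Fm hs.mn_ne
          obtain ⟨B0, i, p, hip⟩ := (hF.dec s hs hup By G hG).exists_summand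
          exact ⟨B0⟩
    intro x hx hxN
    subst hxN
    exact full_of_ex x hx (fun z hz hzx => ih _ hzx z hz rfl) hex

end EW
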